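import Pool.Agent.PB.SBC
import Pool.Agent.PV.EndV

/-!
# VF/ZAsym: the partition function of the sphere lattice, `ZZ_N(2) = a N^(1/6) (1 + O(N^-δ))`

From the sharp law of `F N = W0 N * ZZ_N(2) / bulk N` (plan V, `PVF.SharpF`) and the sharp normaliser
`W0 N = L bulk N N^(5/24) (1 + O(N^(-1/2)))` (`SB.Wd_sharp`).
-/

set_option autoImplicit false

noncomputable section

open Filter Topology

namespace VF

/-- quotients of power laws with a rate -/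
theorem quot_rate {F G : ℕ → ℝ} {a b p q : ℝ} (hb : 0 < b)
    {c K : ℝ} (hF : ∀ N : ℕ, 1 ≤ N → |F N - a * (N : ℝ) ^ p| ≤ K * (N : ℝ) ^ (p - c))
    {d K' : ℝ} (hd : 0 < d) (hG : ∀ N : ℕ, 1 ≤ N → |G N / (N : ℝ) ^ q - b| ≤ K' * (N : ℝ) ^ (-d)) :
    ∀ᶠ N : ℕ in atTop, |F N / G N - a / b * (N : ℝ) ^ (p - q)| ≤
      (2 / b * |K| + 2 * |a| / b ^ 2 * |K'|) * (N : ℝ) ^ (p - q - min c d) := by
  have h1 : Tendsto (fun N : ℕ => |K'| * (N : ℝ) ^ (-d)) atTop (𝓝 0) := by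
    have h := ((tendsto_rpow_neg_atTop hd).comp tendsto_natCast_atTop_atTop).const_mul |K'|
    simpa using h
  filter_upwards [eventually_ge_atTop 1, h1.eventually (gt_mem_nhds (show (0 : ℝ) < b / 2 by linarith))]
    with N hN1 hN2
  have hN : (1 : ℝ) ≤ N := by exact_mod_cast hN1
  have hN0 : (0 : ℝ) < N := by linarith
  obtain ⟨f, hf⟩ : ∃ f, f = F N / (N : ℝ) ^ p := ⟨_, rfl⟩
  obtain ⟨g, hg⟩ : ∃ g, g = G N / (N : ℝ) ^ q := ⟨_, rfl⟩
  have hp := Real.rpow_pos_of_pos hN0 p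
  have hq := Real.rpow_pos_of_pos hN0 q
  have eF : F N = f * (N : ℝ) ^ p := by rw [hf]; field_simp
  have eG : G N = g * (N : ℝ) ^ q := by rw [hg]; field_simp
  have a1 : |f - a| ≤ |K| * (N : ℝ) ^ (-c) := by
    have h := hF N hN1
    rw [eF, ← sub_mul, abs_mul, abs_of_pos hp, sub_eq_add_neg p c, Real.rpow_add hN0] at h
    have h2 : |f - a| ≤ K * (N : ℝ) ^ (-c) := by
      refine le_of_mul_le_mul_right ?_ hp
      linarith
    exact h2.trans (mul_le_mul_of_nonneg_right (le_abs_self K) (Real.rpow_nonneg hN0.le _))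
  have a2 : |g - b| ≤ |K'| * (N : ℝ) ^ (-d) := by
    have h := hG N hN1
    rw [← hg] at h
    exact h.trans (mul_le_mul_of_nonneg_right (le_abs_self K') (Real.rpow_nonneg hN0.le _))
  have hg2 : b / 2 ≤ g := by
    have := (abs_le.1 a2).1
    linarith
  have hg0 : 0 < g := by linarith
  have m1 : (N : ℝ) ^ (-c) ≤ (N : ℝ) ^ (-min c d) :=
    Real.rpow_le_rpow_of_exponent_le hN (neg_le_neg (min_le_left _ _))
  have m2 : (N : ℝ) ^ (-d) ≤ (N : ℝ) ^ (-min c d) :=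
    Real.rpow_le_rpow_of_exponent_le hN (neg_le_neg (min_le_right _ _))
  have e1 : F N / G N - a / b * (N : ℝ) ^ (p - q) = ((f - a) / g - a * (g - b) / (g * b)) * (N : ℝ) ^ (p - q) := by
    rw [eF, eG, Real.rpow_sub hN0]
    field_simp
    ring
  rw [e1, abs_mul, abs_of_pos (Real.rpow_pos_of_pos hN0 _), sub_eq_add_neg (p - q) (min c d),
    Real.rpow_add hN0]
  have hm := Real.rpow_nonneg hN0.le (-min c d)
  have b1 : |(f - a) / g| ≤ 2 / b * |K| * (N : ℝ) ^ (-min c d) := by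
    rw [abs_div, abs_of_pos hg0, div_le_iff₀ hg0]
    have s1 : |f - a| ≤ |K| * (N : ℝ) ^ (-min c d) := a1.trans (mul_le_mul_of_nonneg_left m1 (abs_nonneg _))
    have s2 : 1 ≤ 2 / b * g := by
      rw [div_mul_eq_mul_div, le_div_iff₀ hb]
      linarith
    have s3 := mul_le_mul_of_nonneg_left s2 (mul_nonneg (abs_nonneg K) hm)
    linarith
  have b2 : |a * (g - b) / (g * b)| ≤ 2 * |a| / b ^ 2 * |K'| * (N : ℝ) ^ (-min c d) := by
    rw [abs_div, abs_mul, abs_of_pos (mul_pos hg0 hb), div_le_iff₀ (mul_pos hg0 hb)]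
    have s1 : |g - b| ≤ |K'| * (N : ℝ) ^ (-min c d) := a2.trans (mul_le_mul_of_nonneg_left m2 (abs_nonneg _))
    have s2 : 1 ≤ 2 / b ^ 2 * (g * b) := by
      rw [div_mul_eq_mul_div, le_div_iff₀ (by positivity)]
      nlinarith
    have s3 := mul_le_mul_of_nonneg_left s1 (abs_nonneg a)
    have s4 := mul_le_mul_of_nonneg_left s2 (mul_nonneg (abs_nonneg a) (mul_nonneg (abs_nonneg K') hm))
    have e : 2 * |a| / b ^ 2 * |K'| * (N : ℝ) ^ (-min c d) * (g * b) =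
        |a| * (|K'| * (N : ℝ) ^ (-min c d)) * (2 / b ^ 2 * (g * b)) := by ring
    rw [e]
    linarith
  have hr : 0 ≤ (N : ℝ) ^ (p - q) := Real.rpow_nonneg hN0.le _
  have b3 : |(f - a) / g - a * (g - b) / (g * b)| ≤
      (2 / b * |K| + 2 * |a| / b ^ 2 * |K'|) * (N : ℝ) ^ (-min c d) := by
    refine (abs_sub _ _).trans ?_
    linarith
  calc |(f - a) / g - a * (g - b) / (g * b)| * (N : ℝ) ^ (p - q) ≤
        ((2 / b * |K| + 2 * |a| / b ^ 2 * |K'|) * (N : ℝ) ^ (-min c d)) * (N : ℝ) ^ (p - q) :=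
        mul_le_mul_of_nonneg_right b3 hr
    _ = _ := by ring

open Pool.Agent

/-- the physical partition function of the sphere lattice with `N` rows on both sides, loop weight 2 -/
def ZR (N : ℕ) : ℝ := (NUF.ZZ 2 N).re

/-- the sharp law of the partition function -/
def SharpZ (Z : ℕ → ℝ) : Prop := ∃ a : ℝ, 0 < a ∧ ∃ c : ℝ, 0 < c ∧ ∃ K : ℝ, ∀ N : ℕ, 1 ≤ N →
  |Z N - a * (N : ℝ) ^ (1 / 6 : ℝ)| ≤ K * (N : ℝ) ^ (1 / 6 - c)

/-- **ZAsym**: `ZZ_N(2) = a N^(1/6) (1 + O(N^-c))` -/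
theorem sharpZ_of (hQ : SB.QuotP) (hF : PVF.SharpF fun N => NUI.W0 N * ZR N / NUF.bulk N) :
    SharpZ ZR := by
  obtain ⟨a, ha, c, hc, K, hK⟩ := hF
  obtain ⟨L, C, hL, hC, hW⟩ := SB.Wd_sharp hQ
  have hG : ∀ N : ℕ, 1 ≤ N → |NUI.W0 N / NUF.bulk N / (N : ℝ) ^ (5 / 24 : ℝ) - L| ≤
      C * (N : ℝ) ^ (-(1 / 2) : ℝ) := by
    intro N hN
    have h := hW N hN
    rw [div_div]
    exact h
  have h := quot_rate hL hK (by norm_num) hG
  refine ⟨a / L, div_pos ha hL, min c (1 / 2), lt_min hc (by norm_num), ?_⟩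
  have e0 : ((3 : ℝ) / 8 - 5 / 24) = 1 / 6 := by norm_num
  have h2 : ∀ᶠ N : ℕ in atTop, |ZR N - a / L * (N : ℝ) ^ (1 / 6 : ℝ)| ≤
      (2 / L * |K| + 2 * |a| / L ^ 2 * |C|) * (N : ℝ) ^ (1 / 6 - min c (1 / 2)) := by
    filter_upwards [h] with N hN
    have hb := NUF.bulk_pos N
    have hw : 0 < NUI.W0 N := by
      unfold NUI.W0
      exact norm_pos_iff.2 (NUF.Wd_ne N)
    have e1 : NUI.W0 N * ZR N / NUF.bulk N / (NUI.W0 N / NUF.bulk N) = ZR N := by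
      field_simp
    rw [e0, e1] at hN
    exact hN
  obtain ⟨K', -, hK'⟩ := PVF.all_of_ev h2
  exact ⟨K', hK'⟩

/-- the limit form -/
theorem tendsto_of_sharp {Z : ℕ → ℝ} (h : SharpZ Z) :
    ∃ a : ℝ, 0 < a ∧ Tendsto (fun N : ℕ => Z N / (N : ℝ) ^ (1 / 6 : ℝ)) atTop (𝓝 a) := by
  obtain ⟨a, ha, c, hc, K, hK⟩ := h
  refine ⟨a, ha, ?_⟩
  have h1 : Tendsto (fun N : ℕ => |K| * (N : ℝ) ^ (-c)) atTop (𝓝 0) := by
    have h := ((tendsto_rpow_neg_atTop hc).comp tendsto_natCast_atTop_atTop).const_mul |K|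
    simpa using h
  refine tendsto_iff_norm_sub_tendsto_zero.2 (squeeze_zero' (Eventually.of_forall fun _ => norm_nonneg _) ?_ h1)
  filter_upwards [eventually_ge_atTop 1] with N hN
  have hN0 : (0 : ℝ) < N := by exact_mod_cast hN
  have hp := Real.rpow_pos_of_pos hN0 (1 / 6 : ℝ)
  have h2 := hK N hN
  rw [sub_eq_add_neg (1 / 6 : ℝ) c, Real.rpow_add hN0] at h2
  have e : Z N / (N : ℝ) ^ (1 / 6 : ℝ) - a = (Z N - a * (N : ℝ) ^ (1 / 6 : ℝ)) / (N : ℝ) ^ (1 / 6 : ℝ) := by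
    field_simp
  rw [Real.norm_eq_abs, e, abs_div, abs_of_pos hp, div_le_iff₀ hp]
  refine h2.trans ?_
  have h3 := Real.rpow_nonneg hN0.le (-c)
  have h4 := mul_le_mul_of_nonneg_right (le_abs_self K) (mul_nonneg hp.le h3)
  linarith

end VF

end
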