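import Pool.Agent.VF.MeanC
import Pool.Agent.VF.ZAsym
import Pool.Agent.PW.ZtM
import Pool.Agent.NUNC.WindUp
import Pool.Agent.NUB.Poly

/-!
# Plan V, consequences: the scale of lengths `mZ N` is `N ^ (4/3)` up to constants (helper7)

From `SharpZ ZR` (51's VF/ZAsym):
* `norm_ZZ` : `‖ZZ 2 m‖ = ZR m`; `zUpC_of`, `zLowC_of`;
* `nf_low` : the gas of nested polygons of weight `2` in the strip is at least `c m ^ (1/12)`;
* `Zt_two`, **`mZ_two`** : `c N ^ (4/3) ≤ PW.mZ N ≤ C N ^ (4/3)`, every `N ≥ 1`;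
* `mUp`, `mLow` : the same along `2 ^ k`.
-/

set_option autoImplicit false

open scoped Classical

noncomputable section

namespace VF

open Pool.Agent Pool.Agent.NUF Pool.Agent.VF HexObs HexObs.LP Polynomial

/-- the value at `2` is real and not negative -/
theorem ZZ_ofReal (m : ℕ) : 0 ≤ ZR m ∧ NUF.ZZ 2 m = ((ZR m : ℝ) : ℂ) := by
  obtain ⟨P, hP, -, h⟩ := NUB.ZZ_poly m
  have h2 : NUF.ZZ 2 m = ((P.eval 2 : ℝ) : ℂ) := by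
    have h3 := h 2
    have e : ((2 : ℝ) : ℂ) = 2 := by norm_num
    rw [h3, ← e, ← Complex.coe_algebraMap, Polynomial.aeval_algebraMap_apply]
    simp
  have h3 : ZR m = P.eval 2 := by
    unfold ZR
    rw [h2, Complex.ofReal_re]
  refine ⟨?_, by rw [h3, h2]⟩
  rw [h3, Polynomial.eval_eq_sum_range]
  exact Finset.sum_nonneg fun i _ => mul_nonneg (hP i) (by positivity)

theorem norm_ZZ (m : ℕ) : ‖NUF.ZZ 2 m‖ = ZR m := by
  obtain ⟨h1, h2⟩ := ZZ_ofReal m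
  rw [h2, Complex.norm_real, Real.norm_of_nonneg h1]

theorem zUpC_of (h : SharpZ ZR) : ZUpC := by
  obtain ⟨a, ha, c, hc, K, hK⟩ := h
  refine ⟨a + |K|, fun m hm => ?_⟩
  have hm1 : (1 : ℝ) ≤ m := by exact_mod_cast hm
  have h1 := (abs_le.1 (hK m hm)).2
  have h2 : K * (m : ℝ) ^ (1 / 6 - c) ≤ |K| * (m : ℝ) ^ (1 / 6 : ℝ) :=
    mul_le_mul (le_abs_self K) (Real.rpow_le_rpow_of_exponent_le hm1 (by linarith))
      (by positivity) (abs_nonneg _)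
  rw [norm_ZZ]
  linarith

theorem zLowC_of (h : SharpZ ZR) : ∃ c : ℝ, 0 < c ∧ ∃ N0 : ℕ, 1 ≤ N0 ∧ ∀ N : ℕ, N0 ≤ N →
    c * (N : ℝ) ^ (1 / 6 : ℝ) ≤ ZR N := by
  obtain ⟨a, ha, c, hc, K, hK⟩ := h
  have h1 : Filter.Tendsto (fun N : ℕ => |K| * (N : ℝ) ^ (-c)) Filter.atTop (nhds 0) := by
    have h := ((tendsto_rpow_neg_atTop hc).comp tendsto_natCast_atTop_atTop).const_mul |K|
    simpa using h
  obtain ⟨N1, hN1⟩ := Filter.eventually_atTop.1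
    (h1.eventually (gt_mem_nhds (show (0 : ℝ) < a / 2 by linarith)))
  refine ⟨a / 2, by linarith, max N1 1, le_max_right _ _, fun N hN => ?_⟩
  have n1 : N1 ≤ N := (le_max_left _ _).trans hN
  have n2 : 1 ≤ N := (le_max_right _ _).trans hN
  have hN0 : (0 : ℝ) < N := by exact_mod_cast n2
  have h2 := (abs_le.1 (hK N n2)).1
  have h3 := hN1 N n1
  have hp := Real.rpow_pos_of_pos hN0 (1 / 6 : ℝ)
  have h4 : K * (N : ℝ) ^ (1 / 6 - c) ≤ a / 2 * (N : ℝ) ^ (1 / 6 : ℝ) := by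
    rw [sub_eq_add_neg, Real.rpow_add hN0]
    have h5 : K * (N : ℝ) ^ (-c) ≤ a / 2 :=
      (mul_le_mul_of_nonneg_right (le_abs_self K) (by positivity)).trans h3.le
    nlinarith
  linarith

/-- **the gas of nested polygons from below** -/
theorem nf_low (h : SharpZ ZR) : ∃ c : ℝ, 0 < c ∧ ∀ m : ℕ, 1 ≤ m → ∃ M : ℕ,
    c * (m : ℝ) ^ (1 / 12 : ℝ) ≤ NF (2 : ℝ) (HexObs.LP.PP m M) f0 := by
  obtain ⟨c, hc, N0, hN0, hZ⟩ := zLowC_of h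
  obtain ⟨C, K, hC, hK, hW⟩ := NUNC.windUp
  obtain ⟨R, hR⟩ : ∃ R : ℕ, R = K * N0 := ⟨_, rfl⟩
  have hR1 : 1 ≤ R := by rw [hR]; exact Nat.mul_pos hK hN0
  have hRR : (1 : ℝ) ≤ R := by exact_mod_cast hR1
  have hKR : (1 : ℝ) ≤ K := by exact_mod_cast hK
  obtain ⟨d, hd⟩ : ∃ d : ℝ, d = min (Real.sqrt (c / C) / (K : ℝ) ^ (1 / 12 : ℝ))
      (1 / (R : ℝ) ^ (1 / 12 : ℝ)) := ⟨_, rfl⟩
  have hd0 : 0 < d := by
    rw [hd]
    have : 0 < Real.sqrt (c / C) := Real.sqrt_pos.2 (by positivity)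
    exact lt_min (by positivity) (by positivity)
  refine ⟨d, hd0, fun m hm => ?_⟩
  have hm0 : (0 : ℝ) < m := by exact_mod_cast hm
  rcases Nat.lt_or_ge m R with hmR | hmR
  · refine ⟨0, ?_⟩
    have h1 : (1 : ℝ) ≤ NF (2 : ℝ) (HexObs.LP.PP m 0) f0 := one_le_NF (by norm_num) _ _
    have h3 : (m : ℝ) ^ (1 / 12 : ℝ) ≤ (R : ℝ) ^ (1 / 12 : ℝ) :=
      Real.rpow_le_rpow hm0.le (by exact_mod_cast hmR.le) (by norm_num)
    have h4 : d ≤ 1 / (R : ℝ) ^ (1 / 12 : ℝ) := by rw [hd]; exact min_le_right _ _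
    have h2 : d * (m : ℝ) ^ (1 / 12 : ℝ) ≤ 1 := by
      calc d * (m : ℝ) ^ (1 / 12 : ℝ) ≤ 1 / (R : ℝ) ^ (1 / 12 : ℝ) * (R : ℝ) ^ (1 / 12 : ℝ) :=
            mul_le_mul h4 h3 (by positivity) (by positivity)
        _ = 1 := by field_simp
    linarith
  · obtain ⟨k, hk⟩ : ∃ k : ℕ, k = m / K := ⟨_, rfl⟩
    have hkN : N0 ≤ k := by
      rw [hk, Nat.le_div_iff_mul_le hK, mul_comm]
      rw [← hR]
      exact hmR
    have hk1 : 1 ≤ k := hN0.trans hkN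
    obtain ⟨M, hM⟩ := hW k hk1
    refine ⟨M, ?_⟩
    have h2 : K * k ≤ m := by
      rw [hk]
      exact Nat.mul_div_le m K
    have h3 : HexObs.LP.PP (K * k) M ⊆ HexObs.LP.PP m M := by
      intro v hv
      rw [mem_PP] at hv ⊢
      refine ⟨hv.1, lt_of_lt_of_le hv.2.1 ?_, hv.2.2⟩
      have : ((K * k : ℕ) : ℤ) ≤ m := by exact_mod_cast h2
      linarith
    have h4 := NF_mono (z := 2) (by norm_num) f0 h3
    have h5 : (1 : ℝ) ≤ NF (2 : ℝ) (HexObs.LP.PP (K * k) M) f0 := one_le_NF (by norm_num) _ _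
    have h6 : c * ((2 * k : ℕ) : ℝ) ^ (1 / 6 : ℝ) ≤ C * NF (2 : ℝ) (HexObs.LP.PP m M) f0 ^ 2 := by
      have h7 := hZ (2 * k) (by omega)
      rw [← norm_ZZ] at h7
      refine h7.trans (hM.trans (mul_le_mul_of_nonneg_left ?_ hC.le))
      exact pow_le_pow_left₀ (by linarith) h4 2
    have hx0 : (0 : ℝ) ≤ ((2 * k : ℕ) : ℝ) := Nat.cast_nonneg _
    have h7 : c / C * (((2 * k : ℕ) : ℝ) ^ (1 / 12 : ℝ)) ^ 2 ≤
        NF (2 : ℝ) (HexObs.LP.PP m M) f0 ^ 2 := by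
      have e1 : (((2 * k : ℕ) : ℝ) ^ (1 / 12 : ℝ)) ^ 2 = ((2 * k : ℕ) : ℝ) ^ (1 / 6 : ℝ) := by
        rw [← Real.rpow_natCast (((2 * k : ℕ) : ℝ) ^ (1 / 12 : ℝ)) 2, ← Real.rpow_mul hx0]
        congr 1
        norm_num
      rw [e1, div_mul_eq_mul_div, div_le_iff₀ hC]
      linarith
    have h8 : Real.sqrt (c / C) * ((2 * k : ℕ) : ℝ) ^ (1 / 12 : ℝ) ≤
        NF (2 : ℝ) (HexObs.LP.PP m M) f0 := by
      have h9 := Real.sqrt_le_sqrt h7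
      rw [Real.sqrt_mul (by positivity), Real.sqrt_sq (by positivity),
        Real.sqrt_sq (by linarith)] at h9
      exact h9
    have h10 : (m : ℝ) ≤ K * ((2 * k : ℕ) : ℝ) := by
      have h11 : m < K * (k + 1) := by
        rw [hk]
        exact Nat.lt_mul_div_succ m hK
      have h12 : m ≤ K * (2 * k) := h11.le.trans (Nat.mul_le_mul_left _ (by omega))
      exact_mod_cast h12
    have h14 : (m : ℝ) ^ (1 / 12 : ℝ) ≤
        (K : ℝ) ^ (1 / 12 : ℝ) * ((2 * k : ℕ) : ℝ) ^ (1 / 12 : ℝ) := by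
      rw [← Real.mul_rpow (by positivity) hx0]
      exact Real.rpow_le_rpow hm0.le h10 (by norm_num)
    have h15 : d ≤ Real.sqrt (c / C) / (K : ℝ) ^ (1 / 12 : ℝ) := by rw [hd]; exact min_le_left _ _
    calc d * (m : ℝ) ^ (1 / 12 : ℝ)
        ≤ Real.sqrt (c / C) / (K : ℝ) ^ (1 / 12 : ℝ) *
          ((K : ℝ) ^ (1 / 12 : ℝ) * ((2 * k : ℕ) : ℝ) ^ (1 / 12 : ℝ)) :=
            mul_le_mul h15 h14 (by positivity) (by positivity)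
      _ = Real.sqrt (c / C) * ((2 * k : ℕ) : ℝ) ^ (1 / 12 : ℝ) := by
            have : (0 : ℝ) < (K : ℝ) ^ (1 / 12 : ℝ) := by positivity
            field_simp
      _ ≤ _ := h8

/-- **the gas of nested polygons of the strip, two-sided** -/
theorem Zt_two (h : SharpZ ZR) : ∃ c C : ℝ, 0 < c ∧ 0 < C ∧ ∀ m : ℕ, 1 ≤ m →
    c * (m : ℝ) ^ (1 / 12 : ℝ) ≤ PW.Zt m ∧ PW.Zt m ≤ C * (m : ℝ) ^ (1 / 12 : ℝ) := by
  obtain ⟨c, hc, h1⟩ := nf_low h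
  obtain ⟨C, h2⟩ := nf_up (zUpC_of h)
  have hC : 1 ≤ C := by
    have h3 := (one_le_NF (z := (2 : ℝ)) (by norm_num) (HexObs.LP.PP 1 0) f0).trans (h2 1 0 le_rfl)
    rwa [Nat.cast_one, Real.one_rpow, mul_one] at h3
  refine ⟨c, C, hc, by linarith, fun m hm => ⟨?_, ciSup_le fun M => h2 m M hm⟩⟩
  obtain ⟨M, hM⟩ := h1 m hm
  exact hM.trans (PW.NF_le_Zt m M)

/-- **the scale of lengths, two-sided** -/
theorem mZ_two (h : SharpZ ZR) : ∃ c C : ℝ, 0 < c ∧ 0 < C ∧ ∀ N : ℕ, 1 ≤ N →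
    c * (N : ℝ) ^ (4 / 3 : ℝ) ≤ PW.mZ N ∧ PW.mZ N ≤ C * (N : ℝ) ^ (4 / 3 : ℝ) := by
  obtain ⟨c, C, hc, hC, h1⟩ := Zt_two h
  refine ⟨c, C, hc, hC, fun N hN => ?_⟩
  have hN0 : (0 : ℝ) < N := by exact_mod_cast hN
  obtain ⟨h2, h3⟩ := h1 N hN
  have e : (N : ℝ) ^ (4 / 3 : ℝ) = (N : ℝ) ^ (5 / 4 : ℝ) * (N : ℝ) ^ (1 / 12 : ℝ) := by
    rw [← Real.rpow_add hN0]
    congr 1
    norm_num
  have hp : (0 : ℝ) ≤ (N : ℝ) ^ (5 / 4 : ℝ) := by positivity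
  unfold PW.mZ
  rw [e]
  constructor
  · calc c * ((N : ℝ) ^ (5 / 4 : ℝ) * (N : ℝ) ^ (1 / 12 : ℝ)) =
          (N : ℝ) ^ (5 / 4 : ℝ) * (c * (N : ℝ) ^ (1 / 12 : ℝ)) := by ring
      _ ≤ _ := mul_le_mul_of_nonneg_left h2 hp
  · calc (N : ℝ) ^ (5 / 4 : ℝ) * PW.Zt N ≤
          (N : ℝ) ^ (5 / 4 : ℝ) * (C * (N : ℝ) ^ (1 / 12 : ℝ)) := mul_le_mul_of_nonneg_left h3 hp
      _ = _ := by ring

private lemma pow43 (k : ℕ) : (((2 ^ k : ℕ) : ℝ)) ^ (4 / 3 : ℝ) = 2 ^ (4 / 3 * (k : ℝ)) := by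
  push_cast
  rw [← Real.rpow_natCast, ← Real.rpow_mul (by norm_num)]
  congr 1
  ring

/-- along the powers of two, from above -/
theorem mUp (h : SharpZ ZR) : ∃ C : ℝ, 0 < C ∧ ∀ k : ℕ,
    PW.mZ (2 ^ k) ≤ C * 2 ^ (4 / 3 * (k : ℝ)) := by
  obtain ⟨c, C, hc, hC, h1⟩ := mZ_two h
  refine ⟨C, hC, fun k => ?_⟩
  rw [← pow43]
  exact (h1 (2 ^ k) Nat.one_le_two_pow).2

/-- along the powers of two, from below -/
theorem mLow (h : SharpZ ZR) : ∃ c : ℝ, 0 < c ∧ ∀ k : ℕ,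
    c * 2 ^ (4 / 3 * (k : ℝ)) ≤ PW.mZ (2 ^ k) := by
  obtain ⟨c, C, hc, hC, h1⟩ := mZ_two h
  refine ⟨c, hc, fun k => ?_⟩
  rw [← pow43]
  exact (h1 (2 ^ k) Nat.one_le_two_pow).1

end VF

end
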