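import Pool.Agent.PV.CloseV
import Pool.Agent.PB.SB3
import Pool.Agent.VF.ZAsym

/-!
# VF/SharpZ: the partition function of the sphere lattice, loop weight `2`, no hypothesis (helper36)

* **`sharpZ`**: `ZZ_N(2) = a N^(1/6) + O(N^(1/6 - c))`, `a > 0`;
* `sharpZ_tendsto`: `ZZ_N(2) / N^(1/6) → a > 0`.
-/

set_option autoImplicit false

noncomputable section

open Filter Topology

namespace VF

/-- **sharp partition function** -/
theorem sharpZ : SharpZ ZR := sharpZ_of SB.quot_main PV.sharpF

/-- the limit form -/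
theorem sharpZ_tendsto : ∃ a : ℝ, 0 < a ∧
    Tendsto (fun N : ℕ => ZR N / (N : ℝ) ^ (1 / 6 : ℝ)) atTop (𝓝 a) := tendsto_of_sharp sharpZ

end VF

end
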