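import Pool.Agent.VF.BLC
import Pool.Agent.BAR.Power
import Pool.Agent.NT.Disp

/-!
The weight of all bridges with few letters, from `UUp` (helper51, for helper42's stage 2 of the correlation length).
-/

set_option autoImplicit false

namespace Pool.Agent.VF

open Finset HexObs HexObs.BrL TS

open scoped ENNReal

/-- the weight of the bridges with less than `lam` letters is at most the partial sum by letters -/
theorem short_le (lam : ℝ) (N : ℕ) :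
    ∑ h ∈ range (N + 1), gf {Z | Z ∈ Brd h ∧ (Z.length : ℝ) < lam} ≤ ENNReal.ofReal (NUX.UU ub ⌈lam / 2⌉₊) := by
  rw [UU_eq, ENNReal.ofReal_toReal (SB_ne_top _), ← gf_biUnion]
  · apply gf_mono
    intro t ht
    simp only [Set.mem_iUnion] at ht
    obtain ⟨T, _, h⟩ := ht
    refine ⟨⟨T, h.1⟩, ?_⟩
    have h1 : (t.length : ℝ) < lam := h.2
    have h2 := Nat.le_ceil (lam / 2)
    have h3 : (t.length : ℝ) ≤ ((2 * ⌈lam / 2⌉₊ : ℕ) : ℝ) := by push_cast; linarith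
    exact_mod_cast h3
  · intro i _ j _ hij
    rw [Set.disjoint_left]
    rintro t ⟨h3, _⟩ ⟨h4, _⟩
    exact hij (Brd_height h3 h4)

theorem as_of_hUp (h : UUp) : ∀ dd : ℝ, 0 < dd → ∃ (c : ℝ) (k0 : ℕ), 0 < c ∧ ∀ k : ℕ, k0 ≤ k →
    NTm.AS (c * (2 : ℝ) ^ ((4 / 3 : ℝ) * (k : ℝ))) (dd * Ub k) := by
  intro dd hdd
  obtain ⟨C, hC, h⟩ := h
  obtain ⟨cU, _, hcU, _, hU⟩ := BAR.UU_two
  set c : ℝ := (dd * cU / C) ^ (16 / 9 : ℝ) with hc
  have hc0 : 0 < c := by positivity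
  obtain ⟨k0, hk0⟩ : ∃ k0 : ℕ, 2 / c ≤ (2 : ℝ) ^ k0 := by
    obtain ⟨k0, h⟩ := pow_unbounded_of_one_lt (2 / c) (by norm_num : (1 : ℝ) < 2)
    exact ⟨k0, h.le⟩
  refine ⟨c, k0, hc0, fun k hk N => (short_le _ N).trans (ENNReal.ofReal_le_ofReal ?_)⟩
  set lam := c * (2 : ℝ) ^ ((4 / 3 : ℝ) * (k : ℝ)) with hlam
  have hl2 : 2 ≤ lam := by
    have h1 : (2 : ℝ) ^ k0 ≤ (2 : ℝ) ^ ((4 / 3 : ℝ) * (k : ℝ)) := by
      rw [← Real.rpow_natCast]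
      apply Real.rpow_le_rpow_of_exponent_le (by norm_num)
      have : (k0 : ℝ) ≤ k := by exact_mod_cast hk
      have : (0 : ℝ) ≤ k := by positivity
      linarith
    calc (2 : ℝ) = c * (2 / c) := by field_simp
      _ ≤ c * (2 : ℝ) ^ ((4 / 3 : ℝ) * (k : ℝ)) := mul_le_mul_of_nonneg_left (hk0.trans h1) hc0.le
  have hn1 : 1 ≤ ⌈lam / 2⌉₊ := Nat.one_le_iff_ne_zero.2 (by
    intro h0
    have := Nat.ceil_eq_zero.1 h0
    linarith)
  have hn2 : ((⌈lam / 2⌉₊ : ℕ) : ℝ) ≤ lam := by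
    have := (Nat.ceil_lt_add_one (by linarith : (0 : ℝ) ≤ lam / 2)).le
    linarith
  refine (h _ hn1).trans ?_
  have h3 : ((⌈lam / 2⌉₊ : ℕ) : ℝ) ^ (9 / 16 : ℝ) ≤ lam ^ (9 / 16 : ℝ) :=
    Real.rpow_le_rpow (by positivity) hn2 (by norm_num)
  have h4 : lam ^ (9 / 16 : ℝ) = dd * cU / C * (2 : ℝ) ^ ((3 / 4 : ℝ) * (k : ℝ)) := by
    rw [hlam, Real.mul_rpow hc0.le (by positivity), hc, ← Real.rpow_mul (by positivity),
      ← Real.rpow_mul (by norm_num)]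
    norm_num
    left
    congr 1
    ring
  have h5 := (hU (2 ^ k) Nat.one_le_two_pow).1
  have e1 : ((2 ^ k : ℕ) : ℝ) ^ (3 / 4 : ℝ) = (2 : ℝ) ^ ((3 / 4 : ℝ) * (k : ℝ)) := by
    push_cast
    rw [← Real.rpow_natCast, ← Real.rpow_mul (by norm_num)]
    ring_nf
  rw [e1] at h5
  calc C * ((⌈lam / 2⌉₊ : ℕ) : ℝ) ^ (9 / 16 : ℝ) ≤ C * (dd * cU / C * (2 : ℝ) ^ ((3 / 4 : ℝ) * (k : ℝ))) := by
        rw [← h4]; exact mul_le_mul_of_nonneg_left h3 hC.le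
    _ = dd * (cU * (2 : ℝ) ^ ((3 / 4 : ℝ) * (k : ℝ))) := by field_simp
    _ ≤ dd * Ub k := mul_le_mul_of_nonneg_left h5 hdd.le

end Pool.Agent.VF
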