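import Pool.Agent.VF.BLC
import Pool.Agent.NUX.HandB3

/-!
`UUp` from the lower mean of the number of letters of the bridges at every scale (helper51).
-/

set_option autoImplicit false

namespace Pool.Agent.VF

open Finset HexObs HexObs.BrL

open scoped ENNReal

/-- the partial sums by the number of letters, from above, with a constant -/
theorem uup_of {m : ℕ → ℝ} {c0 : ℝ} (hc0 : 0 < c0) (hm : ∀ k : ℕ, c0 * 2 ^ (4 / 3 * (k : ℝ)) ≤ m k)
    (hC : NTA.C1 m) : UUp := by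
  obtain ⟨c1, c', hc1, hc', hC⟩ := hC
  obtain ⟨c2, C2, hc2, hC2, hU⟩ := BAR.UU_two
  set κ := c1 * c0 with hκ
  have hκ0 : 0 < κ := by positivity
  refine ⟨C2 * (2 : ℝ) ^ (3 / 2 : ℝ) * (1 + (2 / κ) ^ (9 / 16 : ℝ)) / (c' / 2), by positivity, fun n hn => ?_⟩
  have hn0 : (0 : ℝ) < n := by exact_mod_cast hn
  have hn1 : (1 : ℝ) ≤ n := by exact_mod_cast hn
  set y := 2 * (n : ℝ) / κ with hy
  have hy0 : 0 < y := by positivity
  set k := ⌈(3 / 4) * Real.logb 2 y⌉₊ + 1 with hk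
  have hk1 : (3 / 4) * Real.logb 2 y < k := by
    have := Nat.le_ceil ((3 / 4) * Real.logb 2 y)
    rw [hk]; push_cast; linarith
  have h1 : y < (2 : ℝ) ^ (4 / 3 * (k : ℝ)) := by
    have e : y = (2 : ℝ) ^ (Real.logb 2 y) := (Real.rpow_logb (by norm_num) (by norm_num) hy0).symm
    rw [e]
    apply Real.rpow_lt_rpow_of_exponent_lt (by norm_num)
    linarith
  have h2 : 2 * (n : ℝ) < c1 * m k := by
    have h3 := hm k
    have h4 : κ * y < κ * (2 : ℝ) ^ (4 / 3 * (k : ℝ)) := mul_lt_mul_of_pos_left h1 hκ0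
    have h5 : κ * y = 2 * n := by rw [hy]; field_simp
    calc 2 * (n : ℝ) = κ * y := h5.symm
      _ < κ * (2 : ℝ) ^ (4 / 3 * (k : ℝ)) := h4
      _ = c1 * (c0 * (2 : ℝ) ^ (4 / 3 * (k : ℝ))) := by rw [hκ]; ring
      _ ≤ c1 * m k := mul_le_mul_of_nonneg_left h3 hc1.le
  have hUp := Num2Aux.UU_pos (2 ^ k)
  have hnt : ¬ T2.Tail (2 ^ k) (c1 * m k) (c' / 2) := by
    intro h3
    have h4 := (hC k).trans h3
    rw [ENNReal.ofReal_le_ofReal_iff (by positivity)] at h4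
    have h5 : c' * HexObs.UU (2 ^ k) ≤ c' / 2 * HexObs.UU (2 ^ k) := h4
    nlinarith [mul_pos hc' hUp]
  have h3 := PWIdx.up_of_not_tail (N0 := 2 ^ k) (x := n) (by positivity : 0 < c' / 2) hnt h2
  refine h3.trans ?_
  rw [div_mul_eq_mul_div]
  apply div_le_div_of_nonneg_right _ (by positivity)
  refine ((hU (2 ^ k) Nat.one_le_two_pow).2).trans ?_
  rw [mul_assoc, mul_assoc]
  apply mul_le_mul_of_nonneg_left _ hC2.le
  have e1 : ((2 ^ k : ℕ) : ℝ) ^ (3 / 4 : ℝ) = (2 : ℝ) ^ (3 / 4 * (k : ℝ)) := by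
    push_cast
    rw [← Real.rpow_natCast, ← Real.rpow_mul (by norm_num)]
    ring_nf
  rw [e1]
  have hkc : (k : ℝ) ≤ max 0 ((3 / 4) * Real.logb 2 y) + 2 := by
    rw [hk]; push_cast
    rcases le_or_gt 0 ((3 / 4) * Real.logb 2 y) with h | h
    · have := (Nat.ceil_lt_add_one h).le
      have := le_max_right 0 ((3 / 4) * Real.logb 2 y)
      linarith
    · rw [Nat.ceil_eq_zero.2 h.le]
      have := le_max_left 0 ((3 / 4) * Real.logb 2 y)
      push_cast; linarith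
  have h4 : (2 : ℝ) ^ (3 / 4 * (k : ℝ)) ≤ (2 : ℝ) ^ (3 / 2 : ℝ) * max 1 (y ^ (9 / 16 : ℝ)) := by
    calc (2 : ℝ) ^ (3 / 4 * (k : ℝ)) ≤ (2 : ℝ) ^ (3 / 4 * (max 0 ((3 / 4) * Real.logb 2 y) + 2)) :=
          Real.rpow_le_rpow_of_exponent_le (by norm_num) (by linarith)
      _ = (2 : ℝ) ^ (3 / 2 : ℝ) * (2 : ℝ) ^ (3 / 4 * max 0 ((3 / 4) * Real.logb 2 y)) := by
          rw [← Real.rpow_add (by norm_num)]
          congr 1; ring
      _ ≤ _ := by
          apply mul_le_mul_of_nonneg_left _ (by positivity)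
          rcases le_or_gt 0 ((3 / 4) * Real.logb 2 y) with h | h
          · rw [max_eq_right h]
            refine le_trans (le_of_eq ?_) (le_max_right _ _)
            have e : y ^ (9 / 16 : ℝ) = (2 : ℝ) ^ (Real.logb 2 y * (9 / 16)) := by
              rw [Real.rpow_mul (by norm_num), Real.rpow_logb (by norm_num) (by norm_num) hy0]
            rw [e]
            congr 1; ring
          · rw [max_eq_left h.le, mul_zero, Real.rpow_zero]
            exact le_max_left _ _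
  refine h4.trans (mul_le_mul_of_nonneg_left ?_ (by positivity))
  have e2 : y ^ (9 / 16 : ℝ) = (2 / κ) ^ (9 / 16 : ℝ) * (n : ℝ) ^ (9 / 16 : ℝ) := by
    rw [← Real.mul_rpow (by positivity) (by positivity)]
    congr 1; rw [hy]; ring
  have h5 : (1 : ℝ) ≤ (n : ℝ) ^ (9 / 16 : ℝ) := Real.one_le_rpow hn1 (by norm_num)
  have h6 : 0 < (2 / κ) ^ (9 / 16 : ℝ) := by positivity
  rw [e2]
  apply max_le
  · nlinarith
  · nlinarith

end Pool.Agent.VF
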