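import Pool.Agent.NUF.FIN

/-!
# Plan V, consequences: the upper half, with constants (helper7)

* `ZUpC` : `‖Z_m(2)‖ ≤ C m ^ (1/6)` for every `m ≥ 1` (the upper half of the sharp partition function);
* `nf_up` : the gas of nested polygons of weight `2` is at most `C T ^ (1/12)`;
* **`meanLen_C`** : the mean number of letters of the critical bridges of height `T` is at most
  `C T ^ (4/3)`, for every `T ≥ 1`.
-/

set_option autoImplicit false

open scoped Classical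

namespace Pool.Agent.VF

open HexObs HexObs.LP Pool.Agent.NUF

/-- the upper half of the sharp bounds of the partition function of the sphere lattice -/
def ZUpC : Prop := ∃ C : ℝ, ∀ m : ℕ, 1 ≤ m → ‖ZZ 2 m‖ ≤ C * (m : ℝ) ^ (1 / 6 : ℝ)

/-- **the gas of nested polygons** -/
theorem nf_up (h : ZUpC) : ∃ C : ℝ, ∀ T M : ℕ, 1 ≤ T →
    NF (2 : ℝ) (HexObs.LP.PP T M) f0 ≤ C * (T : ℝ) ^ (1 / 12 : ℝ) := by
  obtain ⟨C, hC⟩ := h
  have hC0 : 0 ≤ C := by
    have h1 := hC 1 le_rfl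
    rw [Nat.cast_one, Real.one_rpow, mul_one] at h1
    exact (norm_nonneg _).trans h1
  refine ⟨Real.sqrt (C * 2 ^ (1 / 6 : ℝ)), fun T M hT => ?_⟩
  obtain ⟨x, hx, hx1⟩ := NF_le_ZZ (n' := 2) (by norm_num) hT M
  have h2 := hC (2 * T) (by omega)
  have h20 : ((2 : ℝ) : ℂ) = 2 := by norm_num
  rw [h20] at hx
  rw [hx, Complex.norm_real, Real.norm_eq_abs] at h2
  have hT0 : (0 : ℝ) < T := by exact_mod_cast hT
  have h3 : NF (2 : ℝ) (HexObs.LP.PP T M) f0 ^ 2 ≤
      (C * 2 ^ (1 / 6 : ℝ)) * ((T : ℝ) ^ (1 / 12 : ℝ)) ^ 2 := by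
    refine hx1.trans ((le_abs_self x).trans (h2.trans (le_of_eq ?_)))
    push_cast
    rw [Real.mul_rpow (by norm_num) hT0.le, ← Real.rpow_natCast ((T : ℝ) ^ (1 / 12 : ℝ)) 2,
      ← Real.rpow_mul hT0.le]
    have e : (1 / 12 : ℝ) * ((2 : ℕ) : ℝ) = 1 / 6 := by push_cast; ring
    rw [e]
    ring
  have h4 := Real.abs_le_sqrt h3
  rw [Real.sqrt_mul (by positivity), Real.sqrt_sq (by positivity)] at h4
  exact (le_abs_self _).trans h4

/-- **the mean length of the critical bridges** -/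
theorem meanLen_C (h : ZUpC) : ∃ C : ℝ, 0 ≤ C ∧ T2.MeanLen (4 / 3) C := by
  obtain ⟨C, hC⟩ := nf_up h
  obtain ⟨C', hC', h1⟩ := meanLen_of_NF hC
  refine ⟨C', hC', ?_⟩
  have e : (5 / 4 + 1 / 12 : ℝ) = 4 / 3 := by norm_num
  rwa [e] at h1

end Pool.Agent.VF
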