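import Pool.Agent.VF.XiFin2
import Pool.Agent.VF.SharpZ
import Pool.Agent.VF.MeanC
import Pool.Agent.VF.BLU
import Pool.Agent.VF.BLS
import Pool.Agent.NTA.TbM
import Pool.Agent.NTA.C1Z

/-!
# The correlation length up to constants, no hypothesis
-/

set_option autoImplicit false

open scoped ENNReal
open Filter Topology

namespace VF

open SawNu HexObs XI72

/-- the mean length of the bridges of height `T` is at most `C T ^ (4 / 3)` -/
theorem meanLen_M : ∃ C : ℝ, 0 < C ∧ HexObs.T2.MeanLen (4 / 3) C := by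
  obtain ⟨C, hC, h⟩ := Pool.Agent.VF.meanLen_C (zUpC_of sharpZ)
  refine ⟨C + 1, by linarith, fun T hT => (h T hT).trans ?_⟩
  refine mul_le_mul' (ENNReal.ofReal_le_ofReal ?_) le_rfl
  exact mul_le_mul_of_nonneg_right (by linarith) (by positivity)

/-- the cumulative weight of the bridges by the number of letters -/
theorem uup_M : Pool.Agent.VF.UUp := by
  obtain ⟨c, hc, h⟩ := mLow sharpZ
  exact Pool.Agent.VF.uup_of hc h (NTA.c1_mZ NTA.mlow_M NTA.mup_M NTA.tb_M)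

/-- the total weight of the bridges with few letters -/
theorem aShort_M : AShort := Pool.Agent.VF.as_of_hUp uup_M

open Classical in
/-- **the correlation length up to constants** -/
theorem xi_main {f : ℕ → Fin 3 → ℂ}
    (hf : ∀ i a, f i a = (-1 : ℂ) ^ i * Complex.exp (2 * (Real.pi : ℂ) * Complex.I * ((a : ℕ) : ℂ) / 3))
    {μ : ℝ} (hμ : μ = ⨅ n : {n : ℕ // 1 ≤ n}, (((saw f n.1).card : ℝ) ^ ((1 : ℝ) / (n.1 : ℝ))))
    {G : ℝ → ℂ → ℝ} (hG : ∀ z x, G z x = ∑' n : ℕ, (((saw f n).filter (fun s => pos f s n = x)).card : ℝ) * z ^ n)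
    {ξ : ℝ → ℝ} (hξ : ∀ z, ξ z = sInf (Adm (G z))) :
    ∃ c : ℝ, 0 < c ∧ ∀ᶠ z in 𝓝[<] (1 / μ),
      c * (1 / μ - z) ^ (-(3 / 4) : ℝ) ≤ ξ z ∧ ξ z ≤ c⁻¹ * (1 / μ - z) ^ (-(3 / 4) : ℝ) :=
  xi_fin2 meanLen_M aShort_M hf hμ hG hξ

end VF
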