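import Pool.Agent.VF.MeanC
import Pool.Agent.NUX.Br2

/-!
# Plan V, consequences: bridges by the number of letters, lower half with constants (helper7)

* `lo_UU_C` : if the mean number of letters of the bridges of height `T` is at most `C T ^ a` for every
  `T`, the critical weight of the bridges with at most `n` letters is at least `c n ^ (3 / (4 a))`;
* **`lo_UU_Z`** : from `ZUpC`: at least `c n ^ (9/16)`.
-/

set_option autoImplicit false

namespace Pool.Agent.VF

open Finset HexObs HexObs.T2 HexObs.BrL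

open scoped ENNReal

/-- **lower cumulative bound with constants** -/
theorem lo_UU_C {a C' : ℝ} (ha1 : 0 < a) (hM' : MeanLen a C') :
    ∃ c : ℝ, 0 < c ∧ ∀ n : ℕ, 1 ≤ n → c * (n : ℝ) ^ (3 / (4 * a)) ≤ NUX.UU ub n := by
  obtain ⟨x, hxa⟩ : ∃ x : ℝ, x = 3 / (4 * a) := ⟨_, rfl⟩
  have hx0 : 0 < x := by rw [hxa]; positivity
  obtain ⟨c, _, hc, _, hU⟩ := BAR.UU_two
  set C := max C' 1 with hC
  have hC1 : 1 ≤ C := le_max_right _ _
  have hMC : MeanLen a C := by
    intro T hT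
    refine (hM' T hT).trans (mul_le_mul' (ENNReal.ofReal_le_ofReal ?_) le_rfl)
    exact mul_le_mul_of_nonneg_right (le_max_left _ _) (by positivity)
  rw [← hxa]
  refine ⟨min (C ^ (-x)) (c / 2 * 2 ^ (-(3 / 4 : ℝ)) * C ^ (-x)), by positivity, fun n hn => ?_⟩
  have hnR : (1 : ℝ) ≤ n := by exact_mod_cast hn
  have hn0 : (0 : ℝ) < n := by linarith
  have hnC : (n : ℝ) ^ x * C ^ (-x) = (n / C) ^ x := by
    rw [Real.div_rpow hn0.le (by linarith), Real.rpow_neg (by linarith)]; rfl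
  by_cases hcase : (n : ℝ) < C
  · have h1 : (n / C : ℝ) ^ x ≤ 1 :=
      Real.rpow_le_one (by positivity) (by rw [div_le_one (by linarith)]; exact hcase.le) hx0.le
    have h2 := NUX.UU_pos ren n
    calc _ ≤ C ^ (-x) * (n : ℝ) ^ x := by gcongr; exact min_le_left _ _
      _ = (n / C) ^ x := by rw [← hnC]; ring
      _ ≤ _ := h1.trans h2
  · push Not at hcase
    have h1 : 1 ≤ (n : ℝ) / C := by rw [le_div_iff₀ (by linarith)]; linarith
    set X := ((n : ℝ) / C) ^ (1 / a) with hX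
    have hX1 : 1 ≤ X := Real.one_le_rpow h1 (by positivity)
    set T0 := ⌊X⌋₊ with hT0
    have hle : (T0 : ℝ) ≤ X := Nat.floor_le (by linarith)
    have hT1 : 1 ≤ T0 := Nat.le_floor (by simpa using hX1)
    have hge : X / 2 ≤ T0 := by
      have h2 := Nat.lt_floor_add_one X
      rw [← hT0] at h2
      have h3 : (1 : ℝ) ≤ T0 := by exact_mod_cast hT1
      linarith
    have h2 : C * (T0 : ℝ) ^ a ≤ n := by
      have h3 : (T0 : ℝ) ^ a ≤ n / C := by
        calc (T0 : ℝ) ^ a ≤ X ^ a := Real.rpow_le_rpow (by positivity) hle ha1.le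
          _ = n / C := by rw [hX, ← Real.rpow_mul (by positivity), one_div_mul_cancel ha1.ne', Real.rpow_one]
      rw [le_div_iff₀ (by linarith)] at h3
      linarith
    have h3 := UU_ge_half ha1 (by linarith) hMC hn h2
    have h4 := (hU T0 hT1).1
    have h5 : c * (2 ^ (-(3 / 4 : ℝ)) * (n / C) ^ x) ≤ HexObs.UU T0 := by
      refine le_trans (mul_le_mul_of_nonneg_left ?_ hc.le) h4
      calc (2 : ℝ) ^ (-(3 / 4 : ℝ)) * (n / C) ^ x = 2 ^ (-(3 / 4 : ℝ)) * X ^ (3 / 4 : ℝ) := by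
            rw [hX, ← Real.rpow_mul (by positivity), hxa]; congr 2; field_simp
        _ = (X / 2) ^ (3 / 4 : ℝ) := by
            rw [Real.div_rpow (by linarith) (by norm_num), Real.rpow_neg (by norm_num)]; field_simp
        _ ≤ _ := Real.rpow_le_rpow (by linarith) hge (by norm_num)
    calc _ ≤ c / 2 * 2 ^ (-(3 / 4 : ℝ)) * C ^ (-x) * (n : ℝ) ^ x := by gcongr; exact min_le_right _ _
      _ = c * (2 ^ (-(3 / 4 : ℝ)) * (n / C) ^ x) / 2 := by rw [← hnC]; ring
      _ ≤ _ := by linarith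

/-- the exponent `9/16` -/
theorem lo_UU_Z (h : ZUpC) : ∃ c : ℝ, 0 < c ∧ ∀ n : ℕ, 1 ≤ n →
    c * (n : ℝ) ^ (9 / 16 : ℝ) ≤ NUX.UU ub n := by
  obtain ⟨C, -, hM⟩ := meanLen_C h
  obtain ⟨c, hc, h1⟩ := lo_UU_C (by norm_num) hM
  refine ⟨c, hc, fun n hn => ?_⟩
  have e : (3 / (4 * (4 / 3)) : ℝ) = 9 / 16 := by norm_num
  have h2 := h1 n hn
  rwa [e] at h2

end Pool.Agent.VF
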