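import Pool.Agent.NTW.EqJ
import Pool.Agent.NTW.Dir
import Pool.Agent.NT.TallT
import Pool.Agent.T2.UpDefs
import Pool.Agent.BAR.ColE

/-!
# Self-avoiding words of a large extent: their weight is at most a power of the number of letters times the weight of the
tall bridges with few letters
-/

set_option autoImplicit false

open scoped ENNReal

namespace VF

open Finset HexObs HexObs.TS HexObs.SDN HexObs.NTW

/-- the bridges of height at least h0 with at most N letters -/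
def TBr (h0 N : ℕ) : Set (List Bool) := {g | (∃ T, h0 ≤ T ∧ g ∈ Brd T) ∧ g.length ≤ N}

open EX in
/-- the words of a large vertical range -/
theorem wide : ∃ K A B : ℝ, 1 ≤ K ∧ 1 ≤ A ∧ 0 ≤ B ∧ ∀ h0 N : ℕ, 1 ≤ h0 →
    gf {t | t ∈ SAL N ∧ ¬ Rng (3 * h0 + 8) t} ≤
      ENNReal.ofReal (K * (1 + A * ((N : ℝ) + 1) ^ B) ^ 2) * gf (TBr h0 N) := by
  classical
  obtain ⟨Kc, hKc, hC⟩ := coverTwoR
  obtain ⟨A, B, hA, hB, hH⟩ := BAR.HH_poly
  refine ⟨Kc, A, B, hKc, hA, hB, fun h0 N hh0 => ?_⟩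
  obtain ⟨S, hS⟩ : ∃ S : Set (List Bool), S = TBr h0 N := ⟨_, rfl⟩
  obtain ⟨x, hx⟩ : ∃ x : ℝ, x = 1 + A * ((N : ℝ) + 1) ^ B := ⟨_, rfl⟩
  have hx0 : 0 ≤ x := by rw [hx]; positivity
  have hend : ∀ g : List Bool, EE0 (N + 1) N g ≤ ENNReal.ofReal x := by
    intro g
    unfold EE0
    have h1 : gf {W | W ∈ SSt (N + 1) ∧ LFold g W ∧ g.length + W.length ≤ N + 20} ≤ BAR.HH (N + 1) :=
      gf_mono fun W hW => hW.1
    have h2 := hH (N + 1) (by omega)
    rw [hx, ENNReal.ofReal_add (by norm_num) (by positivity), ENNReal.ofReal_one]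
    refine add_le_add le_rfl (h1.trans (h2.trans (le_of_eq ?_)))
    push_cast
    rfl
  have h1 := hC {t | t ∈ SAL N ∧ ¬ Rng (3 * h0 + 8) t} (N + 1) (N + 1) N (fun gs => ∃ g ∈ S, gs = [g]) ?_
  · refine h1.trans ?_
    have h3 : (∑' gs : List (List Bool), if gs ≠ [] ∧ gs.IsChain LFold ∧ (∀ g ∈ gs, ∃ k : ℕ, 1 ≤ k ∧ g ∈ Brd k) ∧
        (∃ g ∈ S, gs = [g]) then SDN.wl gs * (EE0 (N + 1) N (rev (gs.headD [])) *
          EE0 (N + 1) N (gs.getLastD [])) else 0) ≤ Rec8.sw S (fun _ => ENNReal.ofReal x * ENNReal.ofReal x) := by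
      refine tsum_one S _ _ fun gs => ?_
      split_ifs with hgs
      swap
      · exact Or.inl rfl
      obtain ⟨-, -, -, g, hg, rfl⟩ := hgs
      refine Or.inr ⟨g, hg, rfl, ?_⟩
      have h4 : SDN.wl [g] = wE g := by
        unfold SDN.wl
        simp
      show SDN.wl [g] * (EE0 (N + 1) N (rev g) * EE0 (N + 1) N g) ≤ wE g * (ENNReal.ofReal x * ENNReal.ofReal x)
      rw [h4]
      exact mul_le_mul_right (mul_le_mul' (hend _) (hend _)) _
    refine (mul_le_mul_right h3 _).trans (le_of_eq ?_)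
    have h5 : Rec8.sw S (fun _ => ENNReal.ofReal x * ENNReal.ofReal x) = gf S * (ENNReal.ofReal x * ENNReal.ofReal x) := by
      rw [← Rec8.sw_one, ← Rec8.sw_mul_right]
      simp only [one_mul]
    rw [h5, ← hx, ← hS, ENNReal.ofReal_mul (by linarith), pow_two, ENNReal.ofReal_mul hx0]
    ring
  · rintro t ⟨ht, hr2⟩
    refine ⟨ht, ?_⟩
    obtain ⟨i1, i2, hi1, hi2, hr3⟩ : ∃ i1 i2, i1 ≤ t.length ∧ i2 ≤ t.length ∧ 3 * (h0 : ℤ) + 8 < lev t i1 - lev t i2 := by
      unfold Rng at hr2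
      push Not at hr2
      obtain ⟨i1, i2, a, b, c⟩ := hr2
      exact ⟨i1, i2, a, b, c⟩
    obtain ⟨u, e, hF, hb⟩ := pivotEx t ht.1 ⟨i1, i2, hi1, hi2, by omega⟩
    have he1 : e 1 ≤ t.length := hF.le
    have he0 : e 0 ≤ t.length := ((hF.lt 0 (by omega)).le).trans he1
    have hlen : t.length ≤ N := ht.2
    -- the range of t
    have hlv : ∀ i j, i ≤ j → j ≤ t.length → |lev t j - lev t i| ≤ 2 * (N : ℤ) := by
      intro i j hij hj
      refine (near2 t hij (j - i) (by omega)).trans ?_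
      have h4 : ((j - i : ℕ) : ℤ) ≤ N := by exact_mod_cast (by omega : j - i ≤ N)
      linarith
    have hrange : ∀ i j, i ≤ t.length → j ≤ t.length → Tight.sg u (lev t i) - Tight.sg u (lev t j) ≤ 3 * ((N + 1 : ℕ) : ℤ) := by
      intro i j hi hj
      have h3 := sg_abs u (lev t i - lev t j)
      rw [sg_sub] at h3
      have h6 : |lev t i - lev t j| ≤ 2 * (N : ℤ) := by
        rcases le_total i j with h | h
        · rw [abs_sub_comm]
          exact hlv i j h hj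
        · exact hlv j i h hi
      have h7 := le_abs_self (Tight.sg u (lev t i) - Tight.sg u (lev t j))
      push_cast
      linarith
    -- the height of the pivot
    obtain ⟨Δ, hΔ⟩ : ∃ Δ, Δ = Tight.sg u (lev t (e 1)) - Tight.sg u (lev t (e 0)) := ⟨_, rfl⟩
    have hΔ2 : 3 * (h0 : ℤ) + 8 < Δ := by
      rw [hΔ]
      have h3 := hb i1 hi1
      have h4 := hb i2 hi2
      have h5 : lev t i1 - lev t i2 ≤ |Tight.sg u (lev t i1) - Tight.sg u (lev t i2)| := by
        rw [← sg_sub, sg_abs]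
        exact le_abs_self _
      rcases abs_cases (Tight.sg u (lev t i1) - Tight.sg u (lev t i2)) with h6 | h6
      · omega
      · omega
    refine ⟨1, u, e, le_rfl, hF, fun a ha => hrange a (e 0) (by omega) he0, fun a ha1 ha2 => hrange (e 1) a he1 ha2,
      fun gs hgs => ?_⟩
    obtain ⟨g, h, h3, h4, h5⟩ := pivot_hgt hgs
    refine ⟨g, ?_, h3⟩
    rw [hS]
    rw [← hΔ, abs_le] at h5
    refine ⟨⟨h, by omega, h4⟩, ?_⟩
    obtain ⟨s, s1, s2, s3, s4, s5⟩ := hgs.pos 0 (by rw [h3]; simp)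
    have h6 : gs[0]'(by rw [h3]; simp) = g := by simp [h3]
    rw [h6] at s3
    have h7 : e (0 + 1) ≤ t.length := he1
    omega

/-- the words that leave the box -/
theorem ext_wide : ∃ K : ℝ, 1 ≤ K ∧ ∀ L N : ℕ, 4 ≤ L →
    gf {t | t ∈ SAL N ∧ T2.Ext L t} ≤ ENNReal.ofReal K * gf {t | t ∈ SAL N ∧ ¬ Rng (3 * (2 ^ (L - 1) : ℕ) + 8) t} := by
  obtain ⟨K, hK, hdir⟩ := dirRed
  refine ⟨1 + K, by linarith, fun L N hL => ?_⟩
  obtain ⟨F, hF⟩ : ∃ F : Set (List Bool), F = {t | ¬ Rng (3 * (2 ^ (L - 1) : ℕ) + 8) t} := ⟨_, rfl⟩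
  have hp : (2 : ℤ) ^ L = 2 * 2 ^ (L - 1) := by
    rw [← pow_succ']
    congr 1
    omega
  have hp8 : (8 : ℤ) ≤ 2 ^ (L - 1) := by
    calc (8 : ℤ) = 2 ^ 3 := by norm_num
      _ ≤ 2 ^ (L - 1) := pow_le_pow_right₀ (by norm_num) (by omega)
  -- the two directions
  have hsub : {t | t ∈ SAL N ∧ T2.Ext L t} ⊆ {t | t ∈ SAL N ∧ t ∈ F} ∪
      {t | t ∈ SAL N ∧ t ∈ {t | ∃ i, i ≤ t.length ∧ 3 * (2 : ℤ) ^ L - 2 ≤ |lvl true (vx oo up t i)|}} := by
    rintro t ⟨ht, i, hi, dir, hd⟩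
    have hl : ∀ x : ℤ, (2 : ℤ) ^ L ≤ |x / 3| → 3 * (2 : ℤ) ^ L - 2 ≤ |x| := by
      intro x hx
      rcases abs_cases (x / 3) with h | h <;> rcases abs_cases x with h' | h' <;> omega
    cases dir
    · left
      refine ⟨ht, ?_⟩
      rw [hF]
      intro hR
      have h1 := hl (lvl false (vx oo up t i)) hd
      have h2 : lvl false (vx oo up t i) = lev t i := lvl_false t i
      rw [h2] at h1
      have h3 := hR i 0 hi (Nat.zero_le _)
      have h4 := hR 0 i (Nat.zero_le _) hi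
      rw [lev_zero] at h3 h4
      push_cast at h3 h4
      rcases abs_cases (lev t i) with h | h <;> omega
    · right
      exact ⟨ht, i, hi, hl _ hd⟩
  refine (gf_mono hsub).trans ((gf_union_le _ _).trans ?_)
  have h1 := hdir N {t | ∃ i, i ≤ t.length ∧ 3 * (2 : ℤ) ^ L - 2 ≤ |lvl true (vx oo up t i)|} F (by
    rintro q t sg _ hq hsg h1 h2 ⟨i, hi, hi3⟩
    rw [hF]
    intro hR
    have c2 : lvl true (vx oo up t 0) = 0 := by
      show ip oo (hd true) = 0
      decide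
    have c3 := h1 0 (Nat.zero_le _)
    rw [c2, zero_sub, abs_neg] at c3
    rcases Nat.lt_or_ge i q with hiq | hiq
    · have c4 := h1 i hiq.le
      rw [abs_le] at c3 c4
      rcases abs_cases (lvl true (vx oo up t i)) with h | h <;> omega
    · obtain ⟨i', rfl⟩ := Nat.exists_eq_add_of_le hiq
      have c4 := h2 i' hi
      have c5 : |lvl true (vx oo up t (q + i')) - lvl true (vx oo up t q)| = |lev (t.drop q) i'| := by
        rw [c4, abs_mul]
        rcases hsg with rfl | rfl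
        · rw [abs_one, one_mul]
          rfl
        · rw [abs_neg, abs_one, one_mul]
          rfl
      have hlen : i' ≤ (t.drop q).length := by
        rw [List.length_drop]
        omega
      have h3 := hR i' 0 hlen (Nat.zero_le _)
      have h4 := hR 0 i' (Nat.zero_le _) hlen
      rw [lev_zero] at h3 h4
      push_cast at h3 h4
      rw [abs_le] at c3
      rcases abs_cases (lvl true (vx oo up t (q + i'))) with h | h <;>
        rcases abs_cases (lev (t.drop q) i') with h' | h' <;>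
        rcases abs_cases (lvl true (vx oo up t (q + i')) - lvl true (vx oo up t q)) with h'' | h'' <;> omega)
  rw [ENNReal.ofReal_add (by norm_num) (by linarith), ENNReal.ofReal_one, add_mul, one_mul]
  subst hF
  exact add_le_add le_rfl h1

/-- **the words that leave the box of radius 2 ^ L** -/
theorem ext_le : ∃ K A B : ℝ, 1 ≤ K ∧ 1 ≤ A ∧ 0 ≤ B ∧ ∀ L N : ℕ, 4 ≤ L →
    gf {t | t ∈ SAL N ∧ T2.Ext L t} ≤
      ENNReal.ofReal (K * (1 + A * ((N : ℝ) + 1) ^ B) ^ 2) * gf (TBr (2 ^ (L - 1)) N) := by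
  obtain ⟨K, A, B, hK, hA, hB, h⟩ := wide
  obtain ⟨K', hK', h'⟩ := ext_wide
  refine ⟨K' * K, A, B, one_le_mul_of_one_le_of_one_le hK' hK, hA, hB, fun L N hL => (h' L N hL).trans ?_⟩
  refine (mul_le_mul_right (h (2 ^ (L - 1)) N Nat.one_le_two_pow) _).trans (le_of_eq ?_)
  rw [← mul_assoc, ← ENNReal.ofReal_mul (by linarith), mul_assoc]

/-- tall bridges with few letters -/
theorem TBr_tall {kc s b H L N : ℕ} {lam : ℝ} (hH : 2 * H * 2 ^ (kc + s) ≤ 2 ^ (L - 1)) (hN : (b : ℝ) * N ≤ H * lam) :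
    TBr (2 ^ (L - 1)) N ⊆ NTm.TT (kc + s) H b lam := by
  rintro g ⟨⟨T, hT, hg⟩, hl⟩
  refine ⟨T, hH.trans hT, hg, le_trans ?_ hN⟩
  have : (g.length : ℝ) ≤ N := by exact_mod_cast hl
  exact mul_le_mul_of_nonneg_left this (Nat.cast_nonneg _)

end VF
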