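import Pool.Agent.VF.BLC
import Pool.Agent.NUX.HandB3

/-!
Bridges of the honeycomb lattice by the number of sites, with constants (helper51).
-/

set_option autoImplicit false

namespace Pool.Agent.VF

open Finset HexObs HexObs.BrL

open scoped ENNReal

/-- **bridges by the number of sites, with constants** -/
theorem mainC (h1 : UUC) (h2 : UUp) : ∃ C : ℝ, 0 < C ∧ ∀ n : ℕ, 2 ≤ n →
      (Even n → C⁻¹ * (n : ℝ) ^ (-(7 / 16) : ℝ) * mu ^ n ≤ (bN n : ℝ)) ∧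
      (bN n : ℝ) ≤ C * (n : ℝ) ^ (-(7 / 16) : ℝ) * mu ^ n ∧
      C⁻¹ * (n : ℝ) ^ (9 / 16 : ℝ) ≤ ∑ k ∈ range (n + 1), (bN k : ℝ) / mu ^ k ∧
      ∑ k ∈ range (n + 1), (bN k : ℝ) / mu ^ k ≤ C * (n : ℝ) ^ (9 / 16 : ℝ) ∧
      C⁻¹ * (n : ℝ) ^ (-(9 / 16) : ℝ) ≤ 1 - ∑ k ∈ range (n + 1), (iN k : ℝ) / mu ^ k ∧
      1 - ∑ k ∈ range (n + 1), (iN k : ℝ) / mu ^ k ≤ C * (n : ℝ) ^ (-(9 / 16) : ℝ) := by
  obtain ⟨c0, C1, hc0, hC1, hb⟩ := ub_C h1 h2
  obtain ⟨c5, C4, hc5, hC4, hF⟩ := Fb_CC h1 h2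
  obtain ⟨c3, hc3, h3⟩ := h1
  obtain ⟨C2, hC2, h2⟩ := h2
  have hmu := mu_pos
  have hu1 : 0 < ub 1 := by
    have h1 := ren.urec 0
    simp only [zero_add, range_one, sum_singleton, ren.u0, one_mul] at h1
    have h2 := ren.f1
    have h3 : ub 1 = fb 1 := by simpa using h1
    rw [h3]; exact h2
  set κ := ub 1 / (1 + ub 1) with hκ
  have hκ0 : 0 < κ := by positivity
  set C := 9 / c0 + 9 * C1 + 9 * C2 + 9 / (κ * c3) + 9 * C4 + 9 / c5 with hC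
  have hCpos : 0 < C := by positivity
  have p0 : 0 < 9 / c0 := by positivity
  have p1 : 0 < 9 * C1 := by positivity
  have p2 : 0 < 9 * C2 := by positivity
  have p3 : 0 < 9 / (κ * c3) := by positivity
  have p4 : 0 < 9 * C4 := by positivity
  have p5 : 0 < 9 / c5 := by positivity
  have inv_le : ∀ a : ℝ, 0 < a → a ≤ C → C⁻¹ ≤ a⁻¹ := fun a ha h => inv_anti₀ ha h
  refine ⟨C, hCpos, fun n hn => ?_⟩
  have hnR : (1 : ℝ) ≤ n := by exact_mod_cast (by omega : 1 ≤ n)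
  have hn0 : (0 : ℝ) < n := by linarith
  have hm1 : 1 ≤ n / 2 := by omega
  set m := n / 2 with hm
  have hmR : (1 : ℝ) ≤ m := by exact_mod_cast hm1
  have hp7 := half_pow hn (-(7 / 16)) (by rw [abs_le]; constructor <;> linarith)
  have hp9 := half_pow hn (9 / 16) (by rw [abs_le]; constructor <;> linarith)
  have hq9 := half_pow hn (-(9 / 16)) (by rw [abs_le]; constructor <;> linarith)
  refine ⟨?_, ?_, ?_, ?_, ?_, ?_⟩
  · rintro ⟨j, hj⟩
    have e : n = 2 * m := by omega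
    have hb' : (bN n : ℝ) = ub m * mu ^ n := by
      rw [← bN_mu hm1, ← e]; field_simp
    rw [hb']
    apply mul_le_mul_of_nonneg_right _ (by positivity)
    refine le_trans ?_ (hb m hm1).1
    calc C⁻¹ * (n : ℝ) ^ (-(7 / 16) : ℝ) ≤ (9 / c0)⁻¹ * (n : ℝ) ^ (-(7 / 16) : ℝ) :=
          mul_le_mul_of_nonneg_right (inv_le _ p0 (by rw [hC]; linarith)) (by positivity)
      _ = c0 * ((n : ℝ) ^ (-(7 / 16) : ℝ) / 9) := by field_simp
      _ ≤ _ := mul_le_mul_of_nonneg_left hp7.1 hc0.le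
  · rcases Nat.even_or_odd n with ⟨j, hj⟩ | ho
    · have e : n = 2 * m := by omega
      have hb' : (bN n : ℝ) = ub m * mu ^ n := by
        rw [← bN_mu hm1, ← e]; field_simp
      rw [hb']
      apply mul_le_mul_of_nonneg_right _ (by positivity)
      refine (hb m hm1).2.trans ?_
      calc C1 * (m : ℝ) ^ (-(7 / 16) : ℝ) ≤ C1 * (9 * (n : ℝ) ^ (-(7 / 16) : ℝ)) :=
            mul_le_mul_of_nonneg_left hp7.2 hC1.le
        _ = (9 * C1) * (n : ℝ) ^ (-(7 / 16) : ℝ) := by ring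
        _ ≤ _ := mul_le_mul_of_nonneg_right (by rw [hC]; linarith) (by positivity)
    · rw [bN_odd (Nat.not_even_iff_odd.2 ho)]
      simp only [Nat.cast_zero]
      positivity
  · rw [sum_bN]
    have h8 := h3 m hm1
    have hU : 1 + ub 1 ≤ NUX.UU ub m := by
      have h10 := NUX.UU_mono ren hm1
      have e : NUX.UU ub 1 = 1 + ub 1 := by
        unfold NUX.UU
        rw [sum_range_succ, sum_range_one, ren.u0]
      rw [e] at h10
      exact h10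
    have hκU : κ * NUX.UU ub m ≤ NUX.UU ub m - 1 := by
      rw [hκ, div_mul_eq_mul_div, div_le_iff₀ (by linarith)]
      nlinarith
    refine le_trans ?_ hκU
    calc C⁻¹ * (n : ℝ) ^ (9 / 16 : ℝ) ≤ (9 / (κ * c3))⁻¹ * (n : ℝ) ^ (9 / 16 : ℝ) :=
          mul_le_mul_of_nonneg_right (inv_le _ p3 (by rw [hC]; linarith)) (by positivity)
      _ = κ * (c3 * ((n : ℝ) ^ (9 / 16 : ℝ) / 9)) := by field_simp
      _ ≤ κ * (c3 * (m : ℝ) ^ (9 / 16 : ℝ)) := by gcongr; exact hp9.1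
      _ ≤ _ := mul_le_mul_of_nonneg_left h8 hκ0.le
  · rw [sum_bN]
    have h8 := h2 m hm1
    calc NUX.UU ub m - 1 ≤ C2 * (m : ℝ) ^ (9 / 16 : ℝ) := by linarith
      _ ≤ C2 * (9 * (n : ℝ) ^ (9 / 16 : ℝ)) := mul_le_mul_of_nonneg_left hp9.2 hC2.le
      _ = (9 * C2) * (n : ℝ) ^ (9 / 16 : ℝ) := by ring
      _ ≤ _ := mul_le_mul_of_nonneg_right (by rw [hC]; linarith) (by positivity)
  · rw [sum_iN]
    refine le_trans ?_ (hF m hm1).1
    calc C⁻¹ * (n : ℝ) ^ (-(9 / 16) : ℝ) ≤ (9 / c5)⁻¹ * (n : ℝ) ^ (-(9 / 16) : ℝ) :=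
          mul_le_mul_of_nonneg_right (inv_le _ p5 (by rw [hC]; linarith)) (by positivity)
      _ = c5 * ((n : ℝ) ^ (-(9 / 16) : ℝ) / 9) := by field_simp
      _ ≤ _ := mul_le_mul_of_nonneg_left hq9.1 hc5.le
  · rw [sum_iN]
    refine (hF m hm1).2.trans ?_
    calc C4 * (m : ℝ) ^ (-(9 / 16) : ℝ) ≤ C4 * (9 * (n : ℝ) ^ (-(9 / 16) : ℝ)) :=
          mul_le_mul_of_nonneg_left hq9.2 hC4.le
      _ = (9 * C4) * (n : ℝ) ^ (-(9 / 16) : ℝ) := by ring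
      _ ≤ _ := mul_le_mul_of_nonneg_right (by rw [hC]; linarith) (by positivity)

end Pool.Agent.VF
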