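import Pool.Agent.E2.FinV
import Pool.Agent.NUX.HandB3

/-!
The number of rows of the bridges with `n` sites is of the order `n ^ (3 / 4)` (helper51).
-/

set_option autoImplicit false

namespace Pool.Agent.VF

open Finset HexObs HexObs.BrL HexObs.E2 NTm SDN

open HexObs.TS hiding mu

open scoped ENNReal

private lemma lev_le2 (t : List Bool) (i : ℕ) : lev t i ≤ 2 * i := by
  induction i with
  | zero =>
    rw [lev_zero]
    norm_num
  | succ i ih =>
    rw [lev_succ]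
    have h1 : ∀ d ∈ dirs, ip d up ≤ 2 := by decide
    have h2 := h1 _ (dx_mem upd t i)
    push_cast
    linarith

private lemma brd_le {n : ℕ} {u : List Bool} (h : u ∈ Brd n) : n ≤ u.length := by
  have h1 := (mem_Brd.1 h).2.2.2
  have h2 := lev_le2 u u.length
  omega

/-- the rows of the bridges with `n` letters, `n` even and large -/
theorem rows_even (h : E2F.InV) : ∀ δ : ℝ, 0 < δ → ∃ (K0 : ℝ) (n0 : ℕ), 0 < K0 ∧ ∀ K : ℝ, K0 ≤ K → ∀ n, n0 ≤ n → Even n →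
    gf (WO n ((n : ℝ) ^ (3 / 4 : ℝ) / K) (K * (n : ℝ) ^ (3 / 4 : ℝ))) ≤ ENNReal.ofReal δ * gf (BW n) := by
  intro δ hδ
  obtain ⟨c, C, hR⟩ := reg_of (by norm_num) (by norm_num) (indB2_of h.lo h.up)
  obtain ⟨Cl, hCl, hS⟩ := scaleE_of h.mean h.up
  obtain ⟨D, m1, hD, hm1, hsc⟩ := scale_facts hS hR
  obtain ⟨Kt, nt, hKt, htail⟩ := tail_fin hS hR
  obtain ⟨κ, nh, hκ, hhgt⟩ := hgt_fin hS hR (δ / 2) (by positivity)
  obtain ⟨i, hi⟩ : ∃ i : ℕ, Kt / 2 ^ (12 * i) ≤ δ / 2 := by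
    obtain ⟨i, hi⟩ := pow_unbounded_of_one_lt (Kt / (δ / 2)) (by norm_num : (1 : ℝ) < 2 ^ 12)
    refine ⟨i, ?_⟩
    rw [pow_mul, div_le_iff₀ (by positivity), mul_comm]
    exact ((div_lt_iff₀ (by positivity)).1 hi).le
  obtain ⟨u, hu⟩ : ∃ u : ℝ, u = (3 / (2 * Cl)) ^ (3 / 4 : ℝ) := ⟨_, rfl⟩
  obtain ⟨v, hv⟩ : ∃ v : ℝ, v = (D / Cl) ^ (3 / 4 : ℝ) := ⟨_, rfl⟩
  have hu0 : 0 < u := by rw [hu]; positivity
  have hv0 : 0 < v := by rw [hv]; positivity
  refine ⟨3 / (κ * u) + 2 ^ i * v, max (max m1 nt) (max nh 1), by positivity, fun K hK n hn he => ?_⟩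
  have g1 : m1 ≤ n := (le_max_left _ _).trans ((le_max_left _ _).trans hn)
  have g2 : nt ≤ n := (le_max_right _ _).trans ((le_max_left _ _).trans hn)
  have g3 : nh ≤ n := (le_max_left _ _).trans ((le_max_right _ _).trans hn)
  have g4 : 1 ≤ n := (le_max_right _ _).trans ((le_max_right _ _).trans hn)
  obtain ⟨s1, s2, -, -⟩ := hsc n g1
  have s3 := Lf_spec hS n
  obtain ⟨L, hL⟩ : ∃ L, L = Lf (lV Cl) n := ⟨_, rfl⟩
  have t1 := htail n g2 he i
  have t2 := hhgt n g3 he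
  rw [← hL] at s1 s2 s3 t1 t2
  have s3' : 3 * (n : ℝ) ≤ lV Cl L := by exact_mod_cast s3
  have l1 := lV_lo Cl L
  have l2 := lV_hi hCl L
  have hn0' : (0 : ℝ) ≤ n := Nat.cast_nonneg n
  have hnp : (0 : ℝ) < (n : ℝ) ^ (3 / 4 : ℝ) := by
    have : (0 : ℝ) < n := by exact_mod_cast g4
    positivity
  have e1 : ((2 : ℝ) ^ ((4 / 3 : ℝ) * L)) ^ (3 / 4 : ℝ) = 2 ^ L := by
    rw [← Real.rpow_mul (by norm_num), ← Real.rpow_natCast]
    congr 1
    ring
  have z1 : u * (n : ℝ) ^ (3 / 4 : ℝ) ≤ 2 ^ L := by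
    rw [hu, ← Real.mul_rpow (by positivity) hn0', ← e1]
    have : 3 / (2 * Cl) * (n : ℝ) ≤ (2 : ℝ) ^ ((4 / 3 : ℝ) * L) := by
      rw [div_mul_eq_mul_div, div_le_iff₀ (by positivity)]
      linarith
    gcongr
  have z2 : (2 : ℝ) ^ L ≤ v * (n : ℝ) ^ (3 / 4 : ℝ) := by
    rw [hv, ← Real.mul_rpow (by positivity) hn0', ← e1]
    have : (2 : ℝ) ^ ((4 / 3 : ℝ) * L) ≤ D / Cl * n := by
      have h0 : D / Cl * (n : ℝ) = D * n / Cl := by ring
      rw [h0, le_div_iff₀ (by positivity)]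
      linarith
    gcongr
  have hK1 : 3 / (κ * u) ≤ K := by
    have : 0 < 2 ^ i * v := by positivity
    linarith
  have hK2 : 2 ^ i * v ≤ K := by
    have : 0 < 3 / (κ * u) := by positivity
    linarith
  have hK0 : 0 < K := lt_of_lt_of_le (by positivity) hK1
  have hsub : WO n ((n : ℝ) ^ (3 / 4 : ℝ) / K) (K * (n : ℝ) ^ (3 / 4 : ℝ)) ⊆
      {t | t ∈ BW n ∧ (lev t n : ℝ) ≤ κ * 2 ^ L} ∪
      {t | t ∈ BW n ∧ ∃ dir : Bool, (2 : ℝ) ^ i * 2 ^ L ≤ |((lvl dir (vx oo up t n) : ℤ) : ℝ)|} := by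
    rintro t ⟨hl, j, hj, hj1, h4⟩
    have hlev : lev t n = 3 * j := by
      rw [← hl]
      exact (mem_Brd.1 hj).2.2.2
    have hBW : t ∈ BW n := ⟨⟨j, hj⟩, hl⟩
    rcases h4 with h4 | h4
    · left
      refine ⟨hBW, ?_⟩
      rw [hlev]
      push_cast
      have h5 : (j : ℝ) * K ≤ (n : ℝ) ^ (3 / 4 : ℝ) := by
        rw [lt_div_iff₀ hK0] at h4
        exact h4.le
      have h6 : 3 ≤ K * (κ * u) := by
        rwa [div_le_iff₀ (by positivity)] at hK1
      have hj0 : (0 : ℝ) ≤ j := Nat.cast_nonneg j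
      have h7 : 3 * (j : ℝ) ≤ j * (K * (κ * u)) := by nlinarith
      have h8 : (j : ℝ) * K * (κ * u) ≤ (n : ℝ) ^ (3 / 4 : ℝ) * (κ * u) := by gcongr
      have h9 : κ * (u * (n : ℝ) ^ (3 / 4 : ℝ)) ≤ κ * 2 ^ L := by gcongr
      nlinarith
    · right
      refine ⟨hBW, false, ?_⟩
      have h5 : lvl false (vx oo up t n) = lev t n := rfl
      rw [h5, hlev]
      push_cast
      rw [abs_of_nonneg (by positivity)]
      have hj0 : (0 : ℝ) ≤ j := Nat.cast_nonneg j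
      calc (2 : ℝ) ^ i * 2 ^ L ≤ 2 ^ i * (v * (n : ℝ) ^ (3 / 4 : ℝ)) := by gcongr
        _ = 2 ^ i * v * (n : ℝ) ^ (3 / 4 : ℝ) := by ring
        _ ≤ K * (n : ℝ) ^ (3 / 4 : ℝ) := by gcongr
        _ ≤ j := h4.le
        _ ≤ _ := by linarith
  refine (gf_mono hsub).trans ((gf_union_le _ _).trans ((add_le_add t2 t1).trans ?_))
  rw [← add_mul, ← ENNReal.ofReal_add (by positivity) (by positivity)]
  refine mul_le_mul' (ENNReal.ofReal_le_ofReal ?_) le_rfl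
  linarith

/-- **the number of rows of the bridges with `n` sites is of the order `n ^ (3 / 4)`** -/
theorem rows_tight (h : E2F.InV) : ∀ δ : ℝ, 0 < δ → ∃ K : ℝ, 0 < K ∧ ∀ n : ℕ, 1 ≤ n →
    (oN n ((n : ℝ) ^ (3 / 4 : ℝ) / K) (K * (n : ℝ) ^ (3 / 4 : ℝ)) : ℝ) ≤ δ * (bN n : ℝ) := by
  intro δ hδ
  obtain ⟨K0, n0, hK0, h1⟩ := rows_even h δ hδ
  have hmu := mu_pos
  refine ⟨K0 + n0 + 1, by positivity, fun n hn => ?_⟩
  set K : ℝ := K0 + n0 + 1 with hK
  have hnR : (1 : ℝ) ≤ n := by exact_mod_cast hn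
  have hKp : 0 < K := by positivity
  have hw := oN_weight hn ((n : ℝ) ^ (3 / 4 : ℝ) / K) (K * (n : ℝ) ^ (3 / 4 : ℝ))
  rcases Nat.even_or_odd n with he | ho
  · obtain ⟨m, hm⟩ := he
    have e : n = 2 * m := by omega
    have hm1 : 1 ≤ m := by omega
    have hb : (bN n : ℝ) / mu ^ n = (gf (BW n)).toReal := by
      rw [e, bN_mu hm1]
      rfl
    have key : (oN n ((n : ℝ) ^ (3 / 4 : ℝ) / K) (K * (n : ℝ) ^ (3 / 4 : ℝ)) : ℝ) / mu ^ n ≤
        δ * ((bN n : ℝ) / mu ^ n) := by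
      rw [hw, hb]
      rcases Nat.lt_or_ge n n0 with hlt | hge
      · have e2 : WO n ((n : ℝ) ^ (3 / 4 : ℝ) / K) (K * (n : ℝ) ^ (3 / 4 : ℝ)) = ∅ := by
          ext t
          simp only [Set.mem_empty_iff_false, iff_false]
          rintro ⟨hl, j, hj, hj1, h4⟩
          have h5 := brd_le hj
          rw [hl] at h5
          have h6 : (1 : ℝ) ≤ j := by exact_mod_cast hj1
          have h7 : (j : ℝ) ≤ n := by exact_mod_cast h5
          have h8 : (n : ℝ) < K := by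
            have : (n : ℝ) ≤ n0 := by exact_mod_cast hlt.le
            rw [hK]; linarith
          rcases h4 with h4 | h4
          · rw [lt_div_iff₀ hKp] at h4
            have h9 : (n : ℝ) ^ (3 / 4 : ℝ) ≤ n := by
              calc (n : ℝ) ^ (3 / 4 : ℝ) ≤ (n : ℝ) ^ (1 : ℝ) := Real.rpow_le_rpow_of_exponent_le hnR (by norm_num)
                _ = n := Real.rpow_one _
            nlinarith
          · have h9 : (1 : ℝ) ≤ (n : ℝ) ^ (3 / 4 : ℝ) := Real.one_le_rpow hnR (by norm_num)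
            nlinarith
        have e3 : gf (∅ : Set (List Bool)) = 0 := by unfold gf; exact tsum_empty
        rw [e2, e3, ENNReal.toReal_zero]
        exact mul_nonneg hδ.le ENNReal.toReal_nonneg
      · have h2 := h1 K (by rw [hK]; have : (0 : ℝ) ≤ n0 := Nat.cast_nonneg _; linarith) n hge ⟨m, hm⟩
        have hne : gf (BW n) ≠ ∞ := BW_ne_top n
        have h3 := ENNReal.toReal_mono (ENNReal.mul_ne_top ENNReal.ofReal_ne_top hne) h2
        rwa [ENNReal.toReal_mul, ENNReal.toReal_ofReal hδ.le] at h3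
    have hp : 0 < mu ^ n := by positivity
    rw [← mul_div_assoc] at key
    exact (div_le_div_iff_of_pos_right hp).1 key
  · have e : WO n ((n : ℝ) ^ (3 / 4 : ℝ) / K) (K * (n : ℝ) ^ (3 / 4 : ℝ)) = ∅ := by
      ext t
      simp only [Set.mem_empty_iff_false, iff_false]
      rintro ⟨hl, j, hj, hj1, h4⟩
      exact (Nat.not_even_iff_odd.2 ho) (hl ▸ even_length hj)
    have e3 : gf (∅ : Set (List Bool)) = 0 := by unfold gf; exact tsum_empty
    rw [e, e3, ENNReal.toReal_zero, div_eq_zero_iff] at hw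
    rcases hw with hw | hw
    · rw [hw]
      positivity
    · exact absurd hw (by positivity)

end Pool.Agent.VF
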