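import Pool.Agent.NUX.Br3
import Pool.Agent.VF.RenC

/-!
# VF/IrrC: the irreducible bridges, with constants (helper51)

* `Fb_C`, `mm_C` : from `U(n) ≥ c n^(9/16)`: the mass of the irreducible bridges with more than `2 n` letters is at
  most `C n^(-9/16)`, the truncated mean at most `C n^(7/16)`;
* `ml_eq` : the letters of the bridges = (bridges) * (letters of the irreducible bridges) * (bridges), exactly;
* `irrLen_up`, `irrLen_lo` : the mean number of letters of the irreducible bridges of height at most `T` is of order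
  `T^(7/12)`, from the mean length of the bridges.
-/

set_option autoImplicit false

namespace Pool.Agent.VF

open HexObs HexObs.BrL Finset

open scoped ENNReal

/-! ### letters -/

/-- the renewal function of the bridges by letters, from below -/
def UUC : Prop := ∃ c : ℝ, 0 < c ∧ ∀ n : ℕ, 1 ≤ n → c * (n : ℝ) ^ (9 / 16 : ℝ) ≤ NUX.UU ub n

theorem mm_C (h : UUC) : ∃ C : ℝ, 0 < C ∧ ∀ n : ℕ, 1 ≤ n → NUX.mm fb n ≤ C * (n : ℝ) ^ (7 / 16 : ℝ) := by
  obtain ⟨c, hc, h1⟩ := h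
  refine ⟨3 / c, by positivity, fun n hn => ?_⟩
  have hnR : (1 : ℝ) ≤ n := by exact_mod_cast hn
  have hn0 : (0 : ℝ) < n := by linarith
  have h2 := NUX.UM_upper ren n
  have h3 := NUX.mm_mono ren (Nat.le_succ n)
  have h4 := NUX.mm_nonneg ren n
  have h5 := h1 n hn
  have hp := Real.rpow_pos_of_pos hn0 (9 / 16 : ℝ)
  have e : (n : ℝ) ^ (9 / 16 : ℝ) * (n : ℝ) ^ (7 / 16 : ℝ) = n := by
    rw [← Real.rpow_add hn0]
    norm_num
  have h6 : c * (n : ℝ) ^ (9 / 16 : ℝ) * NUX.mm fb n ≤ 3 * n := by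
    calc c * (n : ℝ) ^ (9 / 16 : ℝ) * NUX.mm fb n ≤ NUX.UU ub n * NUX.mm fb n :=
          mul_le_mul_of_nonneg_right h5 h4
      _ ≤ NUX.UU ub n * NUX.mm fb (n + 1) :=
          mul_le_mul_of_nonneg_left h3 ((mul_pos hc hp).le.trans h5)
      _ ≤ 3 * n := by linarith
  have h7 : NUX.mm fb n * (c * (n : ℝ) ^ (9 / 16 : ℝ)) ≤
      3 / c * (n : ℝ) ^ (7 / 16 : ℝ) * (c * (n : ℝ) ^ (9 / 16 : ℝ)) := by
    have e2 : 3 / c * (n : ℝ) ^ (7 / 16 : ℝ) * (c * (n : ℝ) ^ (9 / 16 : ℝ)) = 3 * n := by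
      calc 3 / c * (n : ℝ) ^ (7 / 16 : ℝ) * (c * (n : ℝ) ^ (9 / 16 : ℝ)) =
            3 * ((n : ℝ) ^ (9 / 16 : ℝ) * (n : ℝ) ^ (7 / 16 : ℝ)) := by
              field_simp
        _ = 3 * n := by rw [e]
    rw [e2]
    linarith
  exact le_of_mul_le_mul_right h7 (mul_pos hc hp)

/-- **the mass of the long irreducible bridges** -/
theorem Fb_C (h : UUC) : ∃ C : ℝ, 0 < C ∧ ∀ n : ℕ, 1 ≤ n → NUX.Fb fb n ≤ C * (n : ℝ) ^ (-(9 / 16) : ℝ) := by
  obtain ⟨C, hC, h1⟩ := mm_C h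
  refine ⟨C, hC, fun n hn => ?_⟩
  have hnR : (1 : ℝ) ≤ n := by exact_mod_cast hn
  have hn0 : (0 : ℝ) < n := by linarith
  have h2 := NUX.mul_Fb_le ren n
  have h3 := h1 n hn
  have e : (n : ℝ) * (C * (n : ℝ) ^ (-(9 / 16) : ℝ)) = C * (n : ℝ) ^ (7 / 16 : ℝ) := by
    have : (n : ℝ) * (n : ℝ) ^ (-(9 / 16) : ℝ) = (n : ℝ) ^ (7 / 16 : ℝ) := by
      nth_rewrite 1 [← Real.rpow_one (n : ℝ)]
      rw [← Real.rpow_add hn0]
      norm_num
    rw [← this]
    ring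
  refine le_of_mul_le_mul_left ?_ hn0
  rw [e]
  linarith

/-! ### sums over sets of words with a weight -/

/-- the number of letters, weighted -/
noncomputable def gl (P : Set (List Bool)) : ℝ≥0∞ := ∑' t : P, (t.1.length : ℝ≥0∞) * wE t.1

theorem gl_union {P Q : Set (List Bool)} (h : Disjoint P Q) : gl (P ∪ Q) = gl P + gl Q := by
  unfold gl
  exact ENNReal.summable.tsum_union_disjoint (f := fun t : List Bool => (t.length : ℝ≥0∞) * wE t) h
    ENNReal.summable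

theorem gl_empty : gl ∅ = 0 := by
  unfold gl
  simp

theorem gl_biUnion {ι : Type} (I : Finset ι) (P : ι → Set (List Bool))
    (hd : ∀ i ∈ I, ∀ j ∈ I, i ≠ j → Disjoint (P i) (P j)) :
    gl (⋃ i ∈ I, P i) = ∑ i ∈ I, gl (P i) := by
  classical
  induction I using Finset.induction_on with
  | empty =>
    simp only [Finset.notMem_empty, Set.iUnion_of_empty, Set.iUnion_empty, Finset.sum_empty]
    exact gl_empty
  | insert a I ha ih =>
    rw [Finset.set_biUnion_insert, Finset.sum_insert ha, gl_union, ih]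
    · intro i hi j hj hij
      exact hd i (Finset.mem_insert_of_mem hi) j (Finset.mem_insert_of_mem hj) hij
    · rw [Set.disjoint_iUnion₂_right]
      intro i hi
      exact hd a (Finset.mem_insert_self a I) i (Finset.mem_insert_of_mem hi) (fun h => ha (h ▸ hi))

/-- letters of a product set with unique factorisation -/
theorem gl_mul {P Q R : Set (List Bool)} (h : ∀ a ∈ Q, ∀ b ∈ R, a ++ b ∈ P)
    (hs : ∀ t ∈ P, ∃ a ∈ Q, ∃ b ∈ R, t = a ++ b)
    (hu : ∀ a ∈ Q, ∀ b ∈ R, ∀ a' ∈ Q, ∀ b' ∈ R, a ++ b = a' ++ b' → a = a') :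
    gl P = gl Q * gf R + gf Q * gl R := by
  classical
  let ψ : Q × R → P := fun p => ⟨p.1 ++ p.2, h _ p.1.2 _ p.2.2⟩
  have hψ : Function.Bijective ψ := by
    constructor
    · rintro ⟨a, b⟩ ⟨a', b'⟩ hab
      have h1 : (a : List Bool) ++ b = a' ++ b' := congrArg Subtype.val hab
      have h2 := hu a a.2 b b.2 a' a'.2 b' b'.2 h1
      rw [h2] at h1
      have h3 := List.append_cancel_left h1
      exact Prod.ext (Subtype.ext h2) (Subtype.ext h3)
    · rintro ⟨t, ht⟩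
      obtain ⟨a, ha, b, hb, rfl⟩ := hs t ht
      exact ⟨⟨⟨a, ha⟩, ⟨b, hb⟩⟩, rfl⟩
  have e1 : gl P = ∑' p : Q × R, (((ψ p).1.length : ℝ≥0∞) * wE (ψ p).1) :=
    ((Equiv.ofBijective ψ hψ).tsum_eq (fun t : P => (t.1.length : ℝ≥0∞) * wE t.1)).symm
  have e2 : ∀ p : Q × R, (((ψ p).1.length : ℝ≥0∞) * wE (ψ p).1) =
      ((p.1.1.length : ℝ≥0∞) * wE p.1.1) * wE p.2.1 + wE p.1.1 * ((p.2.1.length : ℝ≥0∞) * wE p.2.1) := by
    rintro ⟨⟨a, ha⟩, ⟨b, hb⟩⟩
    show (((a ++ b).length : ℝ≥0∞) * wE (a ++ b)) = _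
    rw [wE_append, List.length_append]
    push_cast
    ring
  rw [e1, tsum_congr e2, ENNReal.tsum_add]
  unfold gl gf
  congr 1
  · rw [ENNReal.tsum_prod (f := fun (a : Q) (b : R) => ((a.1.length : ℝ≥0∞) * wE a.1) * wE b.1),
      ← ENNReal.tsum_mul_right]
    refine tsum_congr fun a => ?_
    rw [ENNReal.tsum_mul_left]
  · rw [ENNReal.tsum_prod (f := fun (a : Q) (b : R) => wE a.1 * ((b.1.length : ℝ≥0∞) * wE b.1)),
      ← ENNReal.tsum_mul_right]
    refine tsum_congr fun a => ?_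
    rw [ENNReal.tsum_mul_left]

/-- the letters of the bridges of height `T` -/
theorem renewal_len {T : ℕ} (hT : 1 ≤ T) : gl (Brd T) =
    ∑ r ∈ Icc 1 T, (gl (Irr r) * BT (T - r) + kap' r * gl (Brd (T - r))) := by
  have h1 : Brd T = ⋃ r ∈ Icc 1 T, {t | ∃ s u, s ∈ Irr r ∧ u ∈ Brd (T - r) ∧ t = s ++ u} := by
    ext t
    simp only [Set.mem_iUnion]
    constructor
    · intro ht
      obtain ⟨r, s, u, h1, h2, h3, h4, h5⟩ := Brd_first ht hT
      exact ⟨r, Finset.mem_Icc.2 ⟨h1, h2⟩, s, u, h3, h4, h5⟩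
    · rintro ⟨r, hr, s, u, h3, h4, rfl⟩
      have h5 := Finset.mem_Icc.1 hr
      have h6 := Brd_append h3.1 h4
      have e : r + (T - r) = T := by omega
      rwa [e] at h6
  conv_lhs => rw [h1]
  rw [gl_biUnion]
  · refine Finset.sum_congr rfl fun r hr => ?_
    have h2 := gl_mul (P := {t | ∃ s u, s ∈ Irr r ∧ u ∈ Brd (T - r) ∧ t = s ++ u}) (Q := Irr r)
      (R := Brd (T - r)) (fun a ha b hb => ⟨a, b, ha, hb, rfl⟩)
      (fun t ht => by
        obtain ⟨s, u, h3, h4, h5⟩ := ht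
        exact ⟨s, h3, u, h4, h5⟩)
      (fun a ha b hb a' ha' b' hb' h => (Irr_unique ha ha' hb hb' h).1)
    rw [h2, gf_Brd]
    rfl
  · intro i hi j hj hij
    rw [Set.disjoint_left]
    rintro t ⟨s, u, h3, h4, h5⟩ ⟨s', u', g3, g4, g5⟩
    have h6 := (Irr_unique h3 g3 h4 g4 (h5.symm.trans g5)).1
    rw [h6] at h3
    exact hij (Brd_height h3.1 g3.1)

theorem Irr_zero' : Irr 0 = ∅ := by
  ext t
  constructor
  · intro h
    have := Irr_pos h
    omega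
  · intro h
    exact absurd h (Set.notMem_empty t)

theorem kap_zero : kap' 0 = 0 := by
  unfold kap'
  rw [Irr_zero']
  unfold gf
  simp

theorem BT_zero1 : BT 0 = 1 := by
  have h : ({[]} : Set (List Bool)) = (({[]} : Finset (List Bool)) : Set (List Bool)) := by simp
  rw [← gf_Brd, Brd_zero, h, gf_finset]
  simp

/-- a convolution without the term `0` -/
theorem conv_Icc (f g : ℕ → ℝ≥0∞) (hf : f 0 = 0) (n : ℕ) :
    ∑ p ∈ antidiagonal n, f p.1 * g p.2 = ∑ r ∈ Icc 1 n, f r * g (n - r) := by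
  rw [Finset.Nat.sum_antidiagonal_eq_sum_range_succ (fun i j => f i * g j), Finset.range_eq_Ico,
    Finset.sum_eq_sum_Ico_succ_bot (Nat.succ_pos n), hf, zero_mul, zero_add]
  refine Finset.sum_congr ?_ fun _ _ => rfl
  ext x
  simp only [Finset.mem_Ico, Finset.mem_Icc]
  omega

open PowerSeries in
/-- **the letters of the bridges**: exact factorisation -/
theorem ml_eq : (PowerSeries.mk fun n => gl (Brd n)) =
    (PowerSeries.mk BT) * ((PowerSeries.mk fun n => gl (Irr n)) * (PowerSeries.mk BT)) := by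
  obtain ⟨B, hB⟩ : ∃ B : PowerSeries ℝ≥0∞, B = PowerSeries.mk BT := ⟨_, rfl⟩
  obtain ⟨I, hI⟩ : ∃ I : PowerSeries ℝ≥0∞, I = PowerSeries.mk kap' := ⟨_, rfl⟩
  obtain ⟨L, hL⟩ : ∃ L : PowerSeries ℝ≥0∞, L = PowerSeries.mk fun n => gl (Irr n) := ⟨_, rfl⟩
  obtain ⟨M, hM⟩ : ∃ M : PowerSeries ℝ≥0∞, M = PowerSeries.mk fun n => gl (Brd n) := ⟨_, rfl⟩
  have hL0 : gl (Irr 0) = 0 := by rw [Irr_zero', gl_empty]
  have h1 : B = 1 + I * B := by
    ext n
    rw [map_add, PowerSeries.coeff_mul, hB, hI]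
    simp only [PowerSeries.coeff_mk]
    rw [conv_Icc kap' BT kap_zero, PowerSeries.coeff_one]
    rcases Nat.eq_zero_or_pos n with h0 | h0
    · subst h0
      simp [BT_zero1]
    · rw [if_neg (by omega), zero_add]
      exact renewal h0
  have h2 : M = L * B + I * M := by
    ext n
    rw [map_add, PowerSeries.coeff_mul, PowerSeries.coeff_mul, hB, hI, hL, hM]
    simp only [PowerSeries.coeff_mk]
    rw [conv_Icc kap' (fun n => gl (Brd n)) kap_zero, conv_Icc (fun n => gl (Irr n)) BT hL0]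
    rcases Nat.eq_zero_or_pos n with h0 | h0
    · subst h0
      rw [Brd_zero]
      simp [gl]
    · rw [renewal_len h0, Finset.sum_add_distrib]
  have h3 : B * (L * B) = L * B + I * (B * (L * B)) := by
    calc B * (L * B) = (1 + I * B) * (L * B) := by rw [← h1]
      _ = _ := by ring
  have h4 : ∀ n, PowerSeries.coeff n M = PowerSeries.coeff n (B * (L * B)) := by
    intro n
    induction n using Nat.strong_induction_on with
    | _ n ih =>
      rw [h2, h3, map_add, map_add]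
      congr 1
      rw [PowerSeries.coeff_mul, PowerSeries.coeff_mul]
      refine Finset.sum_congr rfl fun p hp => ?_
      have hp' := Finset.HasAntidiagonal.mem_antidiagonal.1 hp
      rcases Nat.eq_zero_or_pos p.1 with h0 | h0
      · have : PowerSeries.coeff p.1 I = 0 := by
          rw [hI, PowerSeries.coeff_mk, h0, kap_zero]
        rw [this, zero_mul, zero_mul]
      · rw [ih p.2 (by omega)]
  rw [← hM, ← hB, ← hL]
  exact PowerSeries.ext h4

/-! ### sums of convolutions -/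

theorem conv_le (f g : ℕ → ℝ≥0∞) (T : ℕ) :
    ∑ n ∈ range (T + 1), ∑ p ∈ antidiagonal n, f p.1 * g p.2 ≤
      (∑ i ∈ range (T + 1), f i) * ∑ j ∈ range (T + 1), g j := by
  classical
  set s : Finset (ℕ × ℕ) := ((range (T + 1)) ×ˢ (range (T + 1))).filter (fun p => p.1 + p.2 ≤ T) with hs
  have h1 : ∀ n ∈ range (T + 1), antidiagonal n = s.filter (fun p => p.1 + p.2 = n) := by
    intro n hn
    have hn' := Finset.mem_range.1 hn
    ext p
    rw [Finset.HasAntidiagonal.mem_antidiagonal, Finset.mem_filter, hs, Finset.mem_filter,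
      Finset.mem_product, Finset.mem_range, Finset.mem_range]
    constructor
    · intro h
      exact ⟨⟨⟨by omega, by omega⟩, by omega⟩, h⟩
    · intro h
      exact h.2
  have h2 : ∑ n ∈ range (T + 1), ∑ p ∈ antidiagonal n, f p.1 * g p.2 = ∑ p ∈ s, f p.1 * g p.2 := by
    rw [← Finset.sum_fiberwise_of_maps_to (s := s) (t := range (T + 1)) (g := fun p => p.1 + p.2)]
    · exact Finset.sum_congr rfl fun n hn => by rw [h1 n hn]
    · intro p hp
      rw [hs, Finset.mem_filter] at hp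
      exact Finset.mem_range.2 (by omega)
  rw [h2, Finset.sum_mul_sum, ← Finset.sum_product']
  exact Finset.sum_le_sum_of_subset (Finset.filter_subset _ _)

theorem conv_ge (f g : ℕ → ℝ≥0∞) (S T : ℕ) :
    (∑ i ∈ range (S + 1), f i) * ∑ j ∈ range (T + 1), g j ≤
      ∑ n ∈ range (S + T + 1), ∑ p ∈ antidiagonal n, f p.1 * g p.2 := by
  classical
  rw [Finset.sum_mul_sum, ← Finset.sum_product',
    ← Finset.sum_fiberwise_of_maps_to (s := (range (S + 1)) ×ˢ (range (T + 1))) (t := range (S + T + 1))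
      (g := fun p => p.1 + p.2)]
  · refine Finset.sum_le_sum fun n _ => Finset.sum_le_sum_of_subset ?_
    intro p hp
    rw [Finset.HasAntidiagonal.mem_antidiagonal]
    exact (Finset.mem_filter.1 hp).2
  · intro p hp
    rw [Finset.mem_product, Finset.mem_range, Finset.mem_range] at hp
    exact Finset.mem_range.2 (by omega)

/-- the letters of the irreducible bridges of height at most `T` -/
noncomputable def Il (T : ℕ) : ℝ≥0∞ := ∑ r ∈ range (T + 1), gl (Irr r)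

/-- the letters of the bridges of height at most `T` -/
noncomputable def Ml (T : ℕ) : ℝ≥0∞ := ∑ r ∈ range (T + 1), gl (Brd r)

/-- the weight of the bridges of height at most `T` -/
noncomputable def Ul (T : ℕ) : ℝ≥0∞ := ∑ r ∈ range (T + 1), BT r

theorem Ul_eq (T : ℕ) : Ul T = ENNReal.ofReal (HexObs.UU T) := by
  unfold Ul HexObs.UU uu
  rw [ENNReal.ofReal_sum_of_nonneg fun _ _ => ENNReal.toReal_nonneg]
  exact Finset.sum_congr rfl fun r _ => (ENNReal.ofReal_toReal (BT_top r)).symm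

theorem Ml_le (T : ℕ) : Ml T ≤ Ul T * (Il T * Ul T) := by
  have e : ∀ n, gl (Brd n) = ∑ p ∈ antidiagonal n, BT p.1 *
      (fun k => ∑ q ∈ antidiagonal k, gl (Irr q.1) * BT q.2) p.2 := by
    intro n
    have h := congrArg (PowerSeries.coeff n) ml_eq
    rw [PowerSeries.coeff_mul] at h
    simp only [PowerSeries.coeff_mul, PowerSeries.coeff_mk] at h
    exact h
  unfold Ml
  rw [Finset.sum_congr rfl fun n _ => e n]
  refine (conv_le BT (fun k => ∑ q ∈ antidiagonal k, gl (Irr q.1) * BT q.2) T).trans ?_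
  exact mul_le_mul' le_rfl (conv_le (fun k => gl (Irr k)) BT T)

theorem Ml_ge (T : ℕ) : Ul T * (Il T * Ul T) ≤ Ml (3 * T) := by
  have e : ∀ n, gl (Brd n) = ∑ p ∈ antidiagonal n, BT p.1 *
      (fun k => ∑ q ∈ antidiagonal k, gl (Irr q.1) * BT q.2) p.2 := by
    intro n
    have h := congrArg (PowerSeries.coeff n) ml_eq
    rw [PowerSeries.coeff_mul] at h
    simp only [PowerSeries.coeff_mul, PowerSeries.coeff_mk] at h
    exact h
  unfold Ml
  rw [Finset.sum_congr rfl fun n _ => e n]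
  have h1 := conv_ge BT (fun k => ∑ q ∈ antidiagonal k, gl (Irr q.1) * BT q.2) T (T + T)
  have e2 : T + (T + T) + 1 = 3 * T + 1 := by omega
  rw [e2] at h1
  exact (mul_le_mul' le_rfl (conv_ge (fun k => gl (Irr k)) BT T T)).trans h1

/-- **the letters of the irreducible bridges, from above** -/
theorem irrLen_up {C : ℝ} (hM : T2.MeanLen (4 / 3) C) : ∃ K : ℝ, 0 < K ∧ ∀ T : ℕ, 1 ≤ T →
    Il T ≤ ENNReal.ofReal (K * (T : ℝ) ^ (7 / 12 : ℝ)) := by
  obtain ⟨c, C1, hc, hC1, hU⟩ := BAR.UU_two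
  refine ⟨(|C| + 1) * 3 ^ (4 / 3 : ℝ) * (C1 * 3 ^ (3 / 4 : ℝ)) / c ^ 2, by positivity, fun T hT => ?_⟩
  have hT0 : (0 : ℝ) < T := by exact_mod_cast hT
  have h3T : 1 ≤ 3 * T := by omega
  have hU1 := (hU T hT).1
  have hU3 := (hU (3 * T) h3T).2
  have e3 : ((3 * T : ℕ) : ℝ) = 3 * (T : ℝ) := by push_cast; ring
  -- upper bound of Ml (3 T)
  have h1 : Ml (3 * T) ≤ ENNReal.ofReal ((|C| + 1) * ((3 * T : ℕ) : ℝ) ^ (4 / 3 : ℝ)) * Ul (3 * T) := by
    unfold Ml Ul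
    rw [Finset.mul_sum]
    refine Finset.sum_le_sum fun r hr => ?_
    rcases Nat.eq_zero_or_pos r with h0 | h0
    · subst h0
      rw [Brd_zero]
      have : gl {[]} = 0 := by
        unfold gl
        simp
      rw [this]
      exact bot_le
    · refine (hM r h0).trans (mul_le_mul' (ENNReal.ofReal_le_ofReal ?_) le_rfl)
      have h2 : (r : ℝ) ^ (4 / 3 : ℝ) ≤ ((3 * T : ℕ) : ℝ) ^ (4 / 3 : ℝ) := by
        refine Real.rpow_le_rpow (by positivity) ?_ (by norm_num)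
        have := Finset.mem_range.1 hr
        exact_mod_cast (by omega : r ≤ 3 * T)
      have h3 : C ≤ |C| + 1 := by linarith [le_abs_self C]
      calc C * (r : ℝ) ^ (4 / 3 : ℝ) ≤ (|C| + 1) * (r : ℝ) ^ (4 / 3 : ℝ) :=
            mul_le_mul_of_nonneg_right h3 (by positivity)
        _ ≤ _ := mul_le_mul_of_nonneg_left h2 (by positivity)
  have h2 := (Ml_ge T).trans h1
  rw [Ul_eq, Ul_eq, ← ENNReal.ofReal_mul (by positivity)] at h2
  have hUp : 0 < HexObs.UU T := lt_of_lt_of_le (by positivity) hU1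
  -- Il T * ofReal (UU T ^ 2) ≤ ...
  have h4 : Il T * ENNReal.ofReal (HexObs.UU T * HexObs.UU T) ≤
      ENNReal.ofReal ((|C| + 1) * ((3 * T : ℕ) : ℝ) ^ (4 / 3 : ℝ) * HexObs.UU (3 * T)) := by
    refine le_trans (le_of_eq ?_) h2
    rw [ENNReal.ofReal_mul hUp.le]
    ring
  have h5 : Il T ≤ ENNReal.ofReal ((|C| + 1) * ((3 * T : ℕ) : ℝ) ^ (4 / 3 : ℝ) * HexObs.UU (3 * T)) /
      ENNReal.ofReal (HexObs.UU T * HexObs.UU T) := by
    rw [ENNReal.le_div_iff_mul_le (Or.inl (by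
      rw [Ne, ENNReal.ofReal_eq_zero, not_le]
      positivity)) (Or.inl ENNReal.ofReal_ne_top)]
    exact h4
  refine h5.trans ?_
  rw [← ENNReal.ofReal_div_of_pos (by positivity)]
  apply ENNReal.ofReal_le_ofReal
  rw [div_le_iff₀ (by positivity)]
  have a1 : (c * (T : ℝ) ^ (3 / 4 : ℝ)) * (c * (T : ℝ) ^ (3 / 4 : ℝ)) ≤ HexObs.UU T * HexObs.UU T :=
    mul_le_mul hU1 hU1 (by positivity) hUp.le
  have a2 : ((3 * T : ℕ) : ℝ) ^ (4 / 3 : ℝ) = 3 ^ (4 / 3 : ℝ) * (T : ℝ) ^ (4 / 3 : ℝ) := by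
    rw [e3, Real.mul_rpow (by norm_num) hT0.le]
  have a3 : ((3 * T : ℕ) : ℝ) ^ (3 / 4 : ℝ) = 3 ^ (3 / 4 : ℝ) * (T : ℝ) ^ (3 / 4 : ℝ) := by
    rw [e3, Real.mul_rpow (by norm_num) hT0.le]
  rw [a3] at hU3
  rw [a2]
  have a4 : (T : ℝ) ^ (4 / 3 : ℝ) * (T : ℝ) ^ (3 / 4 : ℝ) =
      (T : ℝ) ^ (7 / 12 : ℝ) * ((T : ℝ) ^ (3 / 4 : ℝ) * (T : ℝ) ^ (3 / 4 : ℝ)) := by
    rw [← Real.rpow_add hT0, ← Real.rpow_add hT0, ← Real.rpow_add hT0]
    norm_num
  calc (|C| + 1) * (3 ^ (4 / 3 : ℝ) * (T : ℝ) ^ (4 / 3 : ℝ)) * HexObs.UU (3 * T) ≤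
        (|C| + 1) * (3 ^ (4 / 3 : ℝ) * (T : ℝ) ^ (4 / 3 : ℝ)) * (C1 * (3 ^ (3 / 4 : ℝ) * (T : ℝ) ^ (3 / 4 : ℝ))) :=
        mul_le_mul_of_nonneg_left hU3 (by positivity)
    _ = (|C| + 1) * 3 ^ (4 / 3 : ℝ) * (C1 * 3 ^ (3 / 4 : ℝ)) *
        ((T : ℝ) ^ (4 / 3 : ℝ) * (T : ℝ) ^ (3 / 4 : ℝ)) := by ring
    _ = (|C| + 1) * 3 ^ (4 / 3 : ℝ) * (C1 * 3 ^ (3 / 4 : ℝ)) / c ^ 2 * (T : ℝ) ^ (7 / 12 : ℝ) *
        ((c * (T : ℝ) ^ (3 / 4 : ℝ)) * (c * (T : ℝ) ^ (3 / 4 : ℝ))) := by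
        rw [a4]
        field_simp
    _ ≤ _ := mul_le_mul_of_nonneg_left a1 (by positivity)

/-- **the letters of the irreducible bridges, from below** -/
theorem irrLen_lo {c0 : ℝ} (hc0 : 0 < c0)
    (hM : ∀ T : ℕ, 1 ≤ T → ENNReal.ofReal (c0 * (T : ℝ) ^ (25 / 12 : ℝ)) ≤ Ml T) :
    ∃ c : ℝ, 0 < c ∧ ∀ T : ℕ, 1 ≤ T → ENNReal.ofReal (c * (T : ℝ) ^ (7 / 12 : ℝ)) ≤ Il T := by
  obtain ⟨_, C1, _, hC1, hU⟩ := BAR.UU_two
  refine ⟨c0 / C1 ^ 2, by positivity, fun T hT => ?_⟩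
  have hT0 : (0 : ℝ) < T := by exact_mod_cast hT
  have hU1 := (hU T hT).2
  have hU0 : 0 ≤ HexObs.UU T := Finset.sum_nonneg fun _ _ => ENNReal.toReal_nonneg
  have h1 := (hM T hT).trans (Ml_le T)
  rw [Ul_eq] at h1
  have h2 : Ul T * (Il T * Ul T) ≤ Il T * ENNReal.ofReal ((C1 * (T : ℝ) ^ (3 / 4 : ℝ)) * (C1 * (T : ℝ) ^ (3 / 4 : ℝ))) := by
    rw [Ul_eq]
    calc ENNReal.ofReal (HexObs.UU T) * (Il T * ENNReal.ofReal (HexObs.UU T)) =
          Il T * ENNReal.ofReal (HexObs.UU T * HexObs.UU T) := by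
            rw [ENNReal.ofReal_mul hU0]
            ring
      _ ≤ _ := mul_le_mul' le_rfl (ENNReal.ofReal_le_ofReal
            (mul_le_mul hU1 hU1 hU0 (by positivity)))
  rw [Ul_eq] at h2
  have h3 := h1.trans h2
  have h4 : ENNReal.ofReal (c0 * (T : ℝ) ^ (25 / 12 : ℝ)) /
      ENNReal.ofReal ((C1 * (T : ℝ) ^ (3 / 4 : ℝ)) * (C1 * (T : ℝ) ^ (3 / 4 : ℝ))) ≤ Il T := by
    rw [ENNReal.div_le_iff_le_mul (Or.inl (by
      rw [Ne, ENNReal.ofReal_eq_zero, not_le]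
      positivity)) (Or.inl ENNReal.ofReal_ne_top)]
    exact h3
  refine le_trans ?_ h4
  rw [← ENNReal.ofReal_div_of_pos (by positivity)]
  apply ENNReal.ofReal_le_ofReal
  rw [le_div_iff₀ (by positivity)]
  have a4 : (T : ℝ) ^ (25 / 12 : ℝ) =
      (T : ℝ) ^ (7 / 12 : ℝ) * ((T : ℝ) ^ (3 / 4 : ℝ) * (T : ℝ) ^ (3 / 4 : ℝ)) := by
    rw [← Real.rpow_add hT0, ← Real.rpow_add hT0]
    norm_num
  rw [a4]
  apply le_of_eq
  field_simp

/-! ### from the upper half of the sharp partition function -/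

theorem Fb_Z (h : ZUpC) : ∃ C : ℝ, 0 < C ∧ ∀ n : ℕ, 1 ≤ n → NUX.Fb fb n ≤ C * (n : ℝ) ^ (-(9 / 16) : ℝ) :=
  Fb_C (lo_UU_Z h)

theorem mm_Z (h : ZUpC) : ∃ C : ℝ, 0 < C ∧ ∀ n : ℕ, 1 ≤ n → NUX.mm fb n ≤ C * (n : ℝ) ^ (7 / 16 : ℝ) :=
  mm_C (lo_UU_Z h)

theorem irrLen_Z (h : ZUpC) : ∃ K : ℝ, 0 < K ∧ ∀ T : ℕ, 1 ≤ T →
    Il T ≤ ENNReal.ofReal (K * (T : ℝ) ^ (7 / 12 : ℝ)) := by
  obtain ⟨C, _, hM⟩ := meanLen_C h
  exact irrLen_up hM

end Pool.Agent.VF
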