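import Pool.Agent.PW.RenI
import Pool.Agent.PW.Index
import Pool.Agent.VF.IrrC
import Pool.Agent.VF.MeanZ
import Pool.Agent.NTA.TailDefs

/-!
Bridges of the honeycomb lattice by the number of letters, with constants (helper51).
`UUp`: the partial sums are at most `C n ^ (9/16)`. With `UUC` (the lower half, which follows from the sharp law
of the partition function): `W_two`, `ub_C`, `Fb_CC`. `uup_of`: `UUp` from the lower mean `C1`.
-/

set_option autoImplicit false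

namespace Pool.Agent.VF

open Finset HexObs HexObs.BrL

open scoped ENNReal

/-- the partial sums are at most `C n ^ (9/16)` -/
def UUp : Prop := ∃ C : ℝ, 0 < C ∧ ∀ n : ℕ, 1 ≤ n → NUX.UU ub n ≤ C * (n : ℝ) ^ (9 / 16 : ℝ)

theorem W_two (h1 : UUC) (h2 : UUp) : ∃ c C : ℝ, 0 < c ∧ 0 < C ∧ ∀ y : ℕ, 1 ≤ y →
    c * (y : ℝ) ^ (9 / 16 : ℝ) ≤ PWR.W ub y ∧ PWR.W ub y ≤ C * (y : ℝ) ^ (9 / 16 : ℝ) := by
  obtain ⟨c, hc, h1⟩ := h1
  obtain ⟨C, hC, h2⟩ := h2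
  have hp : (0 : ℝ) < (2 : ℝ) ^ (9 / 16 : ℝ) := by positivity
  refine ⟨min 1 (c / (2 : ℝ) ^ (9 / 16 : ℝ)), C, lt_min one_pos (by positivity), hC, fun y hy => ⟨?_, ?_⟩⟩
  · rcases Nat.lt_or_ge y 2 with h | h
    · have e : y = 1 := by omega
      subst e
      rw [Nat.cast_one, Real.one_rpow, mul_one]
      exact (min_le_left _ _).trans (PWR.W_pos ren le_rfl)
    · obtain ⟨n, rfl⟩ : ∃ n, y = n + 1 := ⟨y - 1, by omega⟩
      rw [PWR.W_succ_eq]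
      refine le_trans ?_ (h1 n (by omega))
      have hn : ((n + 1 : ℕ) : ℝ) ≤ 2 * n := by
        have : 1 ≤ n := by omega
        have h3 : (1 : ℝ) ≤ n := by exact_mod_cast this
        push_cast; linarith
      calc min 1 (c / (2 : ℝ) ^ (9 / 16 : ℝ)) * ((n + 1 : ℕ) : ℝ) ^ (9 / 16 : ℝ)
          ≤ c / (2 : ℝ) ^ (9 / 16 : ℝ) * (2 * n : ℝ) ^ (9 / 16 : ℝ) :=
            mul_le_mul (min_le_right _ _) (Real.rpow_le_rpow (by positivity) hn (by norm_num)) (by positivity)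
              (by positivity)
        _ = _ := by
            rw [Real.mul_rpow (by norm_num) (by positivity)]
            field_simp
  · obtain ⟨n, rfl⟩ : ∃ n, y = n + 1 := ⟨y - 1, by omega⟩
    have h3 := h2 (n + 1) (by omega)
    have h4 : PWR.W ub (n + 1) ≤ PWR.W ub (n + 1 + 1) := PWR.W_mono ren (by omega)
    rw [PWR.W_succ_eq ub (n + 1)] at h4
    exact h4.trans h3

theorem ind (h1 : UUC) (h2 : UUp) : ∃ c C : ℝ, PWR.Ind ub (9 / 16) (9 / 16) c C := by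
  obtain ⟨c, C, hc, hC, h⟩ := W_two h1 h2
  refine ⟨c / C, C / c, by norm_num, le_rfl, by norm_num, by positivity, fun k x hk hx => ?_, fun k x hk hx => ?_⟩
  · have hkx : 1 ≤ k * x := Nat.one_le_iff_ne_zero.2 (by positivity)
    have e : ((k * x : ℕ) : ℝ) ^ (9 / 16 : ℝ) = (k : ℝ) ^ (9 / 16 : ℝ) * (x : ℝ) ^ (9 / 16 : ℝ) := by
      push_cast; rw [Real.mul_rpow (by positivity) (by positivity)]
    have h3 := (h (k * x) hkx).1
    rw [e] at h3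
    refine le_trans ?_ h3
    calc c / C * (k : ℝ) ^ (9 / 16 : ℝ) * PWR.W ub x
        ≤ c / C * (k : ℝ) ^ (9 / 16 : ℝ) * (C * (x : ℝ) ^ (9 / 16 : ℝ)) :=
          mul_le_mul_of_nonneg_left (h x hx).2 (by positivity)
      _ = _ := by field_simp
  · have hkx : 1 ≤ k * x := Nat.one_le_iff_ne_zero.2 (by positivity)
    have e : ((k * x : ℕ) : ℝ) ^ (9 / 16 : ℝ) = (k : ℝ) ^ (9 / 16 : ℝ) * (x : ℝ) ^ (9 / 16 : ℝ) := by
      push_cast; rw [Real.mul_rpow (by positivity) (by positivity)]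
    have h3 := (h (k * x) hkx).2
    rw [e] at h3
    refine h3.trans ?_
    calc C * ((k : ℝ) ^ (9 / 16 : ℝ) * (x : ℝ) ^ (9 / 16 : ℝ))
        = C / c * (k : ℝ) ^ (9 / 16 : ℝ) * (c * (x : ℝ) ^ (9 / 16 : ℝ)) := by field_simp
      _ ≤ _ := mul_le_mul_of_nonneg_left (h x hx).1 (by positivity)

/-- **the number of bridges, both sides with constants** -/
theorem ub_C (h1 : UUC) (h2 : UUp) : ∃ c C : ℝ, 0 < c ∧ 0 < C ∧ ∀ n : ℕ, 1 ≤ n →
    c * (n : ℝ) ^ (-(7 / 16) : ℝ) ≤ ub n ∧ ub n ≤ C * (n : ℝ) ^ (-(7 / 16) : ℝ) := by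
  obtain ⟨c, C, hc, hC, h⟩ := W_two h1 h2
  obtain ⟨c0, C0, hi⟩ := ind h1 h2
  obtain ⟨c1, C1, hc1, hC1, h3⟩ := PWR.renewal_two (a := 9 / 16) (b := 9 / 16) (c := c0) (C := C0) ren fb_two hi
    (by norm_num)
  refine ⟨c1 * c, C1 * C, by positivity, by positivity, fun n hn => ?_⟩
  have hn0 : (0 : ℝ) < n := by exact_mod_cast hn
  have e : (n : ℝ) ^ (-(7 / 16) : ℝ) = (n : ℝ) ^ (9 / 16 : ℝ) / n := by
    rw [eq_div_iff hn0.ne']
    nth_rewrite 2 [← Real.rpow_one (n : ℝ)]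
    rw [← Real.rpow_add hn0]
    norm_num
  obtain ⟨h4, h5⟩ := h3 n hn
  obtain ⟨h6, h7⟩ := h n hn
  rw [e]
  constructor
  · refine le_trans ?_ h4
    calc c1 * c * ((n : ℝ) ^ (9 / 16 : ℝ) / n) = c1 * ((c * (n : ℝ) ^ (9 / 16 : ℝ)) / n) := by ring
      _ ≤ _ := by gcongr
  · refine h5.trans ?_
    calc C1 * (PWR.W ub n / n) ≤ C1 * ((C * (n : ℝ) ^ (9 / 16 : ℝ)) / n) := by gcongr
      _ = _ := by ring

/-- **the tail of the lengths of the irreducible bridges, both sides with constants** -/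
theorem Fb_CC (h1 : UUC) (h2 : UUp) : ∃ c C : ℝ, 0 < c ∧ 0 < C ∧ ∀ n : ℕ, 1 ≤ n →
    c * (n : ℝ) ^ (-(9 / 16) : ℝ) ≤ NUX.Fb fb n ∧ NUX.Fb fb n ≤ C * (n : ℝ) ^ (-(9 / 16) : ℝ) := by
  obtain ⟨c, C, hc, hC, h⟩ := W_two h1 h2
  obtain ⟨c0, C0, hi⟩ := ind h1 h2
  obtain ⟨B, hB, h3⟩ := PWR.Fb_two ren hi
  have hB0 : 0 < B := by linarith
  refine ⟨1 / (B * C), 2 / c, by positivity, by positivity, fun n hn => ?_⟩
  have hn0 : (0 : ℝ) < n := by exact_mod_cast hn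
  obtain ⟨h4, h5⟩ := h3 n hn
  obtain ⟨h6, h7⟩ := h n hn
  have hp : 0 < (n : ℝ) ^ (9 / 16 : ℝ) := by positivity
  rw [Real.rpow_neg hn0.le]
  constructor
  · refine le_trans ?_ h5
    have hW : 0 < PWR.W ub n := lt_of_lt_of_le (by positivity) h6
    calc 1 / (B * C) * ((n : ℝ) ^ (9 / 16 : ℝ))⁻¹ = 1 / (B * (C * (n : ℝ) ^ (9 / 16 : ℝ))) := by field_simp
      _ ≤ _ := one_div_le_one_div_of_le (by positivity) (by gcongr)
  · refine h4.trans ?_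
    calc 2 / PWR.W ub n ≤ 2 / (c * (n : ℝ) ^ (9 / 16 : ℝ)) := by gcongr
      _ = _ := by field_simp

end Pool.Agent.VF
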