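import Pool.Agent.XI72.C
import Pool.Agent.Tight.LawK
import Pool.Agent.PHW.WallStrong

/-!
# The lower bound of the correlation length without a logarithm

From the mean length of the bridges `HexObs.T2.MeanLen a C`: the pieces up to the first cut row at or above `T`
(total weight `1`) have with probability `3 / 4` at most `K T` rows and then the mean length `≤ C (K T) ^ a`; their
`k`-fold products are bridges, with unique factorization. Hence `ξ (x_c e ^ (-d)) ≥ c d ^ (-1 / a)`.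
-/

set_option autoImplicit false

open scoped ENNReal

namespace VF

open SawNu HexObs XI72

/-- the words up to the first cut row at or above `T`, with at most `n` rows -/
def St (T n : ℕ) : Set (List Bool) := {t | ∃ j, j ≤ n ∧ t ∈ FC T j}

/-- the same with at most `N` letters -/
def Sn (T n N : ℕ) : Set (List Bool) := {t | t ∈ St T n ∧ t.length ≤ N}

/-- the weight with the fugacity `z` -/
noncomputable def gz (z : ℝ≥0∞) (P : Set (List Bool)) : ℝ≥0∞ := ∑' t : P, z ^ t.1.length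

/-- the bridges with `k T` to `k n` rows and at most `k N` letters -/
def Wk (T n N k : ℕ) : Set (List Bool) := {t | ∃ h, k * T ≤ h ∧ h ≤ k * n ∧ t ∈ Bl h (k * N)}

lemma gz_mono (z : ℝ≥0∞) {P Q : Set (List Bool)} (h : P ⊆ Q) : gz z P ≤ gz z Q :=
  ENNReal.tsum_mono_subtype (fun t : List Bool => z ^ t.length) h

lemma gz_mul (z : ℝ≥0∞) (T n N k : ℕ) : gz z (Sn T n N) * gz z (Wk T n N k) ≤ gz z (Wk T n N (k + 1)) := by
  unfold gz
  rw [← ENNReal.tsum_mul_right]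
  have h1 : ∀ s : Sn T n N, z ^ s.1.length * ∑' t : Wk T n N k, z ^ t.1.length =
      ∑' t : Wk T n N k, z ^ (s.1 ++ t.1).length := by
    intro s
    rw [← ENNReal.tsum_mul_left]
    refine tsum_congr fun t => ?_
    rw [List.length_append, pow_add]
  rw [tsum_congr h1, ← ENNReal.tsum_prod (f := fun (s : Sn T n N) (t : Wk T n N k) => z ^ (s.1 ++ t.1).length)]
  let φ : Sn T n N × Wk T n N k → Wk T n N (k + 1) := fun p =>
    ⟨p.1.1 ++ p.2.1, by
      obtain ⟨⟨s, ⟨j, hj, hs⟩, hsl⟩, ⟨t, h, h1, h2, ht, htl⟩⟩ := p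
      refine ⟨j + h, ?_, ?_, Brd_append hs.1 ht, ?_⟩
      · rw [add_mul, one_mul, add_comm]
        exact add_le_add hs.2.1 h1
      · rw [add_mul, one_mul, add_comm]
        exact add_le_add h2 hj
      · rw [List.length_append, add_mul, one_mul, add_comm]
        exact add_le_add htl hsl⟩
  have hφ : Function.Injective φ := by
    rintro ⟨⟨s, ⟨j, hj, hs⟩, hsl⟩, ⟨t, h, h1, h2, ht, htl⟩⟩ ⟨⟨s', ⟨j', hj', hs'⟩, hsl'⟩, ⟨t', h', h1', h2', ht', htl'⟩⟩ he
    have he' : s ++ t = s' ++ t' := congrArg Subtype.val he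
    obtain ⟨rfl, rfl⟩ := FC_unique hs hs' ht ht' he'
    rfl
  exact ENNReal.tsum_comp_le_tsum_of_injective hφ fun t : Wk T n N (k + 1) => z ^ t.1.length

lemma gz_pow (z : ℝ≥0∞) (T n N k : ℕ) : gz z (Sn T n N) ^ (k + 1) ≤ gz z (Wk T n N (k + 1)) := by
  induction k with
  | zero =>
    rw [zero_add, pow_one]
    refine gz_mono z ?_
    rintro t ⟨⟨j, hj, ht⟩, hl⟩
    exact ⟨j, by rw [one_mul]; exact ht.2.1, by rwa [one_mul], ht.1, by rwa [one_mul]⟩
  | succ k ih =>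
    rw [pow_succ']
    exact (mul_le_mul' le_rfl ih).trans (gz_mul z T n N (k + 1))

lemma gz_Wk (z : ℝ≥0∞) (T n N k : ℕ) : gz z (Wk T n N k) ≤ ∑ h ∈ Finset.Icc (k * T) (k * n), bz z h (k * N) := by
  have h1 : Wk T n N k ⊆ ⋃ h ∈ Finset.Icc (k * T) (k * n), Bl h (k * N) := by
    rintro t ⟨h, h1, h2, ht⟩
    simp only [Set.mem_iUnion]
    exact ⟨h, Finset.mem_Icc.2 ⟨h1, h2⟩, ht⟩
  exact (gz_mono z h1).trans (ENNReal.tsum_biUnion_le (fun t : List Bool => z ^ t.length) _ _)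

/-! ### The mass and the mean length of the pieces -/

lemma mass : ∃ K : ℕ, 2 ≤ K ∧ ∀ T : ℕ, 1 ≤ T → ENNReal.ofReal (3 / 4) ≤ gf (St T (K * T)) := by
  obtain ⟨K, hK, hU⟩ := UU_ratio_inv (1 / 4) (by norm_num)
  refine ⟨K, hK, fun T hT => ?_⟩
  have h1 : gf (FCW T) = 1 := by
    rw [← tsum_FCW T]
    unfold gf
    exact tsum_subtype (FCW T) wE
  have h2 : FCW T ⊆ {t | ∃ j, K * T < j ∧ t ∈ FC T j} ∪ St T (K * T) := by
    rintro t ⟨j, hj⟩
    rcases Nat.lt_or_ge (K * T) j with h | h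
    · exact Or.inl ⟨j, h, hj⟩
    · exact Or.inr ⟨j, h, hj⟩
  have h3 : gf {t | ∃ j, K * T < j ∧ t ∈ FC T j} ≤ ENNReal.ofReal (1 / 4) :=
    (FCW_tail hK hT).trans (ENNReal.ofReal_le_ofReal (hU T hT))
  have h6 : (1 : ℝ≥0∞) ≤ ENNReal.ofReal (1 / 4) + gf (St T (K * T)) := by
    rw [← h1]
    exact (gf_mono h2).trans ((gf_union_le _ _).trans (add_le_add h3 le_rfl))
  have e : (1 : ℝ≥0∞) = ENNReal.ofReal (1 / 4) + ENNReal.ofReal (3 / 4) := by
    rw [← ENNReal.ofReal_add (by norm_num) (by norm_num), ← ENNReal.ofReal_one]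
    norm_num
  rw [e] at h6
  exact (ENNReal.add_le_add_iff_left ENNReal.ofReal_ne_top).1 h6

lemma mean_St {a C : ℝ} (hM : HexObs.T2.MeanLen a C) {T n : ℕ} (hn : 1 ≤ n) :
    ∑' t : St T n, (t.1.length : ℝ≥0∞) * wE t.1 ≤ ENNReal.ofReal (C * (n : ℝ) ^ a) := by
  classical
  have hB0 : BT n ≠ 0 := by
    rw [← ofReal_bT hn]
    have := bT_lower hn
    have h3 : (0 : ℝ) < 1 / (n + 3) := by positivity
    exact (ENNReal.ofReal_pos.2 (h3.trans_le this)).ne'
  have hB1 := BT_ne_top hn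
  let J : St T n → ℕ := fun t => t.2.choose
  have hJ : ∀ t : St T n, J t ≤ n ∧ t.1 ∈ FC T (J t) := fun t => t.2.choose_spec
  have h1 : BT n * ∑' t : St T n, (t.1.length : ℝ≥0∞) * wE t.1 ≤
      ∑' x : (Σ t : St T n, Brd (n - J t)), (x.1.1.length : ℝ≥0∞) * wE x.1.1 * wE x.2.1 := by
    rw [ENNReal.tsum_sigma', ← ENNReal.tsum_mul_left]
    refine ENNReal.tsum_le_tsum fun t => ?_
    simp only
    rw [ENNReal.tsum_mul_left, mul_comm]
    refine mul_le_mul' le_rfl ?_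
    have h2 : BT (n - J t) = ∑' u : Brd (n - J t), wE u.1 := (gf_Brd _).symm
    rw [← h2]
    exact BT_anti' (Nat.sub_le _ _)
  have h2 : ∑' x : (Σ t : St T n, Brd (n - J t)), (x.1.1.length : ℝ≥0∞) * wE x.1.1 * wE x.2.1 ≤
      ∑' t : Brd n, (t.1.length : ℝ≥0∞) * wE t.1 := by
    let φ : (Σ t : St T n, Brd (n - J t)) → Brd n := fun x => ⟨x.1.1 ++ x.2.1, by
      have h := Brd_append (hJ x.1).2.1 x.2.2
      rwa [Nat.add_sub_of_le (hJ x.1).1] at h⟩
    have hφ : Function.Injective φ := by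
      rintro ⟨t, u⟩ ⟨t', u'⟩ he
      have he' : t.1 ++ u.1 = t'.1 ++ u'.1 := congrArg Subtype.val he
      obtain ⟨e1, e2⟩ := FC_unique (hJ t).2 (hJ t').2 u.2 u'.2 he'
      have e3 : t = t' := Subtype.ext e1
      subst e3
      have e4 : u = u' := Subtype.ext e2
      rw [e4]
    refine le_trans (ENNReal.tsum_le_tsum fun x => ?_)
      (ENNReal.tsum_comp_le_tsum_of_injective hφ fun t : Brd n => (t.1.length : ℝ≥0∞) * wE t.1)
    simp only [φ]
    rw [wE_append, ← mul_assoc]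
    refine mul_le_mul' (mul_le_mul' ?_ le_rfl) le_rfl
    rw [List.length_append]
    exact_mod_cast Nat.le_add_right _ _
  have h3 := h1.trans (h2.trans (hM n hn))
  rw [mul_comm (ENNReal.ofReal _)] at h3
  exact (ENNReal.mul_le_mul_iff_right hB0 hB1).1 h3

/-- with probability `1 / 2` the piece has at most `K T` rows and at most `4 C (K T) ^ a` letters -/
lemma half {a C : ℝ} (hM : HexObs.T2.MeanLen a C) (hC : 0 < C) {K T : ℕ} (hK : 1 ≤ K) (hT : 1 ≤ T)
    (hm : ENNReal.ofReal (3 / 4) ≤ gf (St T (K * T))) :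
    ENNReal.ofReal (1 / 2) ≤ gf (Sn T (K * T) ⌊4 * C * ((K * T : ℕ) : ℝ) ^ a⌋₊) := by
  classical
  set n := K * T with hn
  have hn1 : 1 ≤ n := Nat.mul_pos hK hT
  have hn0 : (0 : ℝ) < n := by exact_mod_cast hn1
  set N' : ℝ := 4 * C * (n : ℝ) ^ a with hN'
  have hN'0 : 0 < N' := by positivity
  have h2 : ∀ t : St T n, wE t.1 ≤ (if t.1.length ≤ ⌊N'⌋₊ then wE t.1 else 0) +
      ENNReal.ofReal N'⁻¹ * ((t.1.length : ℝ≥0∞) * wE t.1) := by
    intro t
    by_cases ht : t.1.length ≤ ⌊N'⌋₊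
    · rw [if_pos ht]
      exact le_self_add
    · rw [if_neg ht, zero_add, ← mul_assoc]
      have h3 : (1 : ℝ≥0∞) ≤ ENNReal.ofReal N'⁻¹ * (t.1.length : ℝ≥0∞) := by
        rw [← ENNReal.ofReal_natCast, ← ENNReal.ofReal_mul (inv_nonneg.2 hN'0.le), ENNReal.one_le_ofReal]
        have h4 : N' < t.1.length := by
          rw [not_le] at ht
          exact (Nat.floor_lt hN'0.le).1 ht
        rw [inv_mul_eq_div, one_le_div hN'0]
        exact h4.le
      calc wE t.1 = 1 * wE t.1 := (one_mul _).symm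
        _ ≤ _ := mul_le_mul' h3 le_rfl
  have h3 : gf (St T n) ≤ (∑' t : St T n, if t.1.length ≤ ⌊N'⌋₊ then wE t.1 else 0) +
      ENNReal.ofReal N'⁻¹ * ∑' t : St T n, (t.1.length : ℝ≥0∞) * wE t.1 := by
    unfold gf
    rw [← ENNReal.tsum_mul_left, ← ENNReal.tsum_add]
    exact ENNReal.tsum_le_tsum h2
  have h4 : ENNReal.ofReal N'⁻¹ * ∑' t : St T n, (t.1.length : ℝ≥0∞) * wE t.1 ≤ ENNReal.ofReal (1 / 4) := by
    refine (mul_le_mul' le_rfl (mean_St hM hn1)).trans (le_of_eq ?_)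
    rw [← ENNReal.ofReal_mul (inv_nonneg.2 hN'0.le)]
    congr 1
    rw [hN']
    field_simp
  have h5 : (∑' t : St T n, if t.1.length ≤ ⌊N'⌋₊ then wE t.1 else 0) ≤ gf (Sn T n ⌊N'⌋₊) := by
    have e1 : gf (Sn T n ⌊N'⌋₊) = ∑' t : List Bool, (Sn T n ⌊N'⌋₊).indicator wE t := tsum_subtype _ _
    have e2 : (∑' t : St T n, if t.1.length ≤ ⌊N'⌋₊ then wE t.1 else 0) =
        ∑' t : List Bool, (St T n).indicator (fun t => if t.length ≤ ⌊N'⌋₊ then wE t else 0) t :=
      tsum_subtype (St T n) (fun t => if t.length ≤ ⌊N'⌋₊ then wE t else 0)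
    rw [e1, e2]
    refine ENNReal.tsum_le_tsum fun t => ?_
    by_cases h6 : t ∈ St T n
    · by_cases h7 : t.length ≤ ⌊N'⌋₊
      · rw [Set.indicator_of_mem h6, if_pos h7, Set.indicator_of_mem (show t ∈ Sn T n ⌊N'⌋₊ from ⟨h6, h7⟩)]
      · rw [Set.indicator_of_mem h6, if_neg h7]
        exact bot_le
    · rw [Set.indicator_of_notMem h6]
      exact bot_le
  have h6 := hm.trans (h3.trans (add_le_add h5 h4))
  have e : ENNReal.ofReal (3 / 4) = ENNReal.ofReal (1 / 2) + ENNReal.ofReal (1 / 4) := by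
    rw [← ENNReal.ofReal_add (by norm_num) (by norm_num)]
    norm_num
  rw [e] at h6
  exact (ENNReal.add_le_add_iff_right ENNReal.ofReal_ne_top).1 h6

/-- exponential beats polynomial -/
lemma cube_le_of {a b c K q : ℝ} (hb : 0 < b) (hc : 0 < c)
    (h : ∀ k : ℕ, a ^ (k + 1) * c ≤ (q * (k + 1)) ^ 3 * (K * b ^ (k + 1))) : a ≤ b := by
  by_contra hab
  rw [not_le] at hab
  have hr : 1 < a / b := (one_lt_div hb).2 hab
  have ht := tendsto_pow_const_div_const_pow_of_one_lt 3 hr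
  have ht' := (ht.comp (Filter.tendsto_add_atTop_nat 1)).const_mul (q ^ 3 * K)
  rw [mul_zero] at ht'
  obtain ⟨k, hk⟩ := (ht'.eventually (gt_mem_nhds hc)).exists
  have h1 := h k
  simp only [Function.comp_apply] at hk
  have hbk : 0 < b ^ (k + 1) := pow_pos hb _
  have hak : 0 < a ^ (k + 1) := pow_pos (hb.trans hab) _
  rw [div_pow, div_div_eq_mul_div, ← mul_div_assoc, div_lt_iff₀ hak] at hk
  push_cast at hk h1
  nlinarith

/-- **The lower bound.** -/
theorem lower_n {T n N : ℕ} (hT : 1 ≤ T) (hTn : T ≤ n) {d : ℝ} (hd : 0 ≤ d) (hdN : d * N ≤ 1)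
    (hm : ENNReal.ofReal (1 / 2) ≤ gf (Sn T n N)) {s K : ℝ} (hs : 0 < s) (hK : 0 ≤ K)
    (h : ∀ p, Gd (ENNReal.ofReal (xc * Real.exp (-d))) p ≤
      ENNReal.ofReal (K * Real.exp (-(‖phiTri p‖ / s)))) :
    3 * (T : ℝ) / (2 * s) ≤ 1 + Real.log 2 := by
  have hT0 : (0 : ℝ) < T := by exact_mod_cast hT
  have hn1 : 1 ≤ n := hT.trans hTn
  set z : ℝ := xc * Real.exp (-d) with hz
  have hxc := xc_pos
  have hz0 : 0 < z := by positivity
  -- the pieces at z
  have hb : ENNReal.ofReal (1 / (2 * Real.exp 1)) ≤ gz (ENNReal.ofReal z) (Sn T n N) := by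
    have h1 : ∀ t : Sn T n N, ENNReal.ofReal (Real.exp (-1)) * wE t.1 ≤ ENNReal.ofReal z ^ t.1.length := by
      rintro ⟨t, ht⟩
      simp only
      rw [wE, ← ENNReal.ofReal_mul (Real.exp_nonneg _), ← ENNReal.ofReal_pow hz0.le]
      apply ENNReal.ofReal_le_ofReal
      rw [hz, mul_pow, mul_comm, ← Real.exp_nat_mul]
      refine mul_le_mul_of_nonneg_left (Real.exp_le_exp.2 ?_) (by positivity)
      have h2 : (t.length : ℝ) ≤ N := by exact_mod_cast ht.2
      nlinarith [mul_le_mul_of_nonneg_left h2 hd]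
    have h2 : ENNReal.ofReal (Real.exp (-1)) * gf (Sn T n N) ≤ gz (ENNReal.ofReal z) (Sn T n N) := by
      unfold gz gf
      rw [← ENNReal.tsum_mul_left]
      exact ENNReal.tsum_le_tsum h1
    refine le_trans (le_of_eq ?_) ((mul_le_mul' le_rfl hm).trans h2)
    rw [← ENNReal.ofReal_mul (Real.exp_nonneg _)]
    congr 1
    rw [Real.exp_neg]
    have := Real.exp_pos 1
    field_simp
  set A : ℝ := 1 / (2 * Real.exp 1) with hA
  have hA0 : 0 < A := by positivity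
  have hmain : A ≤ Real.exp (-(3 * T / (2 * s))) := by
    refine cube_le_of (c := z) (K := K) (q := 4 * (N + 1) + 1 + n) (Real.exp_pos _) hz0 ?_
    intro k
    set q : ℝ := 4 * (((k + 1) * N + 1 : ℕ) : ℝ) + 1 with hq
    have hG : ∀ hh ∈ Finset.Icc ((k + 1) * T) ((k + 1) * n), bz (ENNReal.ofReal z) hh ((k + 1) * N) * ENNReal.ofReal z ≤
        ENNReal.ofReal (q ^ 2 * (K * Real.exp (-(3 * T / (2 * s))) ^ (k + 1))) := by
      intro hh hhm
      refine (bz_le (ENNReal.ofReal z) hh ((k + 1) * N)).trans ?_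
      have h3 : ∀ p ∈ Bx ((k + 1) * N + 1) (3 * hh / 2), Gd (ENNReal.ofReal z) p ≤
          ENNReal.ofReal (K * Real.exp (-(3 * T / (2 * s))) ^ (k + 1)) := by
        intro p hp
        refine (h p).trans (ENNReal.ofReal_le_ofReal (mul_le_mul_of_nonneg_left ?_ hK))
        rw [← Real.exp_nat_mul]
        apply Real.exp_le_exp.2
        unfold Bx at hp
        have h4 := (Finset.mem_filter.1 hp).2
        have h4' : (3 * (((k + 1) * T : ℕ) : ℝ) / 2 : ℝ) ≤ ‖phiTri p‖ := by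
          refine le_trans ?_ h4
          have : (((k + 1) * T : ℕ) : ℝ) ≤ hh := by exact_mod_cast (Finset.mem_Icc.1 hhm).1
          linarith
        have h5 : (3 * (((k + 1) * T : ℕ) : ℝ) / 2 : ℝ) / s ≤ ‖phiTri p‖ / s := div_le_div_of_nonneg_right h4' hs.le
        have h6 : (3 * (((k + 1) * T : ℕ) : ℝ) / 2 : ℝ) / s = ((k + 1 : ℕ) : ℝ) * (3 * T / (2 * s)) := by
          push_cast
          field_simp
        rw [h6] at h5
        linarith
      refine (Finset.sum_le_sum h3).trans ?_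
      rw [Finset.sum_const, nsmul_eq_mul, ← ENNReal.ofReal_natCast,
        ← ENNReal.ofReal_mul (Nat.cast_nonneg _)]
      exact ENNReal.ofReal_le_ofReal (mul_le_mul_of_nonneg_right (Bx_card _ _) (by positivity))
    have h7 : ENNReal.ofReal A ^ (k + 1) * ENNReal.ofReal z ≤
        ENNReal.ofReal (((k + 1) * n + 1 : ℕ) * (q ^ 2 * (K * Real.exp (-(3 * T / (2 * s))) ^ (k + 1)))) := by
      refine (mul_le_mul' ((pow_le_pow_left' hb _).trans ((gz_pow _ T n N k).trans (gz_Wk _ T n N (k + 1)))) le_rfl).trans ?_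
      rw [Finset.sum_mul]
      refine (Finset.sum_le_sum hG).trans ?_
      rw [Finset.sum_const, nsmul_eq_mul, ENNReal.ofReal_mul (Nat.cast_nonneg _), ENNReal.ofReal_natCast]
      refine mul_le_mul' ?_ le_rfl
      rw [Nat.card_Icc]
      exact_mod_cast (Nat.sub_le _ _)
    rw [← ENNReal.ofReal_pow hA0.le, ← ENNReal.ofReal_mul (by positivity),
      ENNReal.ofReal_le_ofReal_iff (by positivity)] at h7
    refine h7.trans ?_
    set b := Real.exp (-(3 * T / (2 * s))) ^ (k + 1) with hb'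
    have hb0 : 0 < b := by positivity
    have hk0 : (0 : ℝ) ≤ k := Nat.cast_nonneg k
    have hN0 : (0 : ℝ) ≤ N := Nat.cast_nonneg N
    have hn0 : (1 : ℝ) ≤ n := by exact_mod_cast hn1
    have hKb : 0 ≤ K * b := mul_nonneg hK hb0.le
    set Q : ℝ := (4 * (N + 1) + 1 + n) * (k + 1) with hQ
    have h8 : (((k + 1) * n + 1 : ℕ) : ℝ) ≤ Q := by
      push_cast
      rw [hQ]
      nlinarith
    have h9 : q ≤ Q := by
      rw [hq, hQ]
      push_cast
      nlinarith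
    have hq0 : 0 ≤ q := by rw [hq]; positivity
    have hQ0 : 0 ≤ Q := hq0.trans h9
    calc (((k + 1) * n + 1 : ℕ) : ℝ) * (q ^ 2 * (K * b)) ≤ Q * (Q ^ 2 * (K * b)) := by
          apply mul_le_mul h8 _ (by positivity) hQ0
          exact mul_le_mul_of_nonneg_right (pow_le_pow_left₀ hq0 h9 2) hKb
      _ = Q ^ 3 * (K * b) := by ring
  have h1 := Real.log_le_log hA0 hmain
  rw [Real.log_exp, hA, Real.log_div one_ne_zero (by positivity), Real.log_one,
    Real.log_mul (by norm_num) (Real.exp_pos 1).ne', Real.log_exp] at h1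
  linarith

/-- **The lower bound of the correlation length, with constants.** -/
theorem low_sharp {a C : ℝ} (ha : 0 < a) (hC : 0 < C) (hM : HexObs.T2.MeanLen a C) :
    ∃ c : ℝ, 0 < c ∧ ∃ d0 : ℝ, 0 < d0 ∧ ∀ d : ℝ, 0 < d → d < d0 → ∀ s K : ℝ, 0 < s → 0 ≤ K →
      (∀ p, Gd (ENNReal.ofReal (xc * Real.exp (-d))) p ≤
        ENNReal.ofReal (K * Real.exp (-(‖phiTri p‖ / s)))) → c * d ^ (-(1 / a)) ≤ s := by
  obtain ⟨K0, hK0, hmass⟩ := mass
  set D : ℝ := 4 * C * (K0 : ℝ) ^ a with hD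
  have hK0' : (0 : ℝ) < K0 := by exact_mod_cast (by omega : 0 < K0)
  have hD0 : 0 < D := by positivity
  have hlog : 0 < 1 + Real.log 2 := by
    have := Real.log_pos (by norm_num : (1 : ℝ) < 2)
    linarith
  refine ⟨3 / 4 / (1 + Real.log 2) * D ^ (-(1 / a)), by positivity, (D * 2 ^ a)⁻¹,
    by positivity, fun d hd hd0 s K hs hK h => ?_⟩
  set Y : ℝ := (D * d)⁻¹ ^ (1 / a) with hY
  have hDd : 0 < D * d := by positivity
  have hY0 : 0 ≤ Y := by positivity
  have hYa : Y ^ a = (D * d)⁻¹ := by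
    rw [hY, ← Real.rpow_mul (by positivity), one_div_mul_cancel ha.ne', Real.rpow_one]
  have hY2 : 2 ≤ Y := by
    have h2 : (2 : ℝ) ^ a ≤ (D * d)⁻¹ := by
      rw [le_inv_comm₀ (by positivity) hDd]
      have h3 : d * (D * 2 ^ a) < 1 := by
        rwa [lt_inv_comm₀ hd (by positivity), ← one_div, lt_div_iff₀ hd, mul_comm] at hd0
      rw [← one_div, le_div_iff₀ (by positivity)]
      nlinarith
    by_contra h3
    rw [not_le] at h3
    have := Real.rpow_lt_rpow hY0 h3 ha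
    rw [hYa] at this
    linarith
  set T : ℕ := ⌊Y⌋₊ with hT
  have hT1 : 1 ≤ T := by
    rw [hT, Nat.one_le_floor_iff]
    linarith
  have hTY : (T : ℝ) ≤ Y := Nat.floor_le hY0
  have hTY2 : Y / 2 ≤ T := by
    have := Nat.lt_floor_add_one Y
    rw [← hT] at this
    linarith
  have h2 : d * ((⌊4 * C * ((K0 * T : ℕ) : ℝ) ^ a⌋₊ : ℕ) : ℝ) ≤ 1 := by
    have h3 : (T : ℝ) ^ a ≤ (D * d)⁻¹ := by
      rw [← hYa]
      exact Real.rpow_le_rpow (by positivity) hTY ha.le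
    have h4 : ((⌊4 * C * ((K0 * T : ℕ) : ℝ) ^ a⌋₊ : ℕ) : ℝ) ≤ 4 * C * ((K0 * T : ℕ) : ℝ) ^ a :=
      Nat.floor_le (by positivity)
    have h5 : 4 * C * ((K0 * T : ℕ) : ℝ) ^ a = D * (T : ℝ) ^ a := by
      push_cast
      rw [Real.mul_rpow hK0'.le (by positivity), hD]
      ring
    calc d * ((⌊4 * C * ((K0 * T : ℕ) : ℝ) ^ a⌋₊ : ℕ) : ℝ) ≤ d * (D * (T : ℝ) ^ a) :=
          mul_le_mul_of_nonneg_left (h4.trans h5.le) hd.le
      _ = D * d * (T : ℝ) ^ a := by ring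
      _ ≤ D * d * (D * d)⁻¹ := mul_le_mul_of_nonneg_left h3 hDd.le
      _ = 1 := mul_inv_cancel₀ hDd.ne'
  have h3 := lower_n hT1 (Nat.le_mul_of_pos_left T (by omega)) hd.le h2
    (half hM hC (by omega) hT1 (hmass T hT1)) hs hK h
  rw [div_le_iff₀ (by positivity)] at h3
  have h4 : Y = D ^ (-(1 / a)) * d ^ (-(1 / a)) := by
    rw [hY, ← Real.mul_rpow hD0.le hd.le, Real.inv_rpow hDd.le, ← Real.rpow_neg hDd.le]
  rw [mul_assoc, ← h4, div_mul_eq_mul_div, div_le_iff₀ hlog]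
  nlinarith

end VF
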