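import Pool.Agent.VF.XiGen
import Pool.Agent.VF.XiLow
import Pool.Agent.XI72.Tgt

/-!
# The correlation length: lower bound with a constant, from `MeanLen (4 / 3) C`
-/

set_option autoImplicit false

open scoped ENNReal
open Filter Topology

namespace VF

open SawNu HexObs XI72

open Classical in
/-- lower bound with a constant, upper bound with `ε` -/
theorem xi_fin {a : ℝ} (ha : 0 < a) (hM : ∃ C : ℝ, 0 < C ∧ HexObs.T2.MeanLen a C) {p0 : ℝ} (hp0 : 0 < p0)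
    (hU : ∀ p : ℝ, p0 < p → TailUp p) {f : ℕ → Fin 3 → ℂ}
    (hf : ∀ i a, f i a = (-1 : ℂ) ^ i * Complex.exp (2 * (Real.pi : ℂ) * Complex.I * ((a : ℕ) : ℂ) / 3))
    {μ : ℝ} (hμ : μ = ⨅ n : {n : ℕ // 1 ≤ n}, (((saw f n.1).card : ℝ) ^ ((1 : ℝ) / (n.1 : ℝ))))
    {G : ℝ → ℂ → ℝ} (hG : ∀ z x, G z x = ∑' n : ℕ, (((saw f n).filter (fun s => pos f s n = x)).card : ℝ) * z ^ n)
    {ξ : ℝ → ℝ} (hξ : ∀ z, ξ z = sInf (Adm (G z))) {ε : ℝ} (hε : 0 < ε) :
    ∃ c : ℝ, 0 < c ∧ ∀ᶠ z in 𝓝[<] (1 / μ),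
      c * (1 / μ - z) ^ (-(1 / a)) ≤ ξ z ∧ ξ z ≤ (1 / μ - z) ^ (-(p0 / 2) - ε) := by
  obtain ⟨C, hC, hM⟩ := hM
  obtain ⟨c, hc, d1, hd1, hlow⟩ := low_sharp ha hC hM
  obtain ⟨d2, hd2, hup⟩ := upper_pow hp0 hU (ν := p0 / 2 + ε / 2) (by linarith)
  have hxc := xc_pos
  have h := main_gen (ξ := ξ) (ν1 := 1 / a) (ν2 := p0 / 2 + ε / 2) (c := c) (C := 2) hf hμ (by positivity) (by positivity)
    hc.le (by norm_num) (lt_min hd1 hd2) (fun d hd hd0 => by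
      refine core_gen hf hG hξ (by positivity) (fun s K hs hK h =>
        hlow d hd (hd0.trans_le (min_le_left _ _)) s K hs hK h) (hup d hd (hd0.trans_le (min_le_right _ _))))
  refine ⟨c * (xc / 2) ^ (1 / a), by positivity, ?_⟩
  have hp2 : ∀ᶠ u in 𝓝[>] (0 : ℝ), u ^ (ε / 2) ≤ 1 / 2 := by
    have ht : Tendsto (fun u : ℝ => u ^ (ε / 2)) (𝓝[>] 0) (𝓝 0) := by
      have := (Real.continuousAt_rpow_const 0 (ε / 2) (Or.inr (by linarith))).tendsto
      rw [Real.zero_rpow (by linarith)] at this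
      exact this.mono_left nhdsWithin_le_nhds
    exact (ht.eventually_lt_const (by norm_num : (0 : ℝ) < 1 / 2)).mono fun u hu => hu.le
  have htu : Tendsto (fun z : ℝ => 1 / μ - z) (𝓝[<] (1 / μ)) (𝓝[>] 0) := by
    refine tendsto_nhdsWithin_iff.2 ⟨?_, ?_⟩
    · have : Tendsto (fun z : ℝ => 1 / μ - z) (𝓝 (1 / μ)) (𝓝 (1 / μ - 1 / μ)) :=
        (continuous_const.sub continuous_id).tendsto _
      rw [sub_self] at this
      exact this.mono_left nhdsWithin_le_nhds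
    · filter_upwards [self_mem_nhdsWithin] with z hz
      exact sub_pos.2 (show z < 1 / μ from hz)
  filter_upwards [h, htu.eventually hp2, self_mem_nhdsWithin] with z hz hz2 hz3
  have hu : 0 < 1 / μ - z := sub_pos.2 (show z < 1 / μ from hz3)
  refine ⟨hz.1, hz.2.trans ?_⟩
  generalize 1 / μ - z = u at *
  have h5 : u ^ (-(p0 / 2 + ε / 2)) = u ^ (ε / 2) * u ^ (-(p0 / 2) - ε) := by
    rw [← Real.rpow_add hu]
    congr 1
    ring
  have h6 : 0 < u ^ (-(p0 / 2) - ε) := by positivity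
  rw [h5]
  nlinarith [mul_le_mul_of_nonneg_right hz2 h6.le]

end VF
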