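import Pool.Agent.VF.XiUpA
import Pool.Agent.T2.AllNUp
import Pool.Agent.XI72.D

/-!
# Exponential decay of the two-point function at the rate `d ^ (3 / 4)`, from the lower bound of the lengths of the bridges
-/

set_option autoImplicit false

open scoped ENNReal

namespace VF

open Finset HexObs HexObs.TS HexObs.SDN HexObs.NTW XI72

/-- the words of each length separately -/
lemma gf_sum_len (A : Set (List Bool)) (N : ℕ) :
    ∑ n ∈ range (N + 1), gf {t | t ∈ A ∧ t.length = n} ≤ gf {t | t ∈ A ∧ t.length ≤ N} := by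
  classical
  have h1 : ∀ n, gf {t | t ∈ A ∧ t.length = n} = ∑' t : List Bool, if t ∈ A ∧ t.length = n then wE t else 0 := by
    intro n
    rw [← Rec8.sw_one, Rec8.sw_ind]
    refine tsum_congr fun t => ?_
    by_cases h : t ∈ A ∧ t.length = n
    · rw [if_pos h, if_pos (show t ∈ {t | t ∈ A ∧ t.length = n} from h), mul_one]
    · rw [if_neg h, if_neg (show t ∉ {t | t ∈ A ∧ t.length = n} from h)]
  have h2 : gf {t | t ∈ A ∧ t.length ≤ N} = ∑' t : List Bool, if t ∈ A ∧ t.length ≤ N then wE t else 0 := by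
    rw [← Rec8.sw_one, Rec8.sw_ind]
    refine tsum_congr fun t => ?_
    by_cases h : t ∈ A ∧ t.length ≤ N
    · rw [if_pos h, if_pos (show t ∈ {t | t ∈ A ∧ t.length ≤ N} from h), mul_one]
    · rw [if_neg h, if_neg (show t ∉ {t | t ∈ A ∧ t.length ≤ N} from h)]
  simp only [h1]
  rw [← Summable.tsum_finsetSum (fun _ _ => ENNReal.summable), h2]
  refine ENNReal.tsum_le_tsum fun t => ?_
  by_cases h : t ∈ A ∧ t.length ≤ N
  · rw [if_pos h, Finset.sum_eq_single t.length]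
    · rw [if_pos ⟨h.1, rfl⟩]
    · intro n _ hn
      rw [if_neg]
      rintro ⟨-, h3⟩
      exact hn h3.symm
    · intro hn
      exact absurd (Finset.mem_range.2 (by omega)) hn
  · rw [if_neg h]
    refine le_of_eq (Finset.sum_eq_zero fun n hn => ?_)
    rw [Finset.mem_range] at hn
    rw [if_neg]
    rintro ⟨h3, h4⟩
    exact h ⟨h3, by omega⟩

open Classical in
/-- the walks with at most N steps -/
theorem short_sum : ∃ κ : ℕ, 1 ≤ κ ∧ ∀ (d R : ℝ) (L N : ℕ), 0 ≤ d → (κ : ℝ) * 2 ^ L ≤ R →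
    ∑ n ∈ range (N + 1), ENNReal.ofReal (tm (xc * Real.exp (-d)) R n) ≤ 3 * gf {t | t ∈ SAL N ∧ T2.Ext L t} := by
  obtain ⟨K, hK, hE⟩ := T2.AllNUp.enc_far
  refine ⟨2 * K, by omega, fun d R L N hd hR => ?_⟩
  have hxc := xc_pos
  have hKR : (1 : ℝ) ≤ K := by exact_mod_cast hK
  have h2L : (0 : ℝ) < 2 ^ L := by positivity
  have hR0 : 0 < R := lt_of_lt_of_le (by push_cast; positivity) hR
  have key : ∀ n, ENNReal.ofReal (tm (xc * Real.exp (-d)) R n) ≤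
      3 * gf {t | t ∈ {t | t ∈ SA ∧ T2.Ext L t} ∧ t.length = n} := by
    intro n
    rcases Nat.eq_zero_or_pos n with hn | hn
    · subst hn
      rw [tm_small (by simpa using hR0), ENNReal.ofReal_zero]
      exact zero_le
    have h1 : (((SawNu.WS SawNu.hexL n).filter (fun l => Rch R l)).card : ℝ) ≤
        3 * (({t | (t ∈ SA ∧ T2.Ext L t) ∧ t.length = n} : Set (List Bool)).ncard : ℝ) := by
      have h2 : ((SawNu.WS SawNu.hexL n).filter (fun l => Rch R l)).card ≤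
          ((SawNu.WS SawNu.hexL n).filter (fun l => (K : ℝ) * (4 : ℝ) ^ L < SawNu.S4 SawNu.hexRot l)).card := by
        apply Finset.card_le_card
        intro l hl
        rw [Finset.mem_filter] at hl ⊢
        refine ⟨hl.1, ?_⟩
        obtain ⟨j, hj, hh⟩ := hl.2
        have hlen := (SawNu.mem_WS.1 hl.1).1
        have h3 := SawNu.norm_pos_le SawNu.encHex SawNu.hexRot SawNu.hup_hex hl.1 (i := j) (by omega)
        have h4 : R ^ 2 ≤ ‖SawNu.phiTri (SawNu.ps l j)‖ ^ 2 := pow_le_pow_left₀ hR0.le hh 2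
        have h5 : ‖SawNu.phiTri (SawNu.ps l j)‖ ^ 2 ≤ 2 * SawNu.S4 SawNu.hexRot l := h3
        have h6 : ((2 * K : ℕ) * (2 : ℝ) ^ L) ^ 2 ≤ R ^ 2 := pow_le_pow_left₀ (by positivity) hR 2
        have h7 : ((2 * K : ℕ) * (2 : ℝ) ^ L) ^ 2 = 4 * (K : ℝ) ^ 2 * 4 ^ L := by
          rw [mul_pow, ← pow_mul, mul_comm L 2, pow_mul]
          push_cast
          ring
        have h8 : (0 : ℝ) < 4 ^ L := by positivity
        have h9 : (K : ℝ) * 4 ^ L ≤ (K : ℝ) ^ 2 * 4 ^ L := by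
          apply mul_le_mul_of_nonneg_right _ h8.le
          nlinarith
        have h10 : 0 < (K : ℝ) * 4 ^ L := by positivity
        nlinarith
      have h3 := h2.trans (hE n L hn)
      exact_mod_cast h3
    rw [T2.AllN.gf_len (n := n) (fun t ht => ht.2)]
    have h4 : tm (xc * Real.exp (-d)) R n ≤
        3 * ((({t | (t ∈ SA ∧ T2.Ext L t) ∧ t.length = n} : Set (List Bool)).ncard : ℝ) * xc ^ n) := by
      unfold tm
      have h5 : (xc * Real.exp (-d)) ^ n ≤ xc ^ n := by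
        apply pow_le_pow_left₀ (by positivity)
        have : Real.exp (-d) ≤ 1 := Real.exp_le_one_iff.2 (by linarith)
        nlinarith
      calc _ ≤ (3 * (({t | (t ∈ SA ∧ T2.Ext L t) ∧ t.length = n} : Set (List Bool)).ncard : ℝ)) * xc ^ n := by
            exact mul_le_mul h1 h5 (by positivity) (by positivity)
        _ = _ := by ring
    refine (ENNReal.ofReal_le_ofReal h4).trans (le_of_eq ?_)
    rw [ENNReal.ofReal_mul (by norm_num), ENNReal.ofReal_mul (Nat.cast_nonneg _), ENNReal.ofReal_natCast]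
    congr 1
    norm_num
  calc ∑ n ∈ range (N + 1), ENNReal.ofReal (tm (xc * Real.exp (-d)) R n)
      ≤ ∑ n ∈ range (N + 1), 3 * gf {t | t ∈ {t | t ∈ SA ∧ T2.Ext L t} ∧ t.length = n} :=
        Finset.sum_le_sum fun n _ => key n
    _ = 3 * ∑ n ∈ range (N + 1), gf {t | t ∈ {t | t ∈ SA ∧ T2.Ext L t} ∧ t.length = n} := by
        rw [Finset.mul_sum]
    _ ≤ 3 * gf {t | t ∈ {t | t ∈ SA ∧ T2.Ext L t} ∧ t.length ≤ N} := mul_le_mul_right (gf_sum_len _ N) _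
    _ ≤ 3 * gf {t | t ∈ SAL N ∧ T2.Ext L t} := by
        refine mul_le_mul_right (gf_mono fun t ht => ?_) _
        exact ⟨⟨ht.1.1, ht.2⟩, ht.1.2⟩

/-- the walks with more than N steps -/
theorem long_sum (d R : ℝ) (N : ℕ) (hd : 0 ≤ d) :
    ∑' n : ℕ, ENNReal.ofReal (tm (xc * Real.exp (-d)) R (n + (N + 1))) ≤
      ENNReal.ofReal (Real.exp (-(d / 2 * (N + 1)))) * M (ENNReal.ofReal (xc * Real.exp (-(d / 2)))) false 0 := by
  classical
  have hxc := xc_pos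
  have hz0 : 0 ≤ xc * Real.exp (-(d / 2)) := by positivity
  have hz1 : 0 ≤ xc * Real.exp (-d) := by positivity
  rw [M_tm hz0, ← ENNReal.tsum_mul_left]
  have h1 : ∀ n : ℕ, ENNReal.ofReal (tm (xc * Real.exp (-d)) R (n + (N + 1))) ≤
      ENNReal.ofReal (Real.exp (-(d / 2 * (N + 1)))) * ENNReal.ofReal (tm (xc * Real.exp (-(d / 2))) 0 (n + (N + 1))) := by
    intro n
    rw [← ENNReal.ofReal_mul (Real.exp_pos _).le]
    apply ENNReal.ofReal_le_ofReal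
    obtain ⟨m, hm⟩ : ∃ m, m = n + (N + 1) := ⟨_, rfl⟩
    rw [← hm]
    unfold tm
    have h2 : ((SawNu.WS SawNu.hexL m).filter (fun l => Rch R l)).card ≤
        ((SawNu.WS SawNu.hexL m).filter (fun l => Rch 0 l)).card := by
      apply Finset.card_le_card
      intro l hl
      rw [Finset.mem_filter] at hl ⊢
      exact ⟨hl.1, 0, Nat.zero_le _, norm_nonneg _⟩
    have h3 : (xc * Real.exp (-d)) ^ m ≤ Real.exp (-(d / 2 * (N + 1))) * (xc * Real.exp (-(d / 2))) ^ m := by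
      rw [mul_pow, mul_pow, ← Real.exp_nat_mul, ← Real.exp_nat_mul]
      have h4 : Real.exp (m * -d) ≤ Real.exp (-(d / 2 * (N + 1))) * Real.exp (m * -(d / 2)) := by
        rw [← Real.exp_add]
        apply Real.exp_le_exp.2
        have h5 : (N : ℝ) + 1 ≤ m := by
          rw [hm]
          push_cast
          have : (0 : ℝ) ≤ n := Nat.cast_nonneg _
          linarith
        nlinarith
      have h6 : 0 ≤ xc ^ m := by positivity
      nlinarith [mul_le_mul_of_nonneg_left h4 h6]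
    calc _ ≤ (((SawNu.WS SawNu.hexL m).filter (fun l => Rch 0 l)).card : ℝ) *
          (Real.exp (-(d / 2 * (N + 1))) * (xc * Real.exp (-(d / 2))) ^ m) := by
          refine mul_le_mul ?_ h3 (by positivity) (Nat.cast_nonneg _)
          exact_mod_cast h2
      _ = _ := by ring
  refine (ENNReal.tsum_le_tsum h1).trans ?_
  obtain ⟨F, hF⟩ : ∃ F : ℕ → ℝ≥0∞, F = fun n => ENNReal.ofReal (Real.exp (-(d / 2 * (N + 1)))) *
    ENNReal.ofReal (tm (xc * Real.exp (-(d / 2))) 0 n) := ⟨_, rfl⟩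
  have h2 : ∑' n : ℕ, F (n + (N + 1)) ≤ ∑' n : ℕ, F n :=
    ENNReal.tsum_comp_le_tsum_of_injective (add_left_injective (N + 1)) F
  rw [hF] at h2
  exact h2

/-- numbers -/
lemma num_bd {A B Λ : ℝ} (hA : 1 ≤ A) (hB : 0 ≤ B) (hΛ : 1 ≤ Λ) :
    ∃ K : ℝ, 0 ≤ K ∧ ∀ (H : ℕ) (x : ℝ), 1 ≤ H → 0 ≤ x → x ≤ H * Λ →
      (1 + A * x ^ B) ^ 2 * (1 / 2) ^ H ≤ K * Real.exp (-((H : ℝ) / 2)) := by
  obtain ⟨K, hK, h⟩ := pow_exp_bdd (a := 2 * B) (c := 1) (κ := 1 / 10) one_pos (by norm_num)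
  refine ⟨(1 + A * Λ ^ B) ^ 2 * K, by positivity, fun H x hH hx0 hx => ?_⟩
  have hH1 : (1 : ℝ) ≤ H := by exact_mod_cast hH
  have hH0 : (0 : ℝ) < H := by linarith
  have h1 : x ^ B ≤ (H : ℝ) ^ B * Λ ^ B := by
    rw [← Real.mul_rpow hH0.le (by linarith)]
    exact Real.rpow_le_rpow hx0 hx hB
  have h2 : (1 : ℝ) ≤ (H : ℝ) ^ B := Real.one_le_rpow hH1 hB
  have h3 : 0 ≤ Λ ^ B := by positivity
  have h4 : 1 + A * x ^ B ≤ (H : ℝ) ^ B * (1 + A * Λ ^ B) := by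
    have : A * x ^ B ≤ A * ((H : ℝ) ^ B * Λ ^ B) := mul_le_mul_of_nonneg_left h1 (by linarith)
    nlinarith
  have h5 : 0 ≤ 1 + A * x ^ B := by positivity
  have h6 : (1 + A * x ^ B) ^ 2 ≤ ((H : ℝ) ^ B * (1 + A * Λ ^ B)) ^ 2 := pow_le_pow_left₀ h5 h4 2
  have h7 : ((H : ℝ) ^ B) ^ 2 = (H : ℝ) ^ (2 * B) := by
    rw [← Real.rpow_natCast, ← Real.rpow_mul hH0.le]
    congr 1
    push_cast
    ring
  have h8 : ((1 : ℝ) / 2) ^ H ≤ Real.exp (-(1 / 10 * (H : ℝ) ^ (1 : ℝ))) * Real.exp (-((H : ℝ) / 2)) := by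
    rw [← Real.exp_add, Real.rpow_one]
    have h9 : (1 : ℝ) / 2 ≤ Real.exp (-(3 / 5)) := by
      have h10 : Real.exp (3 / 5) ≤ 2 := by
        have h11 : (3 / 5 : ℝ) ≤ Real.log 2 := by
          have := Real.log_two_gt_d9
          linarith
        calc Real.exp (3 / 5) ≤ Real.exp (Real.log 2) := Real.exp_le_exp.2 h11
          _ = 2 := Real.exp_log (by norm_num)
      rw [Real.exp_neg, one_div]
      exact inv_anti₀ (Real.exp_pos _) h10
    calc ((1 : ℝ) / 2) ^ H ≤ Real.exp (-(3 / 5)) ^ H := pow_le_pow_left₀ (by norm_num) h9 H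
      _ = Real.exp (-(1 / 10 * (H : ℝ)) + -((H : ℝ) / 2)) := by
          rw [← Real.exp_nat_mul]
          congr 1
          ring
  have h9 := h H
  calc (1 + A * x ^ B) ^ 2 * (1 / 2) ^ H
      ≤ ((H : ℝ) ^ B * (1 + A * Λ ^ B)) ^ 2 *
        (Real.exp (-(1 / 10 * (H : ℝ) ^ (1 : ℝ))) * Real.exp (-((H : ℝ) / 2))) :=
        mul_le_mul h6 h8 (by positivity) (by positivity)
    _ = (1 + A * Λ ^ B) ^ 2 * ((H : ℝ) ^ (2 * B) * Real.exp (-(1 / 10 * (H : ℝ) ^ (1 : ℝ)))) *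
        Real.exp (-((H : ℝ) / 2)) := by
        rw [mul_pow, h7]
        ring
    _ ≤ _ := by
        have h10 : 0 ≤ (1 + A * Λ ^ B) ^ 2 := by positivity
        exact mul_le_mul_of_nonneg_right (mul_le_mul_of_nonneg_left h9 h10) (Real.exp_pos _).le

/-- **the decay at the scale kc** -/
theorem decay_scale {b s : ℕ} (hb : 1 ≤ b) : ∃ κ : ℕ, 1 ≤ κ ∧ ∀ (kc : ℕ) (lam d : ℝ), 0 < d → 1 ≤ d * lam →
    (∀ H : ℕ, 1 ≤ H → gf (NTm.TT (kc + s) H b lam) ≤ ENNReal.ofReal (Ub kc / 2 ^ H)) →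
    ∃ C : ℝ, 0 ≤ C ∧ ∀ R : ℝ, 0 ≤ R → M (ENNReal.ofReal (xc * Real.exp (-d))) false R ≤
      ENNReal.ofReal (C * Real.exp (-(R / ((κ : ℝ) * 2 ^ kc)))) := by
  classical
  obtain ⟨κ, hκ, hshort⟩ := short_sum
  obtain ⟨K, A, B, hK, hA, hB, hext⟩ := ext_le
  have hκR : (1 : ℝ) ≤ κ := by exact_mod_cast hκ
  have hbR : (1 : ℝ) ≤ b := by exact_mod_cast hb
  refine ⟨2 * b * (2 * κ) * 2 ^ (s + 6), ?_, fun kc lam d hd hdl hTT => ?_⟩
  · have h1 : 1 ≤ 2 ^ (s + 6) := Nat.one_le_two_pow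
    exact Nat.mul_pos (Nat.mul_pos (by omega) (by omega)) h1
  have hxc := xc_pos
  have hlam : 0 < lam := by
    by_contra h
    push Not at h
    nlinarith
  have hz0 : 0 ≤ xc * Real.exp (-d) := by positivity
  obtain ⟨K1, hK1, hnum⟩ := num_bd (Λ := lam + 1) hA hB (by linarith)
  obtain ⟨M1, hM1⟩ : ∃ M1 : ℝ, M1 = (M (ENNReal.ofReal (xc * Real.exp (-(d / 2)))) false 0).toReal := ⟨_, rfl⟩
  have hM1' : M (ENNReal.ofReal (xc * Real.exp (-(d / 2)))) false 0 = ENNReal.ofReal M1 := by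
    rw [hM1, ENNReal.ofReal_toReal (M_fin (by linarith) 0)]
  have hM10 : 0 ≤ M1 := by rw [hM1]; exact ENNReal.toReal_nonneg
  obtain ⟨M0, hM0⟩ : ∃ M0 : ℝ, M0 = (M (ENNReal.ofReal (xc * Real.exp (-d))) false 0).toReal := ⟨_, rfl⟩
  have hM0' : M (ENNReal.ofReal (xc * Real.exp (-d))) false 0 = ENNReal.ofReal M0 := by
    rw [hM0, ENNReal.ofReal_toReal (M_fin hd 0)]
  have hM00 : 0 ≤ M0 := by rw [hM0]; exact ENNReal.toReal_nonneg
  have hU := Ub_pos kc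
  obtain ⟨E, hE⟩ : ∃ E : ℝ, E = 3 * K * Ub kc * K1 + M1 := ⟨_, rfl⟩
  have hE0 : 0 ≤ E := by rw [hE]; positivity
  obtain ⟨U, hUd⟩ : ∃ U : ℝ, U = ((2 * b * (2 * κ) * 2 ^ (s + 6) : ℕ) : ℝ) * 2 ^ kc := ⟨_, rfl⟩
  have hU0 : 0 < U := by
    rw [hUd]
    push_cast
    positivity
  obtain ⟨R0, hR0⟩ : ∃ R0 : ℝ, R0 = κ * 2 ^ (kc + s + 4) := ⟨_, rfl⟩
  have hR00 : 0 < R0 := by rw [hR0]; positivity
  refine ⟨E + M0 * Real.exp (R0 / U), by positivity, fun R hR => ?_⟩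
  rw [← hUd]
  rcases lt_or_ge R R0 with hRR | hRR
  · -- small R
    refine (M_anti _ _ hR).trans ?_
    rw [hM0']
    apply ENNReal.ofReal_le_ofReal
    have h1 : 1 ≤ Real.exp (R0 / U) * Real.exp (-(R / U)) := by
      rw [← Real.exp_add]
      apply Real.one_le_exp
      have : R / U ≤ R0 / U := div_le_div_of_nonneg_right hRR.le hU0.le
      linarith
    have h2 : 0 ≤ E * Real.exp (-(R / U)) := by positivity
    nlinarith
  -- the scale of R
  obtain ⟨L, hL⟩ : ∃ L : ℕ, L = ⌊Real.logb 2 (R / κ)⌋₊ := ⟨_, rfl⟩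
  have hRκ : (2 : ℝ) ^ (kc + s + 4) ≤ R / κ := by
    rw [le_div_iff₀ (by linarith)]
    rw [hR0] at hRR
    linarith
  have hRκ0 : 0 < R / κ := lt_of_lt_of_le (by positivity) hRκ
  have hlog : ((kc + s + 4 : ℕ) : ℝ) ≤ Real.logb 2 (R / κ) := by
    rw [Real.le_logb_iff_rpow_le (by norm_num) hRκ0, Real.rpow_natCast]
    exact hRκ
  have hlog0 : 0 ≤ Real.logb 2 (R / κ) := (Nat.cast_nonneg _).trans hlog
  have hL1 : (2 : ℝ) ^ L ≤ R / κ := by
    rw [← Real.rpow_natCast, ← Real.le_logb_iff_rpow_le (by norm_num) hRκ0, hL]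
    exact Nat.floor_le hlog0
  have hL2 : R / κ < 2 ^ (L + 1) := by
    rw [← Real.rpow_natCast, ← Real.logb_lt_iff_lt_rpow (by norm_num) hRκ0, hL]
    push_cast
    exact Nat.lt_floor_add_one _
  have hL3 : kc + s + 4 ≤ L := by
    rw [hL]
    exact Nat.le_floor hlog
  -- the number H and the length N
  obtain ⟨H, hH⟩ : ∃ H : ℕ, H = 2 ^ (L - (kc + s) - 2) := ⟨_, rfl⟩
  have hH1 : 1 ≤ H := by rw [hH]; exact Nat.one_le_two_pow
  have hHL : 2 * H * 2 ^ (kc + s) = 2 ^ (L - 1) := by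
    rw [hH, ← pow_succ', ← pow_add]
    congr 1
    omega
  have hH1R : (1 : ℝ) ≤ H := by exact_mod_cast hH1
  obtain ⟨N, hN⟩ : ∃ N : ℕ, N = ⌊(H : ℝ) * lam / b⌋₊ := ⟨_, rfl⟩
  have hN1 : (N : ℝ) ≤ (H : ℝ) * lam / b := by
    rw [hN]
    exact Nat.floor_le (by positivity)
  have hN2 : (H : ℝ) * lam / b < N + 1 := by
    rw [hN]
    exact Nat.lt_floor_add_one _
  have hbN : (b : ℝ) * N ≤ H * lam := by
    rw [le_div_iff₀ (by linarith)] at hN1
    linarith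
  -- short walks
  have hRL : (κ : ℝ) * 2 ^ L ≤ R := by
    rw [le_div_iff₀ (by linarith)] at hL1
    linarith
  have s1 := hshort d R L N hd.le hRL
  have s2 := hext L N (by omega)
  have s3 : gf (TBr (2 ^ (L - 1)) N) ≤ ENNReal.ofReal (Ub kc / 2 ^ H) :=
    (gf_mono (TBr_tall (kc := kc) (s := s) (b := b) (H := H) hHL.le hbN)).trans (hTT H hH1)
  have hx : (N : ℝ) + 1 ≤ H * (lam + 1) := by
    have h1 : (H : ℝ) * lam / b ≤ H * lam := div_le_self (by positivity) hbR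
    nlinarith
  have s4 := hnum H ((N : ℝ) + 1) hH1 (by positivity) hx
  have s5 : ∑ n ∈ range (N + 1), ENNReal.ofReal (tm (xc * Real.exp (-d)) R n) ≤
      ENNReal.ofReal (3 * K * Ub kc * K1 * Real.exp (-((H : ℝ) / 2))) := by
    refine s1.trans ((mul_le_mul_right (s2.trans (mul_le_mul_right s3 _)) _).trans ?_)
    have e3 : (3 : ℝ≥0∞) = ENNReal.ofReal 3 := by norm_num
    rw [e3, ← ENNReal.ofReal_mul (by positivity), ← ENNReal.ofReal_mul (by norm_num)]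
    apply ENNReal.ofReal_le_ofReal
    have e4 : 3 * (K * (1 + A * ((N : ℝ) + 1) ^ B) ^ 2 * (Ub kc / 2 ^ H)) =
        3 * K * Ub kc * ((1 + A * ((N : ℝ) + 1) ^ B) ^ 2 * (1 / 2) ^ H) := by
      rw [one_div, inv_pow]
      field_simp
    rw [e4]
    calc 3 * K * Ub kc * ((1 + A * ((N : ℝ) + 1) ^ B) ^ 2 * (1 / 2) ^ H)
        ≤ 3 * K * Ub kc * (K1 * Real.exp (-((H : ℝ) / 2))) := mul_le_mul_of_nonneg_left s4 (by positivity)
      _ = _ := by ring
  -- long walks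
  have s6 := long_sum d R N hd.le
  have s7 : ∑' n : ℕ, ENNReal.ofReal (tm (xc * Real.exp (-d)) R (n + (N + 1))) ≤
      ENNReal.ofReal (M1 * Real.exp (-((H : ℝ) / (2 * b)))) := by
    refine s6.trans ?_
    rw [hM1', ← ENNReal.ofReal_mul (Real.exp_pos _).le, mul_comm]
    apply ENNReal.ofReal_le_ofReal
    apply mul_le_mul_of_nonneg_left _ hM10
    apply Real.exp_le_exp.2
    have h1 : (H : ℝ) / (2 * b) ≤ d / 2 * (N + 1) := by
      have h2 : (H : ℝ) / b ≤ d * (N + 1) := by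
        calc (H : ℝ) / b ≤ (H : ℝ) * (d * lam) / b := by
              apply div_le_div_of_nonneg_right _ (by linarith)
              nlinarith
          _ = d * ((H : ℝ) * lam / b) := by ring
          _ ≤ d * (N + 1) := mul_le_mul_of_nonneg_left hN2.le hd.le
      have h3 : (H : ℝ) / (2 * b) = (H : ℝ) / b / 2 := by
        field_simp
      rw [h3]
      linarith
    linarith
  -- the sum
  have hHb : (H : ℝ) / (2 * b) ≤ (H : ℝ) / 2 := by
    apply div_le_div_of_nonneg_left (by positivity) (by norm_num)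
    linarith
  have hRU : R / U ≤ (H : ℝ) / (2 * b) := by
    have h1 : R ≤ κ * 2 ^ (L + 1) := by
      rw [div_lt_iff₀ (by linarith)] at hL2
      linarith
    have h2 : (2 : ℝ) ^ (L + 1) = H * 2 ^ (kc + s + 3) := by
      rw [hH]
      push_cast
      rw [← pow_add]
      congr 1
      omega
    rw [div_le_div_iff₀ hU0 (by linarith)]
    have h3 : U = 2 * b * (2 * κ) * 2 ^ (s + 6) * 2 ^ kc := by
      rw [hUd]
      push_cast
      ring
    have h4 : (2 : ℝ) ^ (kc + s + 3) = 2 ^ kc * 2 ^ s * 8 := by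
      rw [pow_add, pow_add]
      norm_num
    have h5 : (2 : ℝ) ^ (s + 6) = 2 ^ s * 64 := by
      rw [pow_add]
      norm_num
    rw [h3, h5]
    rw [h2, h4] at h1
    have h6 : 0 ≤ (κ : ℝ) * (H * (2 ^ kc * 2 ^ s)) := by positivity
    calc R * (2 * b) ≤ (κ * (H * (2 ^ kc * 2 ^ s * 8))) * (2 * b) :=
          mul_le_mul_of_nonneg_right h1 (by linarith)
      _ = (κ * (H * (2 ^ kc * 2 ^ s))) * (16 * b) := by ring
      _ ≤ (κ * (H * (2 ^ kc * 2 ^ s))) * (256 * b) := by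
          apply mul_le_mul_of_nonneg_left _ h6
          linarith
      _ = _ := by ring
  rw [M_tm hz0]
  have hsum : ∑' n : ℕ, ENNReal.ofReal (tm (xc * Real.exp (-d)) R n) =
      ∑ n ∈ range (N + 1), ENNReal.ofReal (tm (xc * Real.exp (-d)) R n) +
        ∑' n : ℕ, ENNReal.ofReal (tm (xc * Real.exp (-d)) R (n + (N + 1))) :=
    (Summable.sum_add_tsum_nat_add' (f := fun n => ENNReal.ofReal (tm (xc * Real.exp (-d)) R n))
      ENNReal.summable).symm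
  rw [hsum]
  refine (add_le_add s5 s7).trans ?_
  rw [← ENNReal.ofReal_add (by positivity) (by positivity)]
  apply ENNReal.ofReal_le_ofReal
  have e1 : Real.exp (-((H : ℝ) / 2)) ≤ Real.exp (-(R / U)) := Real.exp_le_exp.2 (by linarith)
  have e2 : Real.exp (-((H : ℝ) / (2 * b))) ≤ Real.exp (-(R / U)) := Real.exp_le_exp.2 (by linarith)
  have e3 : 3 * K * Ub kc * K1 * Real.exp (-((H : ℝ) / 2)) ≤ 3 * K * Ub kc * K1 * Real.exp (-(R / U)) :=
    mul_le_mul_of_nonneg_left e1 (by positivity)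
  have e4 : M1 * Real.exp (-((H : ℝ) / (2 * b))) ≤ M1 * Real.exp (-(R / U)) := mul_le_mul_of_nonneg_left e2 hM10
  have e5 : 0 ≤ M0 * Real.exp (R0 / U) * Real.exp (-(R / U)) := by positivity
  calc 3 * K * Ub kc * K1 * Real.exp (-((H : ℝ) / 2)) + M1 * Real.exp (-((H : ℝ) / (2 * b)))
      ≤ 3 * K * Ub kc * K1 * Real.exp (-(R / U)) + M1 * Real.exp (-(R / U)) := add_le_add e3 e4
    _ = E * Real.exp (-(R / U)) := by rw [hE]; ring
    _ ≤ _ := by nlinarith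

/-- the input: the total weight of the bridges with few letters -/
def AShort : Prop := ∀ dd : ℝ, 0 < dd → ∃ (c : ℝ) (k0 : ℕ), 0 < c ∧ ∀ k : ℕ, k0 ≤ k →
  NTm.AS (c * (2 : ℝ) ^ ((4 / 3 : ℝ) * k)) (dd * Ub k)

/-- **exponential decay at the rate d ^ (3 / 4)** -/
theorem upper_sharp (hAS : AShort) : ∃ C1 : ℝ, 0 < C1 ∧ ∃ d0 : ℝ, 0 < d0 ∧ ∀ d : ℝ, 0 < d → d < d0 →
    ∃ C : ℝ, 0 ≤ C ∧ ∀ R : ℝ, 0 ≤ R → M (ENNReal.ofReal (xc * Real.exp (-d))) false R ≤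
      ENNReal.ofReal (C * Real.exp (-(R / (C1 * d ^ (-(3 / 4) : ℝ))))) := by
  obtain ⟨dd, b, s, k0, hdd, hb, htall⟩ := NTm.tallT
  obtain ⟨c, k1, hc, hA⟩ := hAS dd hdd
  obtain ⟨κ, hκ, hdec⟩ := decay_scale (b := b) (s := s) hb
  have hκR : (1 : ℝ) ≤ κ := by exact_mod_cast hκ
  obtain ⟨k2, hk2⟩ : ∃ k2 : ℕ, k2 = max k0 k1 := ⟨_, rfl⟩
  refine ⟨κ * (2 * c ^ (-(3 / 4) : ℝ)), by positivity, c⁻¹ * (2 : ℝ) ^ (-((4 / 3 : ℝ) * k2)), by positivity,
    fun d hd hd0 => ?_⟩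
  -- the scale
  obtain ⟨y, hy⟩ : ∃ y : ℝ, y = (c * d) ^ (-(3 / 4) : ℝ) := ⟨_, rfl⟩
  have hcd : 0 < c * d := by positivity
  have hy0 : 0 < y := by rw [hy]; positivity
  have hcd1 : c * d < (2 : ℝ) ^ (-((4 / 3 : ℝ) * k2)) := by
    calc c * d < c * (c⁻¹ * (2 : ℝ) ^ (-((4 / 3 : ℝ) * k2))) := mul_lt_mul_of_pos_left hd0 hc
      _ = _ := by field_simp
  have hy2 : (2 : ℝ) ^ (k2 : ℝ) < y := by
    have h1 : ((2 : ℝ) ^ (-((4 / 3 : ℝ) * k2))) ^ (-(3 / 4) : ℝ) < (c * d) ^ (-(3 / 4) : ℝ) :=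
      Real.rpow_lt_rpow_of_neg hcd hcd1 (by norm_num)
    rw [← Real.rpow_mul (by norm_num), ← hy] at h1
    have h2 : -((4 / 3 : ℝ) * k2) * (-(3 / 4)) = k2 := by ring
    rwa [h2] at h1
  have hlog : (k2 : ℝ) < Real.logb 2 y := by
    rw [Real.lt_logb_iff_rpow_lt (by norm_num) hy0]
    exact hy2
  have hlog0 : 0 ≤ Real.logb 2 y := (Nat.cast_nonneg k2).trans hlog.le
  obtain ⟨kc, hkc⟩ : ∃ kc : ℕ, kc = ⌈Real.logb 2 y⌉₊ := ⟨_, rfl⟩
  have hk1 : Real.logb 2 y ≤ kc := by rw [hkc]; exact Nat.le_ceil _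
  have hk3 : (kc : ℝ) < Real.logb 2 y + 1 := by rw [hkc]; exact Nat.ceil_lt_add_one hlog0
  have hk4 : k2 ≤ kc := by
    have : (k2 : ℝ) < kc := hlog.trans_le hk1
    exact_mod_cast this.le
  have hyk : y ≤ (2 : ℝ) ^ kc := by
    rw [← Real.rpow_natCast, ← Real.logb_le_iff_le_rpow (by norm_num) hy0]
    exact hk1
  have hky : (2 : ℝ) ^ kc ≤ 2 * y := by
    have h1 : (2 : ℝ) ^ (kc : ℝ) ≤ 2 ^ (Real.logb 2 y + 1) := Real.rpow_le_rpow_of_exponent_le (by norm_num) hk3.le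
    rw [Real.rpow_add (by norm_num), Real.rpow_logb (by norm_num) (by norm_num) hy0, Real.rpow_one,
      Real.rpow_natCast] at h1
    linarith
  obtain ⟨lam, hlam⟩ : ∃ lam : ℝ, lam = c * (2 : ℝ) ^ ((4 / 3 : ℝ) * kc) := ⟨_, rfl⟩
  have hlam0 : 0 < lam := by rw [hlam]; positivity
  have hdl : 1 ≤ d * lam := by
    have h1 : y ^ (4 / 3 : ℝ) ≤ ((2 : ℝ) ^ kc) ^ (4 / 3 : ℝ) := Real.rpow_le_rpow hy0.le hyk (by norm_num)
    have h2 : ((2 : ℝ) ^ kc) ^ (4 / 3 : ℝ) = (2 : ℝ) ^ ((4 / 3 : ℝ) * kc) := by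
      rw [← Real.rpow_natCast, ← Real.rpow_mul (by norm_num), mul_comm]
    have h3 : y ^ (4 / 3 : ℝ) = (c * d)⁻¹ := by
      rw [hy, ← Real.rpow_mul hcd.le]
      norm_num
      rw [Real.rpow_neg_one]
      field_simp
    rw [h2, h3] at h1
    have h4 : 1 ≤ (c * d) * (2 : ℝ) ^ ((4 / 3 : ℝ) * kc) := by
      calc (1 : ℝ) = (c * d) * (c * d)⁻¹ := (mul_inv_cancel₀ hcd.ne').symm
        _ ≤ _ := mul_le_mul_of_nonneg_left h1 hcd.le
    rw [hlam]
    linarith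
  have hk0 : k0 ≤ k2 := by
    rw [hk2]
    exact le_max_left _ _
  have hk1' : k1 ≤ k2 := by
    rw [hk2]
    exact le_max_right _ _
  have hAk := hA kc (hk1'.trans hk4)
  rw [← hlam] at hAk
  have hT := htall kc lam (hk0.trans hk4) hlam0 hAk
  obtain ⟨C, hC, h⟩ := hdec kc lam d hd hdl hT
  refine ⟨C, hC, fun R hR => (h R hR).trans (ENNReal.ofReal_le_ofReal ?_)⟩
  apply mul_le_mul_of_nonneg_left _ hC
  apply Real.exp_le_exp.2
  have h5 : (κ : ℝ) * 2 ^ kc ≤ κ * (2 * c ^ (-(3 / 4) : ℝ)) * d ^ (-(3 / 4) : ℝ) := by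
    have h6 : y = c ^ (-(3 / 4) : ℝ) * d ^ (-(3 / 4) : ℝ) := by rw [hy, Real.mul_rpow hc.le hd.le]
    calc (κ : ℝ) * 2 ^ kc ≤ κ * (2 * y) := mul_le_mul_of_nonneg_left hky (by linarith)
      _ = _ := by rw [h6]; ring
  have h7 : 0 < (κ : ℝ) * 2 ^ kc := by positivity
  have h8 := div_le_div_of_nonneg_left hR h7 h5
  linarith

end VF
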