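import Pool.Agent.VF.XiGen
import Pool.Agent.VF.XiLow
import Pool.Agent.VF.XiUpB

/-!
# The correlation length up to constants, from `MeanLen (4 / 3) C` and the lower bound of the lengths of the bridges
-/

set_option autoImplicit false

open scoped ENNReal
open Filter Topology

namespace VF

open SawNu HexObs XI72

open Classical in
/-- both bounds with a constant -/
theorem xi_fin2 (hM : ∃ C : ℝ, 0 < C ∧ HexObs.T2.MeanLen (4 / 3) C) (hAS : AShort) {f : ℕ → Fin 3 → ℂ}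
    (hf : ∀ i a, f i a = (-1 : ℂ) ^ i * Complex.exp (2 * (Real.pi : ℂ) * Complex.I * ((a : ℕ) : ℂ) / 3))
    {μ : ℝ} (hμ : μ = ⨅ n : {n : ℕ // 1 ≤ n}, (((saw f n.1).card : ℝ) ^ ((1 : ℝ) / (n.1 : ℝ))))
    {G : ℝ → ℂ → ℝ} (hG : ∀ z x, G z x = ∑' n : ℕ, (((saw f n).filter (fun s => pos f s n = x)).card : ℝ) * z ^ n)
    {ξ : ℝ → ℝ} (hξ : ∀ z, ξ z = sInf (Adm (G z))) :
    ∃ c : ℝ, 0 < c ∧ ∀ᶠ z in 𝓝[<] (1 / μ),
      c * (1 / μ - z) ^ (-(3 / 4) : ℝ) ≤ ξ z ∧ ξ z ≤ c⁻¹ * (1 / μ - z) ^ (-(3 / 4) : ℝ) := by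
  obtain ⟨C, hC, hM⟩ := hM
  obtain ⟨c, hc, d1, hd1, hlow⟩ := low_sharp (a := 4 / 3) (by norm_num) hC hM
  obtain ⟨C1, hC1, d2, hd2, hup⟩ := upper_sharp hAS
  have hxc := xc_pos
  have e1 : (-(1 / (4 / 3 : ℝ))) = -(3 / 4) := by norm_num
  rw [e1] at hlow
  have h := main_gen (ξ := ξ) (ν1 := 3 / 4) (ν2 := 3 / 4) (c := c) (C := C1) hf hμ (by norm_num) (by norm_num)
    hc.le hC1.le (lt_min hd1 hd2) (fun d hd hd0 => by
      refine core_gen hf hG hξ (by positivity) (fun s K hs hK h =>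
        hlow d hd (hd0.trans_le (min_le_left _ _)) s K hs hK h) (hup d hd (hd0.trans_le (min_le_right _ _))))
  obtain ⟨c2, hc2⟩ : ∃ c2 : ℝ, c2 = min (c * (xc / 2) ^ (3 / 4 : ℝ)) C1⁻¹ := ⟨_, rfl⟩
  have hc20 : 0 < c2 := by
    rw [hc2]
    exact lt_min (by positivity) (by positivity)
  refine ⟨c2, hc20, ?_⟩
  filter_upwards [h, self_mem_nhdsWithin] with z hz hz3
  have hu : 0 < 1 / μ - z := sub_pos.2 (show z < 1 / μ from hz3)
  have h6 : 0 < (1 / μ - z) ^ (-(3 / 4) : ℝ) := by positivity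
  refine ⟨le_trans (mul_le_mul_of_nonneg_right ?_ h6.le) hz.1, hz.2.trans (mul_le_mul_of_nonneg_right ?_ h6.le)⟩
  · rw [hc2]
    exact min_le_left _ _
  · rw [le_inv_comm₀ hC1 hc20, hc2]
    exact min_le_right _ _

end VF
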