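import Pool.Agent.XI72.E

/-!
# The correlation length from bounds at the fugacity `x_c e ^ (-d)`, with constants
-/

set_option autoImplicit false

open scoped ENNReal
open Filter Topology

namespace VF

open SawNu HexObs XI72

open Classical in
/-- the two bounds at one fugacity -/
theorem core_gen {f : ℕ → Fin 3 → ℂ}
    (hf : ∀ i a, f i a = (-1 : ℂ) ^ i * Complex.exp (2 * (Real.pi : ℂ) * Complex.I * ((a : ℕ) : ℂ) / 3))
    {G : ℝ → ℂ → ℝ} (hG : ∀ z x, G z x = ∑' n : ℕ, (((saw f n).filter (fun s => pos f s n = x)).card : ℝ) * z ^ n)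
    {ξ : ℝ → ℝ} (hξ : ∀ z, ξ z = sInf (Adm (G z))) {d L U : ℝ} (hU : 0 < U)
    (hlow : ∀ s K : ℝ, 0 < s → 0 ≤ K → (∀ p, Gd (ENNReal.ofReal (xc * Real.exp (-d))) p ≤
      ENNReal.ofReal (K * Real.exp (-(‖phiTri p‖ / s)))) → L ≤ s)
    (hup : ∃ C : ℝ, 0 ≤ C ∧ ∀ R : ℝ, 0 ≤ R → M (ENNReal.ofReal (xc * Real.exp (-d))) false R ≤
      ENNReal.ofReal (C * Real.exp (-(R / U)))) :
    L ≤ ξ (xc * Real.exp (-d)) ∧ ξ (xc * Real.exp (-d)) ≤ U := by
  have hxc := xc_pos
  set z : ℝ := xc * Real.exp (-d) with hz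
  have hz0 : 0 < z := by positivity
  obtain ⟨C, hC, hM⟩ := hup
  have hfin : ∀ p, Gd (ENNReal.ofReal z) p ≠ ⊤ := fun p =>
    ne_top_of_le_ne_top (ne_top_of_le_ne_top ENNReal.ofReal_ne_top (hM _ (norm_nonneg (phiTri p))))
      (Gd_le_M _ p)
  have hGp : ∀ p, ENNReal.ofReal (G z (phiTri p)) = Gd (ENNReal.ofReal z) p := by
    intro p
    rw [Gd_real hz0.le (hfin p), hG]
    congr 1
    exact tsum_congr fun n => by rw [cnt_gd hf]
  have hG0 : ∀ x, 0 ≤ G z x := fun x => by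
    rw [hG]
    exact tsum_nonneg fun n => by positivity
  have hGz : ∀ x, (∀ p, phiTri p ≠ x) → G z x = 0 := by
    intro x hx
    rw [hG]
    have : ∀ n : ℕ, (((saw f n).filter (fun s => pos f s n = x)).card : ℝ) * z ^ n = 0 := by
      intro n
      rw [cnt_zero hf n hx]
      simp
    rw [tsum_congr this, tsum_zero]
  have hmem : U ∈ Adm (G z) := by
    refine ⟨hU, C, fun x => ?_⟩
    by_cases hx : ∀ p, phiTri p ≠ x
    · rw [hGz x hx]
      positivity
    · push Not at hx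
      obtain ⟨p, rfl⟩ := hx
      have h3 : ENNReal.ofReal (G z (phiTri p)) ≤ ENNReal.ofReal (C * Real.exp (-(‖phiTri p‖ / U))) := by
        rw [hGp p]
        exact (Gd_le_M _ p).trans (hM _ (norm_nonneg _))
      rwa [ENNReal.ofReal_le_ofReal_iff (by positivity)] at h3
  have hbdd : BddBelow (Adm (G z)) := ⟨0, fun s hs => hs.1.le⟩
  refine ⟨?_, ?_⟩
  · rw [hξ]
    refine le_csInf ⟨_, hmem⟩ fun s hs => ?_
    obtain ⟨hs0, K, hK⟩ := hs
    have hK0 : 0 ≤ K := by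
      have := (hG0 0).trans (hK 0)
      rw [norm_zero, zero_div, neg_zero, Real.exp_zero, mul_one] at this
      exact this
    refine hlow s K hs0 hK0 fun p => ?_
    rw [← hGp p]
    exact ENNReal.ofReal_le_ofReal (hK _)
  · rw [hξ]
    exact csInf_le hbdd hmem

open Classical in
/-- from `d` to `z = x_c e ^ (-d)` -/
theorem main_gen {f : ℕ → Fin 3 → ℂ}
    (hf : ∀ i a, f i a = (-1 : ℂ) ^ i * Complex.exp (2 * (Real.pi : ℂ) * Complex.I * ((a : ℕ) : ℂ) / 3))
    {μ : ℝ} (hμ : μ = ⨅ n : {n : ℕ // 1 ≤ n}, (((saw f n.1).card : ℝ) ^ ((1 : ℝ) / (n.1 : ℝ))))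
    {ξ : ℝ → ℝ} {ν1 ν2 c C : ℝ} (h1 : 0 ≤ ν1) (h2 : 0 ≤ ν2) (hc : 0 ≤ c) (hC : 0 ≤ C) {d0 : ℝ} (hd0 : 0 < d0)
    (h : ∀ d : ℝ, 0 < d → d < d0 →
      c * d ^ (-ν1) ≤ ξ (xc * Real.exp (-d)) ∧ ξ (xc * Real.exp (-d)) ≤ C * d ^ (-ν2)) :
    ∀ᶠ z in 𝓝[<] (1 / μ), c * (xc / 2) ^ ν1 * (1 / μ - z) ^ (-ν1) ≤ ξ z ∧ ξ z ≤ C * (1 / μ - z) ^ (-ν2) := by
  rw [mu_val hf hμ]
  have hxc := xc_pos
  have hxc1 : xc < 1 := by
    have h3 := xc_sq
    have h4 := Real.sqrt_nonneg 2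
    have h5 : xc ^ 2 < 1 := by
      rw [h3, div_lt_one (by positivity)]
      linarith
    nlinarith
  have hev : ∀ᶠ z in 𝓝[<] xc, xc * Real.exp (-(min d0 1)) < z := by
    refine (eventually_gt_nhds ?_).filter_mono nhdsWithin_le_nhds
    have : Real.exp (-(min d0 1)) < 1 := by
      rw [Real.exp_lt_one_iff]
      exact neg_neg_of_pos (lt_min hd0 one_pos)
    nlinarith
  filter_upwards [hev, self_mem_nhdsWithin] with z hz3 hz4
  have hz4' : z < xc := hz4
  have hz0 : 0 < z := (by positivity : 0 < xc * Real.exp (-(min d0 1))).trans hz3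
  set u : ℝ := xc - z with hu
  have hu0 : 0 < u := sub_pos.2 hz4
  set d : ℝ := Real.log (xc / z) with hd
  have hdpos : 0 < d := Real.log_pos ((one_lt_div hz0).2 hz4)
  have hze : xc * Real.exp (-d) = z := by
    rw [hd, Real.exp_neg, Real.exp_log (by positivity)]
    field_simp
  have hdmin : d < min d0 1 := by
    have h3 : Real.exp (-(min d0 1)) < Real.exp (-d) := by
      rw [← hze] at hz3
      exact lt_of_mul_lt_mul_left hz3 hxc.le
    have := Real.exp_lt_exp.1 h3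
    linarith
  have hue : u = xc * (1 - Real.exp (-d)) := by
    rw [hu, ← hze]
    ring
  have hud : u ≤ d := by
    have h3 := Real.add_one_le_exp (-d)
    have h4 : 1 - Real.exp (-d) ≤ d := by linarith
    have h5 : 0 ≤ 1 - Real.exp (-d) := by
      have := Real.exp_le_one_iff.2 (neg_nonpos.2 hdpos.le)
      linarith
    rw [hue]
    nlinarith
  have hdu : d ≤ 2 / xc * u := by
    have h3 : d / 2 ≤ 1 - Real.exp (-d) := by
      have h5 : d < 1 := lt_of_lt_of_le hdmin (min_le_right _ _)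
      have h6 := Real.add_one_le_exp d
      have h4 : Real.exp (-d) ≤ (1 + d)⁻¹ := by
        rw [Real.exp_neg]
        exact inv_anti₀ (by linarith) (by linarith)
      have h7 : (1 + d)⁻¹ ≤ 1 - d / 2 := by
        rw [inv_le_iff_one_le_mul₀ (by linarith)]
        nlinarith
      linarith
    rw [hue]
    field_simp
    linarith
  obtain ⟨e1, e2⟩ := h d hdpos (lt_of_lt_of_le hdmin (min_le_left _ _))
  rw [hze] at e1 e2
  refine ⟨le_trans ?_ e1, e2.trans ?_⟩
  · have h3 : (2 / xc * u) ^ (-ν1) ≤ d ^ (-ν1) :=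
      Real.rpow_le_rpow_of_nonpos hdpos hdu (by linarith)
    refine le_trans (le_of_eq ?_) (mul_le_mul_of_nonneg_left h3 hc)
    rw [Real.mul_rpow (by positivity) hu0.le]
    have h4 : (2 / xc) ^ (-ν1) = (xc / 2) ^ ν1 := by
      rw [Real.rpow_neg (by positivity), ← Real.inv_rpow (by positivity), inv_div]
    rw [h4, mul_assoc]
  · exact mul_le_mul_of_nonneg_left (Real.rpow_le_rpow_of_nonpos hu0 hud (by linarith)) hC

end VF
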